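import Pool.Agent.EinT.Defs
import Pool.Agent.EinS.Main

/-!
# The matrices

Library used: `Pool/Agent/EinS` (helper64): `TT F A C = ∑ A a b • (F a * C * (F b)ᵀ)`,
`UU F A C = (tr (F a * A * (F b)ᵀ * C))`, `lc F x = ∑ x a • F a`, `rw' F y` = the matrix with rows `(F a)ᵀ y`,
`TT_quad`, `UU_quad`, `trace_quad`, `Btw a b A` : `A` symmetric, `a ≤ A ≤ b`, `Btw.inv`, `Btw.norm_le`;
`Phi1 N B P = 1 - TT N P⁻¹ B⁻¹ - TT N P B + B * TT N P B⁻¹ * B`,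
`Phi2 N S B P = 1/2 UU N B⁻¹ B⁻¹ + P (1 - UU N B B⁻¹ - UU S P⁻¹ P) P + 1/2 UU S P P`,
`RicM C G Gi`, `CC N S`, `UU_CC`.

`q` indexes a frame `a_s` of `k ⊖ h`, `r` a frame of `l`, `p` a frame `f_i` of `p = (k ⊕ l)^⊥`;
`N s i j = ⟪[a_s, f_i], f_j⟫`, `S s t u = ⟪[a_s, a_t], a_u⟫`, `M z i j = ⟪[z, f_i], f_j⟫`,
`R z x y = ⟪[z, x], y⟫`.  The metric is `P⁻¹` on `q`, `C` on `r`, `B` on `p`, `B` commutes with the `M z`,
`C` with the `R z`.  The Einstein equations with constant `1/4` are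
`P = 2 Phi2 N S B P`, `B = 2 Phi1 N B P - 2 TT M C B⁻¹`, `C = UU R 1 1 + C * UU M B⁻¹ B⁻¹ * C`.

`Dat` with `e = s²`, `t = a²`: the Casimir operators of `k` are `≤ s²`, the Casimir operator of `h` on
`p` is `≥ a²`.  Invariant box: `1 + a ≤ B ≤ 1 + 3 s`, `1 - 15 s ≤ P ≤ 1 + 15 s`, `1 - 12 s³ ≤ C ≤ 1 + 12 s³`.
-/

namespace Pool.Agent.EinT

open Matrix Pool.Agent.EinS

variable {q p r : Type*} [Fintype q] [DecidableEq q] [Fintype p] [DecidableEq p] [Fintype r]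
  [DecidableEq r]

/-- The structure constants. -/
structure Dat (N : q → Matrix p p ℝ) (S : q → Matrix q q ℝ) (M : r → Matrix p p ℝ)
    (R : r → Matrix r r ℝ) (s a : ℝ) : Prop where
  a0 : 0 < a
  as : a ≤ s
  s1 : 300 * s ≤ 1
  sa : 300 * s ^ 3 ≤ a ^ 2
  comm : ∀ x z, N x * M z = M z * N x
  anM : ∀ z, (M z)ᵀ = -M z
  anR : ∀ z, (R z)ᵀ = -R z
  anR' : ∀ x y z, R y x z = -R x y z
  brM : ∀ x y, M x * M y - M y * M x = -∑ w, R x y w • M w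
  brR : ∀ x y, R x * R y - R y * R x = -∑ w, R x y w • R w
  casN : ∀ y : p → ℝ, trace (rw' N y * (rw' N y)ᵀ) ≤ s ^ 2 * (y ⬝ᵥ y)
  up : ∀ x : q → ℝ, trace (lc N x * (lc N x)ᵀ) ≤ x ⬝ᵥ x
  lo : ∀ x : q → ℝ, (1 - s ^ 2) * (x ⬝ᵥ x) ≤ trace (lc N x * (lc N x)ᵀ)
  str : ∀ x : q → ℝ, trace (lc S x * (lc S x)ᵀ) ≤ x ⬝ᵥ x - trace (lc N x * (lc N x)ᵀ)
  casM : ∀ y : p → ℝ, (1 - 2 * s ^ 2) * (y ⬝ᵥ y) ≤
    2 * trace (rw' M y * (rw' M y)ᵀ) + 2 * trace (rw' N y * (rw' N y)ᵀ)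
  casM' : ∀ y : p → ℝ, 2 * trace (rw' M y * (rw' M y)ᵀ) + 2 * trace (rw' N y * (rw' N y)ᵀ) ≤
    (1 - 2 * a ^ 2) * (y ⬝ᵥ y)
  trR : UU R 1 1 + UU M 1 1 = 1
  idx : ∀ x : r → ℝ, trace (lc M x * (lc M x)ᵀ) ≤ s ^ 2 * (x ⬝ᵥ x)

/-- A symmetry of the structure constants. -/
structure Sym3 (N : q → Matrix p p ℝ) (S : q → Matrix q q ℝ) (M : r → Matrix p p ℝ)
    (R : r → Matrix r r ℝ) (u : Matrix q q ℝ) (v : Matrix p p ℝ) (w : Matrix r r ℝ) : Prop where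
  sym : Sym N S u v
  w1 : w * wᵀ = 1
  hM : ∀ z, v * M z * vᵀ = ∑ y, w y z • M y
  hR : ∀ z, w * R z * wᵀ = ∑ y, w y z • R y

/-- The component `B` of the fixed point map. -/
noncomputable def PhB (N : q → Matrix p p ℝ) (M : r → Matrix p p ℝ) (B : Matrix p p ℝ)
    (P : Matrix q q ℝ) (C : Matrix r r ℝ) : Matrix p p ℝ :=
  (2 : ℝ) • (Phi1 N B P - TT M C B⁻¹)

/-- The component `P` of the fixed point map. -/
noncomputable def PhP (N : q → Matrix p p ℝ) (S : q → Matrix q q ℝ) (B : Matrix p p ℝ)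
    (P : Matrix q q ℝ) : Matrix q q ℝ :=
  (2 : ℝ) • Phi2 N S B P

/-- The component `C` of the fixed point map. -/
noncomputable def PhC (M : r → Matrix p p ℝ) (R : r → Matrix r r ℝ) (B : Matrix p p ℝ)
    (C : Matrix r r ℝ) : Matrix r r ℝ :=
  UU R 1 1 + C * UU M B⁻¹ B⁻¹ * C

/-- The structure constants of `q ⊕ r`. -/
noncomputable def SR (S : q → Matrix q q ℝ) (R : r → Matrix r r ℝ) :
    q ⊕ r → Matrix (q ⊕ r) (q ⊕ r) ℝ :=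
  Sum.elim (fun x => fromBlocks (S x) 0 0 0) (fun z => fromBlocks 0 0 0 (R z))

/-- The metric. -/
noncomputable def GG (B : Matrix p p ℝ) (P : Matrix q q ℝ) (C : Matrix r r ℝ) :
    Matrix ((q ⊕ r) ⊕ p) ((q ⊕ r) ⊕ p) ℝ :=
  fromBlocks (fromBlocks P⁻¹ 0 0 C) 0 0 B

/-- The inverse of the metric. -/
noncomputable def GI (B : Matrix p p ℝ) (P : Matrix q q ℝ) (C : Matrix r r ℝ) :
    Matrix ((q ⊕ r) ⊕ p) ((q ⊕ r) ⊕ p) ℝ :=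
  fromBlocks (fromBlocks P 0 0 C⁻¹) 0 0 B⁻¹

end Pool.Agent.EinT
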