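import Pool.Agent.EinT.Close

/-!
# The bounds for `PhB`

`κ_N(y) = tr (rw' N y (rw' N y)ᵀ) = yᵀ (TT N 1 1) y ≤ s² |y|²`, `κ_M(y) = tr (rw' M y (rw' M y)ᵀ)`; with `n2 = |y|²`:
`yᵀ PhB y = 2 n2 - 2 X1 - 2 X2 + 2 X3 - 2 XM`, `X1 = tr (P⁻¹ (rw' N y B⁻¹ (rw' N y)ᵀ))`,
`X2 = tr (P (rw' N y B (rw' N y)ᵀ))`, `X3 = tr (P (rw' N (B y) B⁻¹ (rw' N (B y))ᵀ))` (see `Phi1_btw` in `EinS/Phi.lean`),
`XM = tr (C (rw' M y B⁻¹ (rw' M y)ᵀ))` (`TT_quad`).  All bounds below are `trace_quad` and `Btw.inv`.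
`form_close` with `K = TT N 1 1`, `e = s²`, `β = 3 s`: `|κ_N(B y) - κ_N(y)| ≤ s² (6 s + 9 s²) n2 ≤ 6.03 s³ n2`.

Upper bound.  `X1 ≥ κ_N / ((1 + 15 s)(1 + 3 s)) ≥ (1 - 18 s) κ_N`, `X2 ≥ (1 - 15 s) κ_N`,
`X3 ≤ (1 + 15 s) κ_N(B y) ≤ (1 + 15 s)(κ_N + 6.03 s³ n2)`.  So `X1 + X2 - X3 ≥ κ_N - 48 s κ_N - 6.4 s³ n2 ≥ κ_N - 55 s³ n2`.
`XM ≥ c κ_M`, `c = (1 - 12 s³)/(1 + 3 s) ≤ 1`, and `2 κ_M ≥ (1 - 2 s²) n2 - 2 κ_N` (`casM`), so
`yᵀ PhB y ≤ 2 n2 - 2 κ_N + 110 s³ n2 - c (1 - 2 s²) n2 + 2 c κ_N ≤ (2 + 110 s³ - c (1 - 2 s²)) n2 ≤ (1 + 3 s) n2`; the last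
step: `(1 - 3 s + 110 s³)(1 + 3 s) ≤ (1 - 12 s³)(1 - 2 s²)`, i.e. `7 s² ≥ 122 s³ + 330 s⁴ - 24 s⁵`, true for `s ≤ 1/300`.

Lower bound.  `X1 ≤ κ_N / (1 - 15 s) ≤ (1 + 16 s) κ_N`, `X2 ≤ (1 + 15 s)(1 + 3 s) κ_N ≤ (1 + 18.2 s) κ_N`,
`X3 ≥ ((1 - 15 s)/(1 + 3 s)) κ_N(B y) ≥ (1 - 18 s) κ_N - 6.03 s³ n2`.  So `X1 + X2 - X3 ≤ κ_N + 60 s³ n2`.
`XM ≤ c' κ_M`, `c' = (1 + 12 s³)/(1 + a)`, `2 κ_M ≤ (1 - 2 a²) n2 - 2 κ_N` (`casM'`), so
`yᵀ PhB y ≥ 2 n2 - 2 κ_N - 120 s³ n2 - c' (1 - 2 a²) n2 + 2 c' κ_N ≥ (2 - 120 s³ - c' (1 - 2 a²)) n2 - 2 (1 - c') κ_N`, and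
`2 (1 - c') κ_N ≤ 2 a s² n2 ≤ 2 s³ n2` (as `1 - c' ≤ a`).  Finally `c' (1 - 2 a²) ≤ 1 - a - 122 s³`:
`(1 + 12 s³)(1 - 2 a²) ≤ 1 - 2 a² + 12 s³ ≤ 1 - a² - 122 s³ (1 + a)` because `135 s³ ≤ 300 s³ ≤ a²` (`sa`).
-/

namespace Pool.Agent.EinT

open Matrix Pool.Agent.EinS

variable {q p r : Type*} [Fintype q] [DecidableEq q] [Fintype p] [DecidableEq p] [Fintype r]
  [DecidableEq r]

private theorem BndB_up {s n k kB kM X1 X2 X3 XM r1 r2 c : ℝ} (hs0 : 0 < s) (hs1 : 300 * s ≤ 1)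
    (hn : 0 ≤ n) (hk : 0 ≤ k) (hkB : 0 ≤ kB) (hks : k ≤ s ^ 2 * n)
    (hr1 : r1 * (1 + 3 * s) = 1) (hr2 : r2 * (1 + 15 * s) = 1)
    (h1 : r2 * r1 * k ≤ X1) (h2 : (1 - 15 * s) * 1 * k ≤ X2) (h3 : X3 ≤ (1 + 15 * s) * 1 * kB)
    (hc : c = (1 - 12 * s ^ 3) * r1) (hM : c * kM ≤ XM)
    (hcl : kB ≤ k + s ^ 2 * (2 * (3 * s) + (3 * s) ^ 2) * n)
    (hcas : (1 - 2 * s ^ 2) * n ≤ 2 * kM + 2 * k) :
    2 * (n - X1 - X2 + X3 - XM) ≤ (1 + 3 * s) * n := by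
  have hs2 : s ≤ 1 / 300 := by linarith
  have r1p : 0 < r1 := by
    by_contra h
    push Not at h
    nlinarith
  have r2p : 0 < r2 := by
    by_contra h
    push Not at h
    nlinarith
  have r1l : 1 - 3 * s ≤ r1 := by nlinarith
  have r1u : r1 ≤ 1 := by nlinarith
  have r2l : 1 - 15 * s ≤ r2 := by nlinarith
  have r2u : r2 ≤ 1 := by nlinarith
  have h12 : 1 - 18 * s ≤ r2 * r1 := by nlinarith
  have g1 : (1 - 18 * s) * k ≤ X1 := le_trans (mul_le_mul_of_nonneg_right h12 hk) h1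
  have s3 : 0 < s ^ 3 := by positivity
  have c0 : 0 ≤ c := by
    rw [hc]
    have : 0 ≤ 1 - 12 * s ^ 3 := by nlinarith [pow_pos hs0 2]
    positivity
  have c1 : c ≤ 1 := by
    rw [hc]
    nlinarith
  have g3 : X3 ≤ (1 + 15 * s) * k + 64 / 10 * s ^ 3 * n := by
    have e1 : s ^ 2 * (2 * (3 * s) + (3 * s) ^ 2) * n ≤ 603 / 100 * s ^ 3 * n := by
      apply mul_le_mul_of_nonneg_right _ hn
      nlinarith
    have e2 : (1 + 15 * s) * kB ≤ (1 + 15 * s) * (k + 603 / 100 * s ^ 3 * n) :=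
      mul_le_mul_of_nonneg_left (by linarith) (by linarith)
    have e3 : (1 + 15 * s) * (603 / 100 * s ^ 3 * n) ≤ 64 / 10 * s ^ 3 * n := by
      have : (1 + 15 * s) * (603 / 100) ≤ 64 / 10 := by linarith
      have := mul_le_mul_of_nonneg_right this (mul_nonneg s3.le hn)
      linarith
    linarith
  have gM : c * ((1 - 2 * s ^ 2) * n) - 2 * k ≤ 2 * XM := by
    have e1 := mul_le_mul_of_nonneg_left hcas c0
    have e2 : c * k ≤ 1 * k := mul_le_mul_of_nonneg_right c1 hk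
    linarith
  have gk : s * k ≤ s ^ 3 * n := by
    have := mul_le_mul_of_nonneg_left hks hs0.le
    linarith [this, show s * (s ^ 2 * n) = s ^ 3 * n by ring]
  have key : 1 - 3 * s + 109 * s ^ 3 ≤ c * (1 - 2 * s ^ 2) := by
    have e0 : c * (1 + 3 * s) = 1 - 12 * s ^ 3 := by
      rw [hc, mul_assoc, hr1, mul_one]
    have e1 : (1 - 3 * s + 109 * s ^ 3) * (1 + 3 * s) ≤ (c * (1 - 2 * s ^ 2)) * (1 + 3 * s) := by
      have e2 : (c * (1 - 2 * s ^ 2)) * (1 + 3 * s) = (1 - 12 * s ^ 3) * (1 - 2 * s ^ 2) := by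
        rw [← e0]
        ring
      rw [e2]
      have e3 : s ^ 3 ≤ 1 / 300 * s ^ 2 := by nlinarith [pow_pos hs0 2]
      have e4 : s ^ 4 ≤ 1 / 300 * s ^ 2 := by nlinarith [pow_pos hs0 2]
      have e5 : 0 < s ^ 5 := by positivity
      nlinarith
    exact le_of_mul_le_mul_right e1 (by linarith)
  have keyn := mul_le_mul_of_nonneg_right key hn
  have s3n : 0 ≤ s ^ 3 * n := mul_nonneg s3.le hn
  nlinarith

private theorem BndB_lo {s a n k kB kM X1 X2 X3 XM r1 r2 r3 c : ℝ} (ha0 : 0 < a) (has : a ≤ s)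
    (hs1 : 300 * s ≤ 1) (hsa : 300 * s ^ 3 ≤ a ^ 2)
    (hn : 0 ≤ n) (hk : 0 ≤ k) (hkB : 0 ≤ kB) (hks : k ≤ s ^ 2 * n)
    (hr1 : r1 * (1 + 3 * s) = 1) (hr2 : r2 * (1 - 15 * s) = 1) (hr3 : r3 * (1 + a) = 1)
    (h1 : X1 ≤ r2 * r3 * k) (h2 : X2 ≤ (1 + 15 * s) * (1 + 3 * s) * k)
    (h3 : (1 - 15 * s) * r1 * kB ≤ X3)
    (hc : c = (1 + 12 * s ^ 3) * r3) (hM : XM ≤ c * kM)
    (hcl : k - s ^ 2 * (2 * (3 * s) + (3 * s) ^ 2) * n ≤ kB)
    (hcas : 2 * kM + 2 * k ≤ (1 - 2 * a ^ 2) * n) :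
    (1 + a) * n ≤ 2 * (n - X1 - X2 + X3 - XM) := by
  have hs0 : 0 < s := by linarith
  have hs2 : s ≤ 1 / 300 := by linarith
  have r1p : 0 < r1 := by
    by_contra h
    push Not at h
    nlinarith
  have r2p : 0 < r2 := by
    by_contra h
    push Not at h
    nlinarith
  have r3p : 0 < r3 := by
    by_contra h
    push Not at h
    nlinarith
  have r1l : 1 - 3 * s ≤ r1 := by nlinarith
  have r2u : r2 ≤ 1 + 16 * s := by nlinarith
  have r3u : r3 ≤ 1 := by nlinarith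
  have r3l : 1 - a ≤ r3 := by nlinarith
  have h12 : r2 * r3 ≤ 1 + 16 * s := by nlinarith
  have g1 : X1 ≤ (1 + 16 * s) * k := le_trans h1 (mul_le_mul_of_nonneg_right h12 hk)
  have g2 : X2 ≤ (1 + 182 / 10 * s) * k := by
    refine le_trans h2 (mul_le_mul_of_nonneg_right ?_ hk)
    nlinarith
  have s3 : 0 < s ^ 3 := by positivity
  have s3n : 0 ≤ s ^ 3 * n := mul_nonneg s3.le hn
  have g3 : (1 - 18 * s) * k - 603 / 100 * (s ^ 3 * n) ≤ X3 := by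
    have e1 : s ^ 2 * (2 * (3 * s) + (3 * s) ^ 2) * n ≤ 603 / 100 * s ^ 3 * n := by
      apply mul_le_mul_of_nonneg_right _ hn
      nlinarith
    have e0 : 1 - 18 * s ≤ (1 - 15 * s) * r1 := by nlinarith
    have e2 : (1 - 18 * s) * kB ≤ X3 := le_trans (mul_le_mul_of_nonneg_right e0 hkB) h3
    have e3 : (1 - 18 * s) * (k - 603 / 100 * s ^ 3 * n) ≤ (1 - 18 * s) * kB :=
      mul_le_mul_of_nonneg_left (by linarith) (by linarith)
    have e4 : (1 - 18 * s) * (603 / 100 * s ^ 3 * n) ≤ 603 / 100 * (s ^ 3 * n) := by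
      have : 0 ≤ s * (s ^ 3 * n) := by positivity
      nlinarith
    linarith
  have c0 : 0 ≤ c := by
    rw [hc]
    positivity
  have cl : 1 - a ≤ c := by
    rw [hc]
    nlinarith
  have gM : 2 * XM ≤ c * ((1 - 2 * a ^ 2) * n) - 2 * k + 2 * (s ^ 3 * n) := by
    have e1 := mul_le_mul_of_nonneg_left hcas c0
    have e2 : (1 - a) * k ≤ c * k := mul_le_mul_of_nonneg_right cl hk
    have e3 : a * k ≤ s ^ 3 * n := by
      have e4 : a * k ≤ s * k := mul_le_mul_of_nonneg_right has hk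
      have e5 := mul_le_mul_of_nonneg_left hks hs0.le
      linarith [e5, show s * (s ^ 2 * n) = s ^ 3 * n by ring]
    linarith
  have gk : s * k ≤ s ^ 3 * n := by
    have := mul_le_mul_of_nonneg_left hks hs0.le
    linarith [this, show s * (s ^ 2 * n) = s ^ 3 * n by ring]
  have key : c * (1 - 2 * a ^ 2) ≤ 1 - a - 120 * s ^ 3 := by
    have e0 : c * (1 + a) = 1 + 12 * s ^ 3 := by
      rw [hc, mul_assoc, hr3, mul_one]
    have e1 : (c * (1 - 2 * a ^ 2)) * (1 + a) ≤ (1 - a - 120 * s ^ 3) * (1 + a) := by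
      have e2 : (c * (1 - 2 * a ^ 2)) * (1 + a) = (1 + 12 * s ^ 3) * (1 - 2 * a ^ 2) := by
        rw [← e0]
        ring
      rw [e2]
      have e3 : 0 ≤ s ^ 3 * a ^ 2 := by positivity
      have e4 : s ^ 3 * a ≤ 1 / 300 * s ^ 3 := by nlinarith
      nlinarith
    exact le_of_mul_le_mul_right e1 (by linarith)
  have keyn := mul_le_mul_of_nonneg_right key hn
  nlinarith

theorem PhB_btw {N : q → Matrix p p ℝ} {S : q → Matrix q q ℝ} {M : r → Matrix p p ℝ}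
    {R : r → Matrix r r ℝ} {s a : ℝ} (h : Dat N S M R s a) {B : Matrix p p ℝ}
    {P : Matrix q q ℝ} {C : Matrix r r ℝ} (hB : Btw (1 + a) (1 + 3 * s) B)
    (hP : Btw (1 - 15 * s) (1 + 15 * s) P) (hC : Btw (1 - 12 * s ^ 3) (1 + 12 * s ^ 3) C) :
    Btw (1 + a) (1 + 3 * s) (PhB N M B P C) := by
  have ha0 := h.a0
  have has := h.as
  have hs1 := h.s1
  have hs0 : 0 < s := by linarith
  have hs2 : s ≤ 1 / 300 := by linarith
  have s3 : 0 < s ^ 3 := by positivity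
  have s3u : s ^ 3 ≤ 1 / 300 := by
    nlinarith [pow_pos hs0 2]
  have hR := hB.inv (by linarith) (by linarith)
  have hD := hP.inv (by linarith) (by linarith)
  have hR' : Btw (1 / (1 + 3 * s)) 1 B⁻¹ := ⟨hR.symm, hR.lo, fun x => (hR.up x).trans
    (mul_le_mul_of_nonneg_right (by rw [div_le_one (by linarith)]; linarith) (dot_self_nonneg x))⟩
  have hB' : Btw 1 (1 + 3 * s) B := ⟨hB.symm, fun x => (mul_le_mul_of_nonneg_right (by linarith)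
    (dot_self_nonneg x)).trans (hB.lo x), hB.up⟩
  have p1 : (0 : ℝ) ≤ 1 / (1 + 3 * s) := by positivity
  have p2 : (0 : ℝ) ≤ 1 / (1 + 15 * s) := by positivity
  have p3 : (0 : ℝ) ≤ 1 / (1 - 15 * s) := one_div_nonneg.2 (by linarith)
  have quad : ∀ y : p → ℝ, y ⬝ᵥ (PhB N M B P C *ᵥ y) =
      2 * (y ⬝ᵥ y - trace (P⁻¹ * (rw' N y * B⁻¹ * (rw' N y)ᵀ)) -
        trace (P * (rw' N y * B * (rw' N y)ᵀ)) +
        trace (P * (rw' N (B *ᵥ y) * B⁻¹ * (rw' N (B *ᵥ y))ᵀ)) -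
        trace (C * (rw' M y * B⁻¹ * (rw' M y)ᵀ))) := by
    intro y
    rw [← TT_quad N P⁻¹ hR.symm, ← TT_quad N P hB.symm, ← TT_quad N P hR.symm,
      ← TT_quad M C hR.symm]
    unfold PhB Phi1
    rw [Matrix.smul_mulVec, dotProduct_smul, smul_eq_mul, Matrix.sub_mulVec, Matrix.add_mulVec,
      Matrix.sub_mulVec, Matrix.sub_mulVec, Matrix.one_mulVec, dotProduct_sub,
      dotProduct_add, dotProduct_sub, dotProduct_sub, ← Matrix.mulVec_mulVec,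
      ← Matrix.mulVec_mulVec]
    congr 3
    rw [Matrix.dotProduct_mulVec, ← Matrix.mulVec_transpose, hB.symm.eq]
  have close : ∀ y : p → ℝ, |trace (rw' N (B *ᵥ y) * (rw' N (B *ᵥ y))ᵀ) -
      trace (rw' N y * (rw' N y)ᵀ)| ≤ s ^ 2 * (2 * (3 * s) + (3 * s) ^ 2) * (y ⬝ᵥ y) := by
    intro y
    have hsy : (1 : Matrix p p ℝ).IsSymm := Matrix.transpose_one
    have hsq : (1 : Matrix q q ℝ).IsSymm := Matrix.transpose_one
    have e : ∀ z : p → ℝ, z ⬝ᵥ (TT N 1 1 *ᵥ z) = trace (rw' N z * (rw' N z)ᵀ) := by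
      intro z
      rw [TT_quad N 1 hsy, Matrix.one_mul, Matrix.mul_one]
    have hB2 : Btw (1 - 3 * s) (1 + 3 * s) B := ⟨hB.symm, fun x =>
      (mul_le_mul_of_nonneg_right (by linarith) (dot_self_nonneg x)).trans (hB.lo x), hB.up⟩
    have := form_close (TT_symm N hsq hsy) (e := s ^ 2) (β := 3 * s) (by linarith)
      (fun x => by rw [e]; exact trace_self_nonneg _) (fun x => by rw [e]; exact h.casN x) hB2 y
    rwa [e, e] at this
  refine ⟨?_, fun y => ?_, fun y => ?_⟩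
  · unfold PhB Phi1 Matrix.IsSymm
    rw [Matrix.transpose_smul, Matrix.transpose_sub, Matrix.transpose_add, Matrix.transpose_sub,
      Matrix.transpose_sub, Matrix.transpose_one,
      (TT_symm N hD.symm hR.symm).eq, (TT_symm N hP.symm hB.symm).eq, Matrix.transpose_mul,
      Matrix.transpose_mul, (TT_symm N hP.symm hR.symm).eq, (TT_symm M hC.symm hR.symm).eq,
      hB.symm.eq, Matrix.mul_assoc]
  · rw [quad]
    have t1 := (trace_quad p2 p3 p1 hD hR (rw' N y)).2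
    have t2 := (trace_quad (by linarith) (by linarith) (by linarith) hP hB (rw' N y)).2
    have t3 := (trace_quad (by linarith) (by linarith) p1 hP hR (rw' N (B *ᵥ y))).1
    have t4 := (trace_quad (by linarith) (by linarith) p1 hC hR (rw' M y)).2
    refine BndB_lo (c := (1 + 12 * s ^ 3) * (1 / (1 + a))) ha0 has hs1 h.sa (dot_self_nonneg y)
      (trace_self_nonneg (rw' N y)) (trace_self_nonneg (rw' N (B *ᵥ y))) (h.casN y)
      (by field_simp) (one_div_mul_cancel (by linarith)) (by field_simp) t1 t2 t3 rfl t4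
      ?_ (h.casM' y)
    have := (abs_le.1 (close y)).1
    linarith
  · rw [quad]
    have t1 := (trace_quad p2 p3 p1 hD hR (rw' N y)).1
    have t2 := (trace_quad (by linarith) (by linarith) (by linarith) hP hB' (rw' N y)).1
    have t3 := (trace_quad (by linarith) (by linarith) p1 hP hR' (rw' N (B *ᵥ y))).2
    have t4 := (trace_quad (by linarith) (by linarith) p1 hC hR (rw' M y)).1
    refine BndB_up (c := (1 - 12 * s ^ 3) * (1 / (1 + 3 * s))) hs0 hs1 (dot_self_nonneg y)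
      (trace_self_nonneg (rw' N y)) (trace_self_nonneg (rw' N (B *ᵥ y))) (h.casN y)
      (by field_simp) (by field_simp) t1 t2 t3 rfl t4
      ?_ (h.casM y)
    have := (abs_le.1 (close y)).2
    linarith

end Pool.Agent.EinT
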