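import Pool.Agent.EinT.Close

/-!
# The bounds for `PhP` and `PhC`

`PhP = 2 Phi2`; for `x : q → ℝ`, `n2 = |x|²`, `Nx = tr (lc N x (lc N x)ᵀ) ∈ [(1 - s²) n2, n2]`,
`Sx = tr (lc S x (lc S x)ᵀ) ≤ n2 - Nx ≤ s² n2` (see `Phi2_btw` in `EinS/Phi.lean` for the expansion):
`xᵀ PhP x = tr (B⁻¹ (lc N x B⁻¹ (lc N x)ᵀ)) + tr (P (lc S x P (lc S x)ᵀ))
  + 2 [ |Px|² - tr (B⁻¹ (lc N (Px) B (lc N (Px))ᵀ)) - tr (P (lc S (Px) P⁻¹ (lc S (Px))ᵀ)) ]`.
Let `m2 = |Px|² ≤ (1 + 15 s)² n2 ≤ 1.11 n2`.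
Upper: `≤ n2 + (1 + 15 s)² s² n2 + 2 [m2 - ((1 + a)/(1 + 3 s)) (1 - s²) m2] ≤ n2 + 1.11 s² n2 + 2 (3 s + s²) m2
  ≤ (1 + 15 s) n2`.
Lower: `≥ Nx/(1 + 3 s)² + 2 [m2 - ((1 + 3 s)/(1 + a)) N(Px) - ((1 + 15 s)/(1 - 15 s)) S(Px)]`, and with
`ρ = (1 + 15 s)/(1 - 15 s) ≤ 1.106`, `S(Px) ≤ m2 - N(Px)`, `N(Px) ≥ (1 - s²) m2`, `(1 + 3 s)/(1 + a) ≤ 1 + 3 s`:
`[..] ≥ m2 (1 - ρ) + N(Px) (ρ - 1 - 3 s)`; if `ρ ≥ 1 + 3 s` (true) this is `≥ m2 [1 - ρ + (1 - s²)(ρ - 1 - 3 s)]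
  = m2 [-3 s - s² (ρ - 1 - 3 s)] ≥ -(3 s + 0.2 s²) m2`.
Total `≥ (1 - s²)(1 - 6 s) n2 - 2 (3 s + 0.2 s²)(1.11) n2 ≥ (1 - 15 s) n2`.

`PhC`: `xᵀ PhC x = xᵀ UU R 1 1 x + tr (B⁻¹ (lc M (Cx) B⁻¹ (lc M (Cx))ᵀ))`, `xᵀ UU R 1 1 x = |x|² - κ(x)` (`trR`),
`κ(x) = xᵀ (UU M 1 1) x = tr (lc M x (lc M x)ᵀ) ≤ s² |x|²`; `form_close` with `K = UU M 1 1`, `e = s²`, `β = 12 s³`:
`|κ(Cx) - κ(x)| ≤ s² (24 s³ + 144 s⁶) |x|² ≤ 25 s⁵ |x|²`.
Upper: `≤ |x|² - κ(x) + κ(Cx) ≤ (1 + 12 s³) |x|²`.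
Lower: `≥ |x|² - κ(x) + κ(Cx)/(1 + 3 s)² ≥ |x|² - κ(x) (1 - 1/(1 + 3 s)²) - 25 s⁵ |x|² ≥ |x|² - 6 s³ |x|² - 25 s⁵ |x|²`.
-/

namespace Pool.Agent.EinT

open Matrix Pool.Agent.EinS

variable {q p r : Type*} [Fintype q] [DecidableEq q] [Fintype p] [DecidableEq p] [Fintype r]
  [DecidableEq r]

private theorem BndPC_up {s n m Nx Sx Np t1 t4 X2 X3 r : ℝ} (hs0 : 0 < s) (hs1 : 300 * s ≤ 1)
    (hn : 0 ≤ n) (hr : r * (1 + 3 * s) = 1) (hm0 : 0 ≤ m) (hm : m ≤ (1 + 15 * s) ^ 2 * n)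
    (hNu : Nx ≤ n) (hNl : (1 - s ^ 2) * n ≤ Nx) (hS : Sx ≤ n - Nx)
    (hNp : (1 - s ^ 2) * m ≤ Np) (h1 : t1 ≤ 1 * 1 * Nx)
    (h4 : t4 ≤ (1 + 15 * s) * (1 + 15 * s) * Sx) (h2 : r * 1 * Np ≤ X2) (h3 : 0 ≤ X3) :
    t1 + 2 * (m - X2 - X3) + t4 ≤ (1 + 15 * s) * n := by
  have hs2 : s ≤ 1 / 300 := by linarith
  have rp : 0 < r := by
    by_contra h
    push Not at h
    nlinarith
  have rl : 1 - 3 * s ≤ r := by nlinarith
  have q1 : (1 + 15 * s) ^ 2 ≤ 111 / 100 := by nlinarith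
  have hm' : m ≤ 111 / 100 * n := hm.trans (mul_le_mul_of_nonneg_right q1 hn)
  have e1 : (1 - 3 * s) * (1 - s ^ 2) * m ≤ X2 := by
    have a0 : 0 ≤ (1 - s ^ 2) * m := mul_nonneg (by nlinarith) hm0
    have a1 := mul_le_mul_of_nonneg_right rl a0
    have a2 := mul_le_mul_of_nonneg_left hNp rp.le
    linarith
  have e2 : 1 - 31 / 10 * s ≤ (1 - 3 * s) * (1 - s ^ 2) := by
    nlinarith [mul_pos hs0 hs0, mul_pos (mul_pos hs0 hs0) hs0]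
  have e3 : (1 - 31 / 10 * s) * m ≤ X2 := (mul_le_mul_of_nonneg_right e2 hm0).trans e1
  have e4 : t4 ≤ 111 / 100 * (n - Nx) := by
    have b1 : (1 + 15 * s) * (1 + 15 * s) * Sx ≤ (1 + 15 * s) * (1 + 15 * s) * (n - Nx) :=
      mul_le_mul_of_nonneg_left hS (by positivity)
    have b2 := mul_le_mul_of_nonneg_right q1 (sub_nonneg.2 hNu)
    linarith
  have e5 : n - Nx ≤ s ^ 2 * n := by linarith
  have e6 : s ^ 2 * n ≤ s * n := mul_le_mul_of_nonneg_right (by nlinarith) hn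
  have e7 : s * m ≤ 111 / 100 * (s * n) := by
    have := mul_le_mul_of_nonneg_left hm' hs0.le
    linarith
  have e8 : 0 ≤ s * n := mul_nonneg hs0.le hn
  linarith

private theorem BndPC_lo {s n m Nx Np Sp t1 t4 X2 X3 r r5 : ℝ} (hs0 : 0 < s)
    (hs1 : 300 * s ≤ 1) (hn : 0 ≤ n) (hr : r * (1 + 3 * s) = 1) (hr5 : r5 * (1 - 15 * s) = 1)
    (hm0 : 0 ≤ m) (hm : m ≤ (1 + 15 * s) ^ 2 * n) (hNl : (1 - s ^ 2) * n ≤ Nx)
    (hNp : (1 - s ^ 2) * m ≤ Np) (hNpu : Np ≤ m) (hSp : Sp ≤ m - Np) (h1 : r * r * Nx ≤ t1)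
    (h4 : 0 ≤ t4) (h2 : X2 ≤ 1 * (1 + 3 * s) * Np) (h3 : X3 ≤ (1 + 15 * s) * r5 * Sp) :
    (1 - 15 * s) * n ≤ t1 + 2 * (m - X2 - X3) + t4 := by
  have hs2 : s ≤ 1 / 300 := by linarith
  have rp : 0 < r := by
    by_contra h
    push Not at h
    nlinarith
  have rl : 1 - 3 * s ≤ r := by nlinarith
  have r5p : 0 < r5 := by
    by_contra h
    push Not at h
    nlinarith
  have r5u : r5 ≤ 106 / 100 := by nlinarith
  have q1 : (1 + 15 * s) ^ 2 ≤ 111 / 100 := by nlinarith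
  have q2 : (1 + 15 * s) * r5 ≤ 2 := by nlinarith
  have hm' : m ≤ 111 / 100 * n := hm.trans (mul_le_mul_of_nonneg_right q1 hn)
  have e3 : X3 ≤ 2 * (m - Np) := by
    have b1 := mul_le_mul_of_nonneg_left hSp (mul_nonneg (show (0 : ℝ) ≤ 1 + 15 * s by linarith)
      r5p.le)
    have b2 := mul_le_mul_of_nonneg_right q2 (sub_nonneg.2 hNpu)
    linarith
  have e2 : X2 ≤ Np + 3 * (s * m) := by
    have := mul_le_mul_of_nonneg_left hNpu hs0.le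
    linarith
  have e5 : m - Np ≤ s ^ 2 * m := by linarith
  have e6 : s ^ 2 * m ≤ 1 / 300 * (s * m) := by
    have : s ^ 2 * m ≤ (1 / 300 * s) * m := mul_le_mul_of_nonneg_right (by nlinarith) hm0
    linarith
  have e7 : s * m ≤ 111 / 100 * (s * n) := by
    have := mul_le_mul_of_nonneg_left hm' hs0.le
    linarith
  have e8 : 0 ≤ s * n := mul_nonneg hs0.le hn
  have e9 : (1 - 7 * s) * n ≤ t1 := by
    have a0 : 1 - 6 * s ≤ r * r := by nlinarith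
    have a1 : 0 ≤ (1 - s ^ 2) * n := mul_nonneg (by nlinarith) hn
    have a2 := mul_le_mul_of_nonneg_left hNl (mul_nonneg rp.le rp.le)
    have a3 := mul_le_mul_of_nonneg_right a0 a1
    have a4 : 1 - 7 * s ≤ (1 - 6 * s) * (1 - s ^ 2) := by
      nlinarith [mul_pos hs0 hs0, mul_pos (mul_pos hs0 hs0) hs0]
    have a5 := mul_le_mul_of_nonneg_right a4 hn
    linarith
  have e10 : 0 ≤ s * m := mul_nonneg hs0.le hm0
  linarith

theorem PhP_btw {N : q → Matrix p p ℝ} {S : q → Matrix q q ℝ} {M : r → Matrix p p ℝ}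
    {R : r → Matrix r r ℝ} {s a : ℝ} (h : Dat N S M R s a) {B : Matrix p p ℝ}
    {P : Matrix q q ℝ} (hB : Btw (1 + a) (1 + 3 * s) B)
    (hP : Btw (1 - 15 * s) (1 + 15 * s) P) :
    Btw (1 - 15 * s) (1 + 15 * s) (PhP N S B P) := by
  have ha0 := h.a0
  have has := h.as
  have hs1 := h.s1
  have hs0 : 0 < s := by linarith
  have hs2 : s ≤ 1 / 300 := by linarith
  have hR := hB.inv (by linarith) (by linarith)
  have hD := hP.inv (by linarith) (by linarith)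
  have hR' : Btw (1 / (1 + 3 * s)) 1 B⁻¹ := ⟨hR.symm, hR.lo, fun x => (hR.up x).trans
    (mul_le_mul_of_nonneg_right (by rw [div_le_one (by linarith)]; linarith) (dot_self_nonneg x))⟩
  have hB' : Btw 1 (1 + 3 * s) B := ⟨hB.symm, fun x => (mul_le_mul_of_nonneg_right (by linarith)
    (dot_self_nonneg x)).trans (hB.lo x), hB.up⟩
  have p1 : (0 : ℝ) ≤ 1 / (1 + 3 * s) := by positivity
  have p2 : (0 : ℝ) ≤ 1 / (1 + 15 * s) := by positivity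
  have p3 : (0 : ℝ) ≤ 1 / (1 - 15 * s) := one_div_nonneg.2 (by linarith)
  have quad : ∀ x : q → ℝ, x ⬝ᵥ (PhP N S B P *ᵥ x) =
      trace (B⁻¹ * (lc N x * B⁻¹ * (lc N x)ᵀ)) +
        2 * ((P *ᵥ x) ⬝ᵥ (P *ᵥ x) - trace (B⁻¹ * (lc N (P *ᵥ x) * B * (lc N (P *ᵥ x))ᵀ)) -
          trace (P * (lc S (P *ᵥ x) * P⁻¹ * (lc S (P *ᵥ x))ᵀ))) +
        trace (P * (lc S x * P * (lc S x)ᵀ)) := by
    intro x
    have e0 : x ⬝ᵥ (Phi2 N S B P *ᵥ x) =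
      1 / 2 * trace (B⁻¹ * (lc N x * B⁻¹ * (lc N x)ᵀ)) +
        ((P *ᵥ x) ⬝ᵥ (P *ᵥ x) - trace (B⁻¹ * (lc N (P *ᵥ x) * B * (lc N (P *ᵥ x))ᵀ)) -
          trace (P * (lc S (P *ᵥ x) * P⁻¹ * (lc S (P *ᵥ x))ᵀ))) +
        1 / 2 * trace (P * (lc S x * P * (lc S x)ᵀ)) := by
      rw [← UU_quad, ← UU_quad, ← UU_quad, ← UU_quad]
      unfold Phi2
      rw [Matrix.add_mulVec, Matrix.add_mulVec, dotProduct_add, dotProduct_add,
        Matrix.smul_mulVec, Matrix.smul_mulVec, dotProduct_smul, dotProduct_smul, smul_eq_mul,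
        smul_eq_mul]
      congr 2
      rw [← Matrix.mulVec_mulVec, ← Matrix.mulVec_mulVec, Matrix.dotProduct_mulVec,
        ← Matrix.mulVec_transpose, hP.symm.eq, Matrix.sub_mulVec, Matrix.sub_mulVec,
        Matrix.one_mulVec, dotProduct_sub, dotProduct_sub]
    unfold PhP
    rw [Matrix.smul_mulVec, dotProduct_smul, smul_eq_mul, e0]
    ring
  refine ⟨?_, fun x => ?_, fun x => ?_⟩
  · unfold PhP Phi2 Matrix.IsSymm
    rw [Matrix.transpose_smul, Matrix.transpose_add, Matrix.transpose_add, Matrix.transpose_smul,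
      Matrix.transpose_smul, (UU_symm N hR.symm hR.symm).eq, (UU_symm S hP.symm hP.symm).eq,
      Matrix.transpose_mul, Matrix.transpose_mul, Matrix.transpose_sub, Matrix.transpose_sub,
      Matrix.transpose_one, (UU_symm N hB.symm hR.symm).eq, (UU_symm S hD.symm hP.symm).eq,
      hP.symm.eq, Matrix.mul_assoc]
  · rw [quad]
    have t1 := (trace_quad p1 (by linarith) p1 hR' hR' (lc N x)).1
    have t2 := (trace_quad p1 (by linarith) (by linarith) hR' hB' (lc N (P *ᵥ x))).2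
    have t3 := (trace_quad (by linarith) (by linarith) p2 hP hD (lc S (P *ᵥ x))).2
    have t4 := (trace_quad (by linarith) (by linarith) (by linarith) hP hP (lc S x)).1
    exact BndPC_lo hs0 hs1 (dot_self_nonneg x) (one_div_mul_cancel (by linarith))
      (one_div_mul_cancel (by linarith)) (dot_self_nonneg (P *ᵥ x))
      (hP.norm_le (by linarith) (by linarith) x) (h.lo x) (h.lo (P *ᵥ x)) (h.up (P *ᵥ x))
      (h.str (P *ᵥ x)) t1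
      (le_trans (mul_nonneg (mul_nonneg (by linarith) (by linarith))
        (trace_self_nonneg (lc S x))) t4) t2 t3
  · rw [quad]
    have t1 := (trace_quad p1 (by linarith) p1 hR' hR' (lc N x)).2
    have t2 := (trace_quad p1 (by linarith) (by linarith) hR' hB' (lc N (P *ᵥ x))).1
    have t3 := (trace_quad (by linarith) (by linarith) p2 hP hD (lc S (P *ᵥ x))).1
    have t4 := (trace_quad (by linarith) (by linarith) (by linarith) hP hP (lc S x)).2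
    exact BndPC_up hs0 hs1 (dot_self_nonneg x) (one_div_mul_cancel (by linarith))
      (dot_self_nonneg (P *ᵥ x)) (hP.norm_le (by linarith) (by linarith) x) (h.up x) (h.lo x)
      (h.str x) (h.lo (P *ᵥ x)) t1 t4 t2
      (le_trans (mul_nonneg (mul_nonneg (by linarith) p2)
        (trace_self_nonneg (lc S (P *ᵥ x)))) t3)

private theorem BndPC_c {s n k kC T r : ℝ} (hs0 : 0 < s) (hs1 : 300 * s ≤ 1) (hn : 0 ≤ n)
    (hr : r * (1 + 3 * s) = 1) (hk : k ≤ s ^ 2 * n) (hkC : 0 ≤ kC)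
    (hcl : |kC - k| ≤ s ^ 2 * (2 * (12 * s ^ 3) + (12 * s ^ 3) ^ 2) * n)
    (h1 : r * r * kC ≤ T) (h2 : T ≤ 1 * 1 * kC) :
    (1 - 12 * s ^ 3) * n ≤ n - k + T ∧ n - k + T ≤ (1 + 12 * s ^ 3) * n := by
  have hs2 : s ≤ 1 / 300 := by linarith
  have s3 : 0 < s ^ 3 := by positivity
  have s2 : s ^ 2 ≤ 1 / 90000 := by nlinarith
  have s3u : s ^ 3 ≤ 1 / 300 := by nlinarith [pow_pos hs0 2]
  have rp : 0 < r := by
    by_contra h
    push Not at h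
    nlinarith
  have rl : 1 - 3 * s ≤ r := by nlinarith
  have s3n : 0 ≤ s ^ 3 * n := mul_nonneg s3.le hn
  have e0 : s ^ 2 * (2 * (12 * s ^ 3) + (12 * s ^ 3) ^ 2) * n ≤ s ^ 3 * n := by
    apply mul_le_mul_of_nonneg_right _ hn
    have a1 : s ^ 2 * (2 * (12 * s ^ 3) + (12 * s ^ 3) ^ 2) =
        (s ^ 2 * (24 + 144 * s ^ 3)) * s ^ 3 := by ring
    rw [a1]
    have a2 : s ^ 2 * (24 + 144 * s ^ 3) ≤ 1 := by nlinarith [pow_pos hs0 2]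
    nlinarith
  obtain ⟨c1, c2⟩ := abs_le.1 hcl
  constructor
  · have a0 : 1 - 6 * s ≤ r * r := by nlinarith
    have a1 := (mul_le_mul_of_nonneg_right a0 hkC).trans h1
    have a2 : s * kC ≤ s * (s ^ 2 * n + s ^ 3 * n) :=
      mul_le_mul_of_nonneg_left (by linarith) hs0.le
    have a3 : s * (s ^ 3 * n) ≤ 1 / 300 * (s ^ 3 * n) := mul_le_mul_of_nonneg_right hs2 s3n
    have a4 : s * (s ^ 2 * n) = s ^ 3 * n := by ring
    linarith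
  · linarith

theorem PhC_btw {N : q → Matrix p p ℝ} {S : q → Matrix q q ℝ} {M : r → Matrix p p ℝ}
    {R : r → Matrix r r ℝ} {s a : ℝ} (h : Dat N S M R s a) {B : Matrix p p ℝ}
    {C : Matrix r r ℝ} (hB : Btw (1 + a) (1 + 3 * s) B)
    (hC : Btw (1 - 12 * s ^ 3) (1 + 12 * s ^ 3) C) :
    Btw (1 - 12 * s ^ 3) (1 + 12 * s ^ 3) (PhC M R B C) := by
  have ha0 := h.a0
  have has := h.as
  have hs1 := h.s1
  have hs0 : 0 < s := by linarith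
  have hs2 : s ≤ 1 / 300 := by linarith
  have s3 : 0 < s ^ 3 := by positivity
  have hR := hB.inv (by linarith) (by linarith)
  have hR' : Btw (1 / (1 + 3 * s)) 1 B⁻¹ := ⟨hR.symm, hR.lo, fun x => (hR.up x).trans
    (mul_le_mul_of_nonneg_right (by rw [div_le_one (by linarith)]; linarith) (dot_self_nonneg x))⟩
  have p1 : (0 : ℝ) ≤ 1 / (1 + 3 * s) := by positivity
  have hp : (1 : Matrix p p ℝ).IsSymm := Matrix.transpose_one
  have hr : (1 : Matrix r r ℝ).IsSymm := Matrix.transpose_one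
  have eM : ∀ x : r → ℝ, x ⬝ᵥ (UU M 1 1 *ᵥ x) = trace (lc M x * (lc M x)ᵀ) := by
    intro x
    rw [UU_quad, Matrix.one_mul, Matrix.mul_one]
  have eR : ∀ x : r → ℝ, x ⬝ᵥ (UU R 1 1 *ᵥ x) = x ⬝ᵥ x - trace (lc M x * (lc M x)ᵀ) := by
    intro x
    rw [← eM, eq_sub_iff_add_eq, ← dotProduct_add, ← Matrix.add_mulVec, h.trR, Matrix.one_mulVec]
  have quad : ∀ x : r → ℝ, x ⬝ᵥ (PhC M R B C *ᵥ x) =
      x ⬝ᵥ x - trace (lc M x * (lc M x)ᵀ) +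
        trace (B⁻¹ * (lc M (C *ᵥ x) * B⁻¹ * (lc M (C *ᵥ x))ᵀ)) := by
    intro x
    rw [← UU_quad, ← eR]
    unfold PhC
    rw [Matrix.add_mulVec, dotProduct_add, ← Matrix.mulVec_mulVec, ← Matrix.mulVec_mulVec]
    congr 1
    rw [Matrix.dotProduct_mulVec, ← Matrix.mulVec_transpose, hC.symm.eq]
  have main : ∀ x : r → ℝ, (1 - 12 * s ^ 3) * (x ⬝ᵥ x) ≤ x ⬝ᵥ (PhC M R B C *ᵥ x) ∧
      x ⬝ᵥ (PhC M R B C *ᵥ x) ≤ (1 + 12 * s ^ 3) * (x ⬝ᵥ x) := by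
    intro x
    rw [quad]
    have cl := form_close (UU_symm M hp hp) (e := s ^ 2) (β := 12 * s ^ 3) (by positivity)
      (fun x => by rw [eM]; exact trace_self_nonneg _) (fun x => by rw [eM]; exact h.idx x) hC x
    rw [eM, eM] at cl
    have t := trace_quad p1 (by linarith) p1 hR' hR' (lc M (C *ᵥ x))
    exact BndPC_c hs0 hs1 (dot_self_nonneg x) (one_div_mul_cancel (by linarith)) (h.idx x)
      (trace_self_nonneg _) cl t.1 t.2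
  refine ⟨?_, fun x => (main x).1, fun x => (main x).2⟩
  unfold PhC Matrix.IsSymm
  rw [Matrix.transpose_add, (UU_symm R hr hr).eq, Matrix.transpose_mul, Matrix.transpose_mul,
    (UU_symm M hR.symm hR.symm).eq, hC.symm.eq, Matrix.mul_assoc]

end Pool.Agent.EinT
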