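import Pool.Agent.EinT.Base

/-!
# Quadratic forms and matrices close to the identity

`norm_le2`: for `a ≤ B ≤ b`: `(B - a)(b - B) ≥ 0`, i.e. `|B y|² ≤ (a + b) yᵀ B y - a b |y|²`.  Proof: `X = B - a` is
symmetric, `0 ≤ X ≤ b - a`, and `|X y|² ≤ (b - a) yᵀ X y` (Cauchy-Schwarz for the form `X`, as in `Btw.norm_le` /
`Btw.inv`; or factor `X = Yᵀ Y` by `exists_factor`: `|Yᵀ Y y|² ≤ (b - a) |Y y|²`, where
`|Yᵀ z|⁴ = ⟨z, Y Yᵀ z⟩² ≤ |z|² |Y Yᵀ z|² = |z|² (Yᵀ z)ᵀ X (Yᵀ z) ≤ (b - a) |z|² |Yᵀ z|²`).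

`form_close`: `D = B - 1`, `|D y|² ≤ β² |y|²` by `norm_le2` with `a = 1 - β`, `b = 1 + β` (`a + b = 2`, `1 - a b = β²`);
`K(By, By) - K(y, y) = 2 K(y, Dy) + K(Dy, Dy)`, and `0 ≤ K(β y ∓ Dy, β y ∓ Dy)` gives
`2 β |K(y, Dy)| ≤ β² K(y, y) + K(Dy, Dy) ≤ 2 β² e |y|²`.  (If `β = 0` then `Dy = 0`.)
-/

namespace Pool.Agent.EinT

open Matrix Pool.Agent.EinS

variable {m : Type*} [Fintype m] [DecidableEq m]

private theorem close_norm {b : ℝ} {A : Matrix m m ℝ} (hA : Btw 0 b A) (hb : 0 ≤ b) (x : m → ℝ) :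
    (A *ᵥ x) ⬝ᵥ (A *ᵥ x) ≤ b * (x ⬝ᵥ (A *ᵥ x)) := by
  obtain ⟨Y, hY⟩ := exists_factor hA.symm (fun x => by
    have := hA.lo x
    linarith)
  have hform : ∀ u v : m → ℝ, u ⬝ᵥ (A *ᵥ v) = (Y *ᵥ u) ⬝ᵥ (Y *ᵥ v) := by
    intro u v
    rw [hY, ← Matrix.mulVec_mulVec, Matrix.dotProduct_mulVec, ← Matrix.mulVec_transpose,
      Matrix.transpose_transpose]
  have cs : ∀ u v : m → ℝ, (u ⬝ᵥ v) ^ 2 ≤ (u ⬝ᵥ u) * (v ⬝ᵥ v) := by
    intro u v
    have := Finset.sum_mul_sq_le_sq_mul_sq Finset.univ u v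
    unfold dotProduct
    simpa only [pow_two] using this
  have h1 := cs (Y *ᵥ (A *ᵥ x)) (Y *ᵥ x)
  rw [← hform, ← hform, ← hform] at h1
  have h2 := hA.up (A *ᵥ x)
  have h5 := dot_self_nonneg (A *ᵥ x)
  have h7 : 0 ≤ x ⬝ᵥ (A *ᵥ x) := by
    have := hA.lo x
    linarith
  set u := (A *ᵥ x) ⬝ᵥ (A *ᵥ x) with hu
  set t := x ⬝ᵥ (A *ᵥ x) with ht
  have h8 : u ^ 2 ≤ b * u * t := le_trans h1 (mul_le_mul_of_nonneg_right h2 h7)
  rcases h5.eq_or_lt with h | h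
  · rw [← h]; positivity
  · have : u * u ≤ u * (b * t) := by nlinarith
    exact le_of_mul_le_mul_left this h

private theorem close_shift {a b c : ℝ} {A : Matrix m m ℝ} (hA : Btw a b A) :
    Btw (a - c) (b - c) (A - c • 1) := by
  refine ⟨?_, fun x => ?_, fun x => ?_⟩
  · unfold Matrix.IsSymm
    rw [Matrix.transpose_sub, Matrix.transpose_smul, Matrix.transpose_one, hA.symm.eq]
  · rw [Matrix.sub_mulVec, dotProduct_sub, Matrix.smul_mulVec, Matrix.one_mulVec,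
      dotProduct_smul, smul_eq_mul]
    have := hA.lo x
    linarith
  · rw [Matrix.sub_mulVec, dotProduct_sub, Matrix.smul_mulVec, Matrix.one_mulVec,
      dotProduct_smul, smul_eq_mul]
    have := hA.up x
    linarith

theorem norm_le2 {a b : ℝ} {B : Matrix m m ℝ} (hB : Btw a b B) (y : m → ℝ) :
    (B *ᵥ y) ⬝ᵥ (B *ᵥ y) ≤ (a + b) * (y ⬝ᵥ (B *ᵥ y)) - a * b * (y ⬝ᵥ y) := by
  have hA : Btw 0 (b - a) (B - a • 1) := by
    have := close_shift (c := a) hB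
    rwa [sub_self] at this
  rcases le_or_gt 0 (b - a) with hb | hb
  · have h1 := close_norm hA hb y
    rw [Matrix.sub_mulVec, Matrix.smul_mulVec, Matrix.one_mulVec, sub_dotProduct, dotProduct_sub,
      dotProduct_sub, dotProduct_sub, smul_dotProduct, smul_dotProduct, dotProduct_smul,
      dotProduct_smul, dotProduct_comm (B *ᵥ y) y] at h1
    simp only [smul_eq_mul] at h1
    nlinarith
  · have h1 := hB.lo y
    have h2 := hB.up y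
    have h3 := dot_self_nonneg y
    have h4 : y ⬝ᵥ y = 0 := by
      rcases h3.eq_or_lt with h | h
      · exact h.symm
      · exfalso
        have : a * (y ⬝ᵥ y) ≤ b * (y ⬝ᵥ y) := le_trans h1 h2
        have := le_of_mul_le_mul_right this h
        linarith
    have h5 := dot_self_eq_zero h4
    subst h5
    simp

theorem form_close {K : Matrix m m ℝ} (hK : K.IsSymm) {e β : ℝ} (hβ : 0 ≤ β)
    (h0 : ∀ x : m → ℝ, 0 ≤ x ⬝ᵥ (K *ᵥ x)) (h1 : ∀ x : m → ℝ, x ⬝ᵥ (K *ᵥ x) ≤ e * (x ⬝ᵥ x))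
    {B : Matrix m m ℝ} (hB : Btw (1 - β) (1 + β) B) (y : m → ℝ) :
    |(B *ᵥ y) ⬝ᵥ (K *ᵥ (B *ᵥ y)) - y ⬝ᵥ (K *ᵥ y)| ≤ e * (2 * β + β ^ 2) * (y ⬝ᵥ y) := by
  have hsym : ∀ u v : m → ℝ, u ⬝ᵥ (K *ᵥ v) = v ⬝ᵥ (K *ᵥ u) := by
    intro u v
    rw [Matrix.dotProduct_mulVec, ← Matrix.mulVec_transpose, hK.eq, dotProduct_comm]
  obtain ⟨d, hd⟩ : ∃ d : m → ℝ, d = B *ᵥ y - y := ⟨_, rfl⟩
  have hBy : B *ᵥ y = y + d := by rw [hd]; abel
  -- norm of d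
  have hdd : d ⬝ᵥ d ≤ β ^ 2 * (y ⬝ᵥ y) := by
    have h2 := norm_le2 hB y
    rw [hBy] at h2
    rw [add_dotProduct, dotProduct_add, dotProduct_add, dotProduct_comm d y] at h2
    nlinarith
  have hyy := dot_self_nonneg y
  have hdd0 := dot_self_nonneg d
  have hKy0 := h0 y
  have hKy1 := h1 y
  have hKd0 := h0 d
  have hKd1 := h1 d
  have hexp : (B *ᵥ y) ⬝ᵥ (K *ᵥ (B *ᵥ y)) - y ⬝ᵥ (K *ᵥ y) =
      2 * (y ⬝ᵥ (K *ᵥ d)) + d ⬝ᵥ (K *ᵥ d) := by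
    rw [hBy, Matrix.mulVec_add, add_dotProduct, dotProduct_add, dotProduct_add, hsym d y]
    ring
  rw [hexp]
  have hcs : ∀ c : ℝ, 0 ≤ c ^ 2 * (y ⬝ᵥ (K *ᵥ y)) + 2 * c * (y ⬝ᵥ (K *ᵥ d)) + d ⬝ᵥ (K *ᵥ d) := by
    intro c
    have h2 := h0 (c • y + d)
    rw [Matrix.mulVec_add, Matrix.mulVec_smul, add_dotProduct, dotProduct_add, dotProduct_add,
      smul_dotProduct, smul_dotProduct, dotProduct_smul, dotProduct_smul, hsym d y] at h2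
    simp only [smul_eq_mul] at h2
    nlinarith
  rcases hyy.eq_or_lt with hy | hy
  · have hd0 : d ⬝ᵥ d = 0 := by
      rw [← hy] at hdd
      linarith
    have h5 := dot_self_eq_zero hd0
    rw [← hy, h5]
    simp
  · have he : 0 ≤ e := by
      by_contra hne
      push Not at hne
      have := mul_neg_of_neg_of_pos hne hy
      linarith
    have hKd2 : d ⬝ᵥ (K *ᵥ d) ≤ e * (β ^ 2 * (y ⬝ᵥ y)) :=
      le_trans hKd1 (mul_le_mul_of_nonneg_left hdd he)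
    have hcp := hcs β
    have hcm := hcs (-β)
    have hz : β ^ 2 * (y ⬝ᵥ (K *ᵥ y)) ≤ β ^ 2 * (e * (y ⬝ᵥ y)) :=
      mul_le_mul_of_nonneg_left hKy1 (sq_nonneg β)
    have hk : |y ⬝ᵥ (K *ᵥ d)| ≤ β * (e * (y ⬝ᵥ y)) := by
      rcases hβ.eq_or_lt with hb | hb
      · have hd0 : d ⬝ᵥ d = 0 := by
          rw [← hb] at hdd
          linarith
        have h5 := dot_self_eq_zero hd0
        rw [← hb, h5]
        simp
      · have h6 : β * |y ⬝ᵥ (K *ᵥ d)| ≤ β * (β * (e * (y ⬝ᵥ y))) := by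
          rw [← abs_of_nonneg hβ, ← abs_mul, abs_of_nonneg hβ, abs_le]
          constructor <;> nlinarith
        exact le_of_mul_le_mul_left h6 hb
    rw [abs_le] at hk ⊢
    obtain ⟨hk1, hk2⟩ := hk
    have hey : 0 ≤ e * (y ⬝ᵥ y) := mul_nonneg he hyy
    have hbey : 0 ≤ β ^ 2 * (e * (y ⬝ᵥ y)) := mul_nonneg (sq_nonneg β) hey
    constructor
    · linarith
    · linarith

end Pool.Agent.EinT
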