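import Pool.Agent.EinT.Base

/-!
# Commutation with `l`

`M` is one of the families `M`, `R` of `Dat`: `(M z)ᵀ = - M z`, `M x M y - M y M x = - ∑ w, R x y w • M w`, and
`R y x z = - R x y z`, `(R z)ᵀ = - R z` (so `R` is totally antisymmetric).

`comm_TT` (`C` commutes with all `R z`, `E` with all `M z`): `TT M C E = ∑ x y, C x y • M x E (M y)ᵀ
 = - (∑ x y, C x y • M x M y) E`, and `[M z, ∑ C x y M x M y] = ∑ C x y ([M z, M x] M y + M x [M z, M y])
 = - ∑ C x y (R z x w M w M y + R z y w M x M w) = 0` because `C` commutes with `R z` and `R z` is antisymmetric.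

`comm_UU` (`E`, `E'` commute with all `M z`): `(R z U) x y = ∑ w, R z x w tr (M w E (M y)ᵀ E')
 = - tr ([M z, M x] E (M y)ᵀ E')`, `(U R z) x y = ∑ w, tr (M x E (M w)ᵀ E') R z w y = tr (M x E [M z, M y]ᵀ E')`, equal by
cyclicity of the trace and `(M z)ᵀ = - M z`.

`lc_comm` : if `C` is symmetric and commutes with all `R z` then `∑ y, C x y • R y = C * R x` (entries:
`∑ y, C x y R y i j = - ∑ y, C x y R i y j = - (C R_i) x j = - (R_i C) x j = - ∑ y, R i x y C y j = ∑ y, R x i y C y j`,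
and this is `(R x * C) i j = (C * R x) i j`).

`trace_zero` : if `X` commutes with all `M z` then `f z = tr (X (M z)ᵀ)` satisfies `∑ w, R x y w f w =
 - tr (X [M x, M y]ᵀ) = 0`, so (with `antisymmetry`) `(UU R 1 1) f = (∑ w, R w (R w)ᵀ) f = 0`
(`tr (R x (R y)ᵀ) = ∑ w, (R w (R w)ᵀ) x y` by antisymmetry), and `fᵀ UU R 1 1 f ≥ (1 - s²) |f|²` by `trR` and `idx`
(`UU_quad`), so `f = 0`.
-/

set_option linter.all false

namespace Pool.Agent.EinT

open Matrix Pool.Agent.EinS

variable {m q p r : Type*} [Fintype m] [DecidableEq m] [Fintype q] [DecidableEq q] [Fintype p]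
  [DecidableEq p] [Fintype r] [DecidableEq r]

theorem comm_inv {X B : Matrix m m ℝ} (h : B * X = X * B) (hd : IsUnit B.det) :
    B⁻¹ * X = X * B⁻¹ := by
  calc B⁻¹ * X = B⁻¹ * X * (B * B⁻¹) := by rw [Matrix.mul_nonsing_inv _ hd, Matrix.mul_one]
    _ = B⁻¹ * (X * B) * B⁻¹ := by simp only [Matrix.mul_assoc]
    _ = (B⁻¹ * B) * X * B⁻¹ := by rw [← h]; simp only [Matrix.mul_assoc]
    _ = X * B⁻¹ := by rw [Matrix.nonsing_inv_mul _ hd, Matrix.one_mul]

/-- quadratic expression in the family -/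
private noncomputable def Com_QQ (M : r → Matrix m m ℝ) (D : Matrix r r ℝ) : Matrix m m ℝ :=
  ∑ x, ∑ y, D x y • (M x * M y)

private theorem Com_A (M : r → Matrix m m ℝ) (R C : Matrix r r ℝ) :
    ∑ x, ∑ y, C x y • ((∑ w, R x w • M w) * M y) = Com_QQ M (Rᵀ * C) := by
  unfold Com_QQ
  have e1 : ∀ x, ∑ y, C x y • ((∑ w, R x w • M w) * M y) =
      ∑ y, ∑ w, (R x w * C x y) • (M w * M y) := by
    intro x
    refine Finset.sum_congr rfl fun y _ => ?_
    rw [Finset.sum_mul, Finset.smul_sum]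
    refine Finset.sum_congr rfl fun w _ => ?_
    rw [Matrix.smul_mul, smul_smul, mul_comm]
  have e2 : ∀ w y, (Rᵀ * C) w y • (M w * M y) = ∑ x, (R x w * C x y) • (M w * M y) := by
    intro w y
    rw [Matrix.mul_apply, Finset.sum_smul]
    rfl
  simp only [e1, e2]
  rw [Finset.sum_comm]
  rw [Finset.sum_comm (s := Finset.univ) (t := Finset.univ)
    (f := fun w y => ∑ x, (R x w * C x y) • (M w * M y))]
  refine Finset.sum_congr rfl fun y _ => ?_
  rw [Finset.sum_comm]

private theorem Com_B (M : r → Matrix m m ℝ) (R C : Matrix r r ℝ) :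
    ∑ x, ∑ y, C x y • (M x * (∑ w, R y w • M w)) = Com_QQ M (C * R) := by
  unfold Com_QQ
  refine Finset.sum_congr rfl fun x _ => ?_
  have e1 : ∀ y, C x y • (M x * (∑ w, R y w • M w)) =
      ∑ w, (C x y * R y w) • (M x * M w) := by
    intro y
    rw [Finset.mul_sum, Finset.smul_sum]
    refine Finset.sum_congr rfl fun w _ => ?_
    rw [Matrix.mul_smul, smul_smul]
  have e2 : ∀ w, (C * R) x w • (M x * M w) = ∑ y, (C x y * R y w) • (M x * M w) := by
    intro w
    rw [Matrix.mul_apply, Finset.sum_smul]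
  simp only [e1, e2]
  rw [Finset.sum_comm]

private theorem Com_neg (M : r → Matrix m m ℝ) (D : Matrix r r ℝ) :
    Com_QQ M (-D) = -Com_QQ M D := by
  unfold Com_QQ
  simp only [Matrix.neg_apply, neg_smul, Finset.sum_neg_distrib]

theorem comm_TT {M : r → Matrix m m ℝ} {R : r → Matrix r r ℝ} (anM : ∀ z, (M z)ᵀ = -M z)
    (anR : ∀ z, (R z)ᵀ = -R z) (anR' : ∀ x y z, R y x z = -R x y z)
    (br : ∀ x y, M x * M y - M y * M x = -∑ w, R x y w • M w) {C : Matrix r r ℝ}
    (cC : ∀ z, C * R z = R z * C) {E : Matrix m m ℝ} (cE : ∀ z, E * M z = M z * E) (z : r) :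
    TT M C E * M z = M z * TT M C E := by
  have e1 : TT M C E = -(E * Com_QQ M C) := by
    unfold TT Com_QQ
    rw [Finset.mul_sum, ← Finset.sum_neg_distrib]
    refine Finset.sum_congr rfl fun x _ => ?_
    rw [Finset.mul_sum, ← Finset.sum_neg_distrib]
    refine Finset.sum_congr rfl fun y _ => ?_
    rw [anM, Matrix.mul_neg, smul_neg, Matrix.mul_smul, ← cE x, Matrix.mul_assoc]
  have e2 : M z * Com_QQ M C - Com_QQ M C * M z = 0 := by
    have e3 : M z * Com_QQ M C - Com_QQ M C * M z =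
        -(∑ x, ∑ y, C x y • ((∑ w, R z x w • M w) * M y)) -
          ∑ x, ∑ y, C x y • (M x * (∑ w, R z y w • M w)) := by
      unfold Com_QQ
      rw [Finset.mul_sum, Finset.sum_mul, ← Finset.sum_sub_distrib, ← Finset.sum_neg_distrib,
        ← Finset.sum_sub_distrib]
      refine Finset.sum_congr rfl fun x _ => ?_
      rw [Finset.mul_sum, Finset.sum_mul, ← Finset.sum_sub_distrib, ← Finset.sum_neg_distrib,
        ← Finset.sum_sub_distrib]
      refine Finset.sum_congr rfl fun y _ => ?_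
      have h1 : ∑ w, R z x w • M w = -(M z * M x - M x * M z) := by rw [br, neg_neg]
      have h2 : ∑ w, R z y w • M w = -(M z * M y - M y * M z) := by rw [br, neg_neg]
      rw [h1, h2, Matrix.mul_smul, Matrix.smul_mul, ← smul_neg, ← smul_sub, ← smul_sub]
      congr 1
      noncomm_ring
    rw [e3, Com_A, Com_B, anR, Matrix.neg_mul, Com_neg, neg_neg, cC, sub_self]
  have e3 : Com_QQ M C * M z = M z * Com_QQ M C := (sub_eq_zero.mp e2).symm
  rw [e1, Matrix.neg_mul, Matrix.mul_neg, Matrix.mul_assoc, e3, ← Matrix.mul_assoc, cE,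
    Matrix.mul_assoc]

theorem comm_UU {M : r → Matrix m m ℝ} {R : r → Matrix r r ℝ} (anM : ∀ z, (M z)ᵀ = -M z)
    (anR : ∀ z, (R z)ᵀ = -R z) (anR' : ∀ x y z, R y x z = -R x y z)
    (br : ∀ x y, M x * M y - M y * M x = -∑ w, R x y w • M w) {E E' : Matrix m m ℝ}
    (cE : ∀ z, E * M z = M z * E) (cE' : ∀ z, E' * M z = M z * E') (z : r) :
    UU M E E' * R z = R z * UU M E E' := by
  ext x y
  have e1 : (UU M E E' * R z) x y = trace (M x * E * (M z * M y - M y * M z)ᵀ * E') := by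
    have h1 : (M z * M y - M y * M z)ᵀ = ∑ w, R z w y • (M w)ᵀ := by
      rw [br, Matrix.transpose_neg, Matrix.transpose_sum, ← Finset.sum_neg_distrib]
      refine Finset.sum_congr rfl fun w _ => ?_
      rw [Matrix.transpose_smul, ← neg_smul]
      congr 1
      have := congrFun (congrFun (anR z) w) y
      rw [Matrix.transpose_apply, Matrix.neg_apply] at this
      linarith
    rw [h1, Matrix.mul_apply, Finset.mul_sum, Finset.sum_mul, Matrix.trace_sum]
    refine Finset.sum_congr rfl fun w _ => ?_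
    rw [Matrix.mul_smul, Matrix.smul_mul, Matrix.trace_smul, smul_eq_mul, mul_comm]
    rfl
  have e2 : (R z * UU M E E') x y = -trace ((M z * M x - M x * M z) * E * (M y)ᵀ * E') := by
    rw [br, Matrix.neg_mul, Matrix.neg_mul, Matrix.neg_mul, Matrix.trace_neg, neg_neg,
      Matrix.mul_apply, Finset.sum_mul, Finset.sum_mul, Finset.sum_mul, Matrix.trace_sum]
    refine Finset.sum_congr rfl fun w _ => ?_
    rw [Matrix.smul_mul, Matrix.smul_mul, Matrix.smul_mul, Matrix.trace_smul, smul_eq_mul]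
    rfl
  rw [e1, e2]
  have h2 : (M z * M y - M y * M z)ᵀ = M z * (M y)ᵀ - (M y)ᵀ * M z := by
    rw [Matrix.transpose_sub, Matrix.transpose_mul, Matrix.transpose_mul, anM z]
    noncomm_ring
  rw [h2]
  have e3 : M x * E * (M z * (M y)ᵀ - (M y)ᵀ * M z) * E' =
      M x * M z * E * (M y)ᵀ * E' - M x * E * (M y)ᵀ * E' * M z := by
    have h3 : M x * E * (M z * (M y)ᵀ - (M y)ᵀ * M z) * E' =
      M x * (E * M z) * (M y)ᵀ * E' - M x * E * (M y)ᵀ * (M z * E') := by noncomm_ring
    rw [h3, cE, ← cE']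
    noncomm_ring
  have e4 : -trace ((M z * M x - M x * M z) * E * (M y)ᵀ * E') =
      trace (M x * M z * E * (M y)ᵀ * E') - trace (M z * (M x * E * (M y)ᵀ * E')) := by
    rw [← Matrix.trace_neg, ← Matrix.trace_sub]
    congr 1
    noncomm_ring
  rw [e3, e4, Matrix.trace_sub, Matrix.trace_mul_comm (M z)]

theorem lc_comm {R : r → Matrix r r ℝ} (anR : ∀ z, (R z)ᵀ = -R z)
    (anR' : ∀ x y z, R y x z = -R x y z) {C : Matrix r r ℝ} (hC : C.IsSymm)
    (cC : ∀ z, C * R z = R z * C) (x : r) : ∑ y, C x y • R y = C * R x := by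
  ext i j
  have e1 : (∑ y, C x y • R y) i j = -(C * R i) x j := by
    rw [Matrix.sum_apply, Matrix.mul_apply, ← Finset.sum_neg_distrib]
    refine Finset.sum_congr rfl fun y _ => ?_
    rw [Matrix.smul_apply, smul_eq_mul, anR' i y j]
    ring
  have e2 : (R x * C) i j = -(R i * C) x j := by
    rw [Matrix.mul_apply, Matrix.mul_apply, ← Finset.sum_neg_distrib]
    refine Finset.sum_congr rfl fun y _ => ?_
    rw [anR' i x y]
    ring
  rw [e1, cC i, ← e2, ← cC x]

theorem trace_zero {N : q → Matrix p p ℝ} {S : q → Matrix q q ℝ} {M : r → Matrix p p ℝ}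
    {R : r → Matrix r r ℝ} {s a : ℝ} (h : Dat N S M R s a) {X : Matrix p p ℝ}
    (hX : ∀ z, X * M z = M z * X) (z : r) : trace (X * (M z)ᵀ) = 0 := by
  set f : r → ℝ := fun z => trace (X * (M z)ᵀ) with hf
  have h1 : ∀ x y, ∑ w, R x y w * f w = 0 := by
    intro x y
    have e1 : ∑ w, R x y w * f w = trace (X * (∑ w, R x y w • M w)ᵀ) := by
      rw [Matrix.transpose_sum, Finset.mul_sum, Matrix.trace_sum]
      refine Finset.sum_congr rfl fun w _ => ?_
      rw [Matrix.transpose_smul, Matrix.mul_smul, Matrix.trace_smul, smul_eq_mul]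
    have e2 : ∑ w, R x y w • M w = M y * M x - M x * M y := by
      have := h.brM x y
      rw [← neg_sub (M x * M y), this, neg_neg]
    rw [e1, e2, Matrix.transpose_sub, Matrix.transpose_mul, Matrix.transpose_mul, h.anM, h.anM]
    have e3 : X * (-M x * -M y - -M y * -M x) = X * M x * M y - X * M y * M x := by noncomm_ring
    rw [e3, Matrix.trace_sub, hX x, Matrix.mul_assoc (M x), Matrix.trace_mul_comm (M x), sub_self]
  have h2 : UU R 1 1 *ᵥ f = 0 := by
    funext x
    show ∑ y, UU R 1 1 x y * f y = 0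
    have e1 : ∀ y, UU R 1 1 x y = ∑ i, ∑ j, R x i j * R i j y := by
      intro y
      unfold UU
      rw [Matrix.of_apply, Matrix.mul_one, Matrix.mul_one]
      unfold trace
      refine Finset.sum_congr rfl fun i _ => ?_
      rw [Matrix.diag_apply, Matrix.mul_apply]
      refine Finset.sum_congr rfl fun j _ => ?_
      rw [Matrix.transpose_apply, h.anR' i y j]
      have := congrFun (congrFun (h.anR i) y) j
      rw [Matrix.transpose_apply, Matrix.neg_apply] at this
      rw [this]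
    simp only [e1, Finset.sum_mul]
    rw [Finset.sum_comm]
    refine Finset.sum_eq_zero fun i _ => ?_
    rw [Finset.sum_comm]
    refine Finset.sum_eq_zero fun j _ => ?_
    have : ∀ y, R x i j * R i j y * f y = R x i j * (R i j y * f y) := fun y => by ring
    simp only [this]
    rw [← Finset.mul_sum, h1, mul_zero]
  have h3 : f ⬝ᵥ (UU R 1 1 *ᵥ f) = 0 := by rw [h2, dotProduct_zero]
  have h4 : f ⬝ᵥ (UU R 1 1 *ᵥ f) + f ⬝ᵥ (UU M 1 1 *ᵥ f) = f ⬝ᵥ f := by
    rw [← dotProduct_add, ← Matrix.add_mulVec, h.trR, Matrix.one_mulVec]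
  have h5 : f ⬝ᵥ (UU M 1 1 *ᵥ f) ≤ s ^ 2 * (f ⬝ᵥ f) := by
    rw [UU_quad, Matrix.one_mul, Matrix.mul_one]
    exact h.idx f
  have h6 := dot_self_nonneg f
  have h7 : f ⬝ᵥ f = 0 := by
    have hs0 : 0 < s := lt_of_lt_of_le h.a0 h.as
    have hs1 : s ≤ 1 / 300 := by linarith [h.s1]
    have hs2 : s ^ 2 ≤ 1 / 2 := by nlinarith
    rw [h3, zero_add] at h4
    rw [h4] at h5
    nlinarith
  have h8 := dot_self_eq_zero h7
  exact congrFun h8 z

private theorem Com_TTN {N : q → Matrix p p ℝ} {M : r → Matrix p p ℝ}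
    (cN : ∀ x z, N x * M z = M z * N x) (anM : ∀ z, (M z)ᵀ = -M z) (A : Matrix q q ℝ)
    {E : Matrix p p ℝ} (cE : ∀ z, E * M z = M z * E) (z : r) :
    TT N A E * M z = M z * TT N A E := by
  have cT : ∀ y, (N y)ᵀ * M z = M z * (N y)ᵀ := by
    intro y
    have h1 := congrArg Matrix.transpose (cN y z)
    rw [Matrix.transpose_mul, Matrix.transpose_mul, anM, Matrix.neg_mul, Matrix.mul_neg,
      neg_inj] at h1
    exact h1.symm
  unfold TT
  rw [Finset.sum_mul, Finset.mul_sum]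
  refine Finset.sum_congr rfl fun x _ => ?_
  rw [Finset.sum_mul, Finset.mul_sum]
  refine Finset.sum_congr rfl fun y _ => ?_
  rw [Matrix.smul_mul, Matrix.mul_smul]
  congr 1
  rw [Matrix.mul_assoc, cT, ← Matrix.mul_assoc, Matrix.mul_assoc (N x) E, cE, ← Matrix.mul_assoc,
    cN]
  simp only [Matrix.mul_assoc]

theorem comm_PhB {N : q → Matrix p p ℝ} {S : q → Matrix q q ℝ} {M : r → Matrix p p ℝ}
    {R : r → Matrix r r ℝ} {s a : ℝ} (h : Dat N S M R s a) {B : Matrix p p ℝ}
    {P : Matrix q q ℝ} {C : Matrix r r ℝ} (hB : IsUnit B.det) (cB : ∀ z, B * M z = M z * B)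
    (cC : ∀ z, C * R z = R z * C) (z : r) : PhB N M B P C * M z = M z * PhB N M B P C := by
  have cI : ∀ z, B⁻¹ * M z = M z * B⁻¹ := fun z => comm_inv (cB z) hB
  have h1 := Com_TTN h.comm h.anM P⁻¹ cI z
  have h2 := Com_TTN h.comm h.anM P cB z
  have h3 := Com_TTN h.comm h.anM P cI z
  have h4 := comm_TT h.anM h.anR h.anR' h.brM cC cI z
  have h5 : B * TT N P B⁻¹ * B * M z = M z * (B * TT N P B⁻¹ * B) := by
    rw [Matrix.mul_assoc _ B, cB, ← Matrix.mul_assoc, Matrix.mul_assoc B, h3, ← Matrix.mul_assoc,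
      cB]
    simp only [Matrix.mul_assoc]
  unfold PhB Phi1
  rw [Matrix.smul_mul, Matrix.mul_smul]
  congr 1
  rw [Matrix.sub_mul, Matrix.add_mul, Matrix.sub_mul, Matrix.sub_mul, h1, h2, h4, h5,
    Matrix.mul_sub, Matrix.mul_add, Matrix.mul_sub, Matrix.mul_sub, Matrix.one_mul, Matrix.mul_one]

theorem comm_PhC {N : q → Matrix p p ℝ} {S : q → Matrix q q ℝ} {M : r → Matrix p p ℝ}
    {R : r → Matrix r r ℝ} {s a : ℝ} (h : Dat N S M R s a) {B : Matrix p p ℝ}
    {C : Matrix r r ℝ} (hB : IsUnit B.det) (cB : ∀ z, B * M z = M z * B)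
    (cC : ∀ z, C * R z = R z * C) (z : r) : PhC M R B C * R z = R z * PhC M R B C := by
  have cI : ∀ z, B⁻¹ * M z = M z * B⁻¹ := fun z => comm_inv (cB z) hB
  have h1 := comm_UU (M := R) (R := R) (E := 1) (E' := 1) h.anR h.anR h.anR' h.brR
    (fun z => by rw [Matrix.one_mul, Matrix.mul_one])
    (fun z => by rw [Matrix.one_mul, Matrix.mul_one]) z
  have h2 := comm_UU h.anM h.anR h.anR' h.brM cI cI z
  unfold PhC
  rw [Matrix.add_mul, Matrix.mul_add, h1]
  congr 1
  rw [Matrix.mul_assoc _ C, cC, ← Matrix.mul_assoc, Matrix.mul_assoc C, h2, ← Matrix.mul_assoc, cC]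
  simp only [Matrix.mul_assoc]

end Pool.Agent.EinT
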