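import Pool.Agent.EinS.Defs

/-!
# Symmetric pairs: subgroups of the small factor
-/

namespace Pool.Agent.EinT

open Pool.Agent.EStab Pool.Agent.EinS

variable {L : Type*} [LieRing L] [LieAlgebra ℝ L]

/-- For every `x ∈ l` minus the trace of `ad(x)²` over the orthogonal complement `p` of `k ⊕ l` is at
most `s` times minus the Killing form of `x`. -/
def IndexLE (k l : LieSubalgebra ℝ L) (s : ℝ) : Prop :=
  ∀ (n : ℕ) (b : Fin n → L), (∀ i, Orth k l (b i)) →
    (∀ i j, killingForm ℝ L (b i) (b j) = if i = j then -1 else 0) →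
    ∀ x ∈ l, ∑ i, -killingForm ℝ L ⁅x, b i⁆ ⁅x, b i⁆ ≤ s * -killingForm ℝ L x x

/-- The Casimir operator of `h` with respect to minus the Killing form of `L` is at least `t` on the
orthogonal complement `p` of `k ⊕ l`. -/
def CasimirGE (k l h : LieSubalgebra ℝ L) (t : ℝ) : Prop :=
  ∃ (n : ℕ) (a : Fin n → L), (∀ i, a i ∈ h) ∧
    (∀ i j, killingForm ℝ L (a i) (a j) = if i = j then -1 else 0) ∧
    ∀ x, Orth k l x → t * -killingForm ℝ L x x ≤ ∑ i, -killingForm ℝ L ⁅a i, x⁆ ⁅a i, x⁆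

end Pool.Agent.EinT
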