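import Pool.Agent.EinT.So

/-!
# The Casimir operator of a subalgebra of `so(k)` on the off-diagonal matrices

`y_i` orthonormal for `∑ a b, y a b * y' a b` in `h ≤ so(k)`, `a_i` = the embedded `y_i` divided by `√(n + k - 2)`
(`Qf a_i a_j = δ_ij` by `Qf_so`); for `x` off-diagonal (`off_diag`) with lower left block `X` (`k × n`):
`Qf ⁅a_i, x⁆ ⁅a_i, x⁆ = (1/(n + k - 2)) 2 (n + k - 2) |y_i X|²`, `Qf x x = 2 (n + k - 2) |X|²` and
`∑ i, |y_i X|² ≥ c |X|²` (apply the hypothesis to the columns of `X`).  (Compare `so_casimir_p` in `EinS/SoCas.lean`.)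
-/

namespace Pool.Agent.EinT

open Matrix Pool.Agent.EStab Pool.Agent.EinS LieAlgebra.Orthogonal

variable {n k : ℕ}

private theorem SoGE_entry (s : ℝ) (y : so (Fin k) ℝ) (c d : Fin k) :
    (mkLow n ((s / 2) • y.1)).1 (Sum.inr c) (Sum.inr d) = s * y.1 c d := by
  change s / 2 * y.1 c d - s / 2 * y.1 d c = _
  rw [so_skew y d c]
  ring

theorem so_casimirGE (h3 : 3 ≤ n + k) {h : LieSubalgebra ℝ (so (Fin k) ℝ)} {c : ℝ}
    (hc : StdCasimirGE h c) :
    CasimirGE (lower n k) (upper n k) (emb n h) (c / (n + k - 2)) := by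
  have hM : (0 : ℝ) < n + k - 2 := by
    have : (3 : ℝ) ≤ n + k := by exact_mod_cast h3
    linarith
  obtain ⟨m, y, hy, ho, hv⟩ := hc
  obtain ⟨s, hs0, hs⟩ : ∃ s : ℝ, 0 < s ∧ s ^ 2 * (n + k - 2) = 1 := by
    refine ⟨(Real.sqrt (n + k - 2))⁻¹, inv_pos.2 (Real.sqrt_pos.2 hM), ?_⟩
    rw [inv_pow, Real.sq_sqrt hM.le, inv_mul_cancel₀ hM.ne']
  have ham : ∀ i, mkLow n ((s / 2) • (y i).1) ∈ lower n k := fun i => mkLow_mem _
  refine ⟨m, fun i => mkLow n ((s / 2) • (y i).1), fun i => ⟨ham i, s • y i,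
    h.smul_mem s (hy i), fun c d => SoGE_entry s (y i) c d⟩, fun i j => ?_, fun x hx => ?_⟩
  · have h1 := Qf_so (mkLow n ((s / 2) • (y i).1)) (mkLow n ((s / 2) • (y j).1))
    rw [Qf_apply, card_nk, sum4] at h1
    simp only [lower_col (ham i), lower_row (ham i), zero_mul, Finset.sum_const_zero, zero_add,
      SoGE_entry] at h1
    have h2 : ∀ c d, s * (y i).1 c d * (s * (y j).1 c d) =
        s ^ 2 * ((y i).1 c d * (y j).1 c d) := fun c d => by ring
    simp only [h2, ← Finset.mul_sum] at h1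
    rw [ho] at h1
    split_ifs at h1 ⊢
    · linarith
    · linarith
  · obtain ⟨hx1, hx2⟩ := off_diag hM hx
    have hflip : ∀ z : so (Fin n ⊕ Fin k) ℝ,
        ∑ r, ∑ j, z.1 (Sum.inl r) (Sum.inr j) * z.1 (Sum.inl r) (Sum.inr j) =
        ∑ r, ∑ j, z.1 (Sum.inr j) (Sum.inl r) * z.1 (Sum.inr j) (Sum.inl r) := by
      intro z
      refine Finset.sum_congr rfl fun r _ => Finset.sum_congr rfl fun j _ => ?_
      rw [so_skew z (Sum.inr j) (Sum.inl r)]
      ring
    have h7 : -killingForm ℝ (so (Fin n ⊕ Fin k) ℝ) x x = (2 * (n + k - 2) : ℝ) *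
        ∑ r, ∑ j, x.1 (Sum.inr j) (Sum.inl r) * x.1 (Sum.inr j) (Sum.inl r) := by
      have h8 := Qf_so x x
      rw [Qf_apply, card_nk, sum4, hflip] at h8
      simp only [hx1, hx2, mul_zero, Finset.sum_const_zero, zero_add, add_zero] at h8
      rw [h8, Finset.sum_comm (f := fun i j => x.1 (Sum.inr i) (Sum.inl j) *
        x.1 (Sum.inr i) (Sum.inl j))]
      ring
    have h9 : ∀ i, -killingForm ℝ (so (Fin n ⊕ Fin k) ℝ)
        ⁅mkLow n ((s / 2) • (y i).1), x⁆ ⁅mkLow n ((s / 2) • (y i).1), x⁆ =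
        2 * ∑ r, ((y i).1 *ᵥ fun j => x.1 (Sum.inr j) (Sum.inl r)) ⬝ᵥ
          ((y i).1 *ᵥ fun j => x.1 (Sum.inr j) (Sum.inl r)) := by
      intro i
      have h8 := Qf_so ⁅mkLow n ((s / 2) • (y i).1), x⁆ ⁅mkLow n ((s / 2) • (y i).1), x⁆
      rw [Qf_apply, card_nk, sum4, hflip] at h8
      have h2 : ∀ r j, (⁅mkLow n ((s / 2) • (y i).1), x⁆ : so (Fin n ⊕ Fin k) ℝ).1
          (Sum.inr j) (Sum.inl r) = s * ((y i).1 *ᵥ fun j => x.1 (Sum.inr j) (Sum.inl r)) j := by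
        intro r j
        rw [so_lie, Matrix.sub_apply, Matrix.mul_apply, Matrix.mul_apply, Fintype.sum_sum_type,
          Fintype.sum_sum_type]
        simp only [lower_col (ham i), hx1, mul_zero, zero_mul,
          Finset.sum_const_zero, add_zero, zero_add, sub_zero, SoGE_entry]
        rw [Matrix.mulVec, dotProduct, Finset.mul_sum]
        exact Finset.sum_congr rfl fun d _ => by ring
      have h4 : ∀ r t, (⁅mkLow n ((s / 2) • (y i).1), x⁆ : so (Fin n ⊕ Fin k) ℝ).1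
          (Sum.inl r) (Sum.inl t) = 0 := by
        intro r t
        rw [so_lie, Matrix.sub_apply, Matrix.mul_apply, Matrix.mul_apply, Fintype.sum_sum_type,
          Fintype.sum_sum_type]
        simp only [lower_col (ham i), lower_row (ham i), hx2, mul_zero, zero_mul,
          Finset.sum_const_zero, add_zero, sub_zero]
      have h5 : ∀ p q, (⁅mkLow n ((s / 2) • (y i).1), x⁆ : so (Fin n ⊕ Fin k) ℝ).1
          (Sum.inr p) (Sum.inr q) = 0 := by
        intro p q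
        rw [so_lie, Matrix.sub_apply, Matrix.mul_apply, Matrix.mul_apply, Fintype.sum_sum_type,
          Fintype.sum_sum_type]
        simp only [lower_col (ham i), lower_row (ham i), hx1, mul_zero, zero_mul,
          Finset.sum_const_zero, add_zero, sub_zero]
      simp only [h4, h5, mul_zero, Finset.sum_const_zero, zero_add, add_zero, h2] at h8
      rw [h8, Finset.sum_comm (f := fun a b =>
        s * ((y i).1 *ᵥ fun j => x.1 (Sum.inr j) (Sum.inl b)) a *
          (s * ((y i).1 *ᵥ fun j => x.1 (Sum.inr j) (Sum.inl b)) a))]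
      have h10 : ∀ r j, s * ((y i).1 *ᵥ fun j => x.1 (Sum.inr j) (Sum.inl r)) j *
          (s * ((y i).1 *ᵥ fun j => x.1 (Sum.inr j) (Sum.inl r)) j) =
          s ^ 2 * (((y i).1 *ᵥ fun j => x.1 (Sum.inr j) (Sum.inl r)) j *
            ((y i).1 *ᵥ fun j => x.1 (Sum.inr j) (Sum.inl r)) j) := fun r j => by ring
      simp only [h10, ← Finset.mul_sum]
      change ((n : ℝ) + k - 2) * (s ^ 2 * (∑ r, ((y i).1 *ᵥ fun j => x.1 (Sum.inr j) (Sum.inl r)) ⬝ᵥ
          ((y i).1 *ᵥ fun j => x.1 (Sum.inr j) (Sum.inl r))) +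
        s ^ 2 * (∑ r, ((y i).1 *ᵥ fun j => x.1 (Sum.inr j) (Sum.inl r)) ⬝ᵥ
          ((y i).1 *ᵥ fun j => x.1 (Sum.inr j) (Sum.inl r)))) = _
      set T := ∑ r, ((y i).1 *ᵥ fun j => x.1 (Sum.inr j) (Sum.inl r)) ⬝ᵥ
          ((y i).1 *ᵥ fun j => x.1 (Sum.inr j) (Sum.inl r))
      calc ((n : ℝ) + k - 2) * (s ^ 2 * T + s ^ 2 * T) = 2 * (s ^ 2 * (n + k - 2)) * T := by ring
        _ = _ := by rw [hs]; ring
    rw [h7]
    simp only [h9, ← Finset.mul_sum]
    have h11 : c / (n + k - 2) * (2 * (n + k - 2) *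
        ∑ r, ∑ j, x.1 (Sum.inr j) (Sum.inl r) * x.1 (Sum.inr j) (Sum.inl r)) =
        2 * ∑ r, c * ((fun j => x.1 (Sum.inr j) (Sum.inl r)) ⬝ᵥ
          fun j => x.1 (Sum.inr j) (Sum.inl r)) := by
      rw [← Finset.mul_sum]
      simp only [dotProduct]
      field_simp
    rw [h11, Finset.sum_comm]
    exact mul_le_mul_of_nonneg_left (Finset.sum_le_sum fun r _ => hv _) (by norm_num)

end Pool.Agent.EinT
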