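import Pool.Agent.EinT.So

/-!
# The index of `so(n)` in `so(n + k)`

`x ∈ so(n)` with upper block `V`, `b_i` an orthonormal family of off-diagonal matrices with blocks `X_i` (`n × k`,
`off_diag`): `Qf ⁅x, b_i⁆ ⁅x, b_i⁆ = 2 (n + k - 2) |V X_i|²`, and `2 (n + k - 2) tr (X_iᵀ X_j) = δ_ij`, so by Bessel
`∑ i, |V X_i|² ≤ k |V|² / (2 (n + k - 2))` (`|V X_i|² = ∑_{r, c} (∑_u V r u X_i u c)²`; for fixed `r, c` the sum over `i` of the
squares is at most the squared norm of the matrix with column `c` equal to `V r .`, see `so_bessel`, `bessel_fam` in `EinS`), and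
`Qf x x = (n + k - 2) |V|²`: so the sum is at most `k/(n + k - 2) Qf x x`.  (Compare `so_casimir_p` in `EinS/SoCas.lean`.)
-/

namespace Pool.Agent.EinT

open Matrix Pool.Agent.EStab Pool.Agent.EinS LieAlgebra.Orthogonal

variable {n k : ℕ}

/-- The off-diagonal matrix with upper right block `W`. -/
private noncomputable def SoIdx_off (W : Matrix (Fin n) (Fin k) ℝ) : so (Fin n ⊕ Fin k) ℝ :=
  ⟨fromBlocks 0 W (-Wᵀ) 0, by
    rw [mem_so, Matrix.fromBlocks_transpose, Matrix.fromBlocks_neg]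
    simp only [Matrix.transpose_zero, neg_zero, Matrix.transpose_neg,
      Matrix.transpose_transpose, neg_neg]⟩

private theorem SoIdx_flip (x y : so (Fin n ⊕ Fin k) ℝ) :
    ∑ j, ∑ r, x.1 (Sum.inr j) (Sum.inl r) * y.1 (Sum.inr j) (Sum.inl r) =
      ∑ r, ∑ j, x.1 (Sum.inl r) (Sum.inr j) * y.1 (Sum.inl r) (Sum.inr j) := by
  rw [Finset.sum_comm]
  refine Finset.sum_congr rfl fun r _ => Finset.sum_congr rfl fun j _ => ?_
  rw [so_skew x (Sum.inr j) (Sum.inl r), so_skew y (Sum.inr j) (Sum.inl r)]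
  ring

private theorem SoIdx_Qf_off (x : so (Fin n ⊕ Fin k) ℝ) (W : Matrix (Fin n) (Fin k) ℝ) :
    Qf _ x (SoIdx_off W) =
      (n + k - 2 : ℝ) * (2 * ∑ r, ∑ c, x.1 (Sum.inl r) (Sum.inr c) * W r c) := by
  rw [Qf_so, card_nk, sum4, SoIdx_flip]
  congr 1
  have h1 : ∑ i : Fin n, ∑ j : Fin n, x.1 (Sum.inl i) (Sum.inl j) *
      (SoIdx_off W).1 (Sum.inl i) (Sum.inl j) = 0 :=
    Finset.sum_eq_zero fun i _ => Finset.sum_eq_zero fun j _ => mul_zero _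
  have h2 : ∑ i : Fin k, ∑ j : Fin k, x.1 (Sum.inr i) (Sum.inr j) *
      (SoIdx_off W).1 (Sum.inr i) (Sum.inr j) = 0 :=
    Finset.sum_eq_zero fun i _ => Finset.sum_eq_zero fun j _ => mul_zero _
  rw [h1, h2, zero_add, add_zero]
  have h3 : ∑ i : Fin n, ∑ j : Fin k, x.1 (Sum.inl i) (Sum.inr j) *
      (SoIdx_off W).1 (Sum.inl i) (Sum.inr j) =
      ∑ r, ∑ c, x.1 (Sum.inl r) (Sum.inr c) * W r c := rfl
  rw [h3]
  ring

/-- Bessel's inequality for off-diagonal blocks. -/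
private theorem SoIdx_bessel (h3 : 3 ≤ n + k) {m : ℕ} {b : Fin m → so (Fin n ⊕ Fin k) ℝ}
    (ho : ∀ i j, Qf _ (b i) (b j) = if i = j then 1 else 0) (W : Matrix (Fin n) (Fin k) ℝ) :
    ∑ i, (∑ r, ∑ c, (b i).1 (Sum.inl r) (Sum.inr c) * W r c) ^ 2 ≤
      (∑ r, ∑ c, W r c ^ 2) / (2 * (n + k - 2)) := by
  have hM : (0 : ℝ) < n + k - 2 := by
    have : (3 : ℝ) ≤ n + k := by exact_mod_cast h3
    linarith
  have hg : CompactSemisimple (so (Fin n ⊕ Fin k) ℝ) := so_compact' (by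
    rw [Fintype.card_sum, Fintype.card_fin, Fintype.card_fin]
    exact h3)
  have h1 := bessel_fam hg ho (SoIdx_off W)
  have h2 : ∀ i, Qf _ (SoIdx_off W) (b i) =
      (n + k - 2 : ℝ) * (2 * ∑ r, ∑ c, (b i).1 (Sum.inl r) (Sum.inr c) * W r c) := by
    intro i
    rw [Qf_symm, SoIdx_Qf_off]
  have h4 : Qf _ (SoIdx_off W) (SoIdx_off W) = (n + k - 2 : ℝ) * (2 * ∑ r, ∑ c, W r c ^ 2) := by
    rw [SoIdx_Qf_off]
    congr 2
    refine Finset.sum_congr rfl fun r _ => Finset.sum_congr rfl fun c _ => ?_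
    rw [sq]
    rfl
  simp only [h2] at h1
  rw [h4] at h1
  have h5 : ∑ i, ((n + k - 2 : ℝ) *
      (2 * ∑ r, ∑ c, (b i).1 (Sum.inl r) (Sum.inr c) * W r c)) ^ 2 =
      (4 * (n + k - 2) ^ 2 : ℝ) *
        ∑ i, (∑ r, ∑ c, (b i).1 (Sum.inl r) (Sum.inr c) * W r c) ^ 2 := by
    rw [Finset.mul_sum]
    refine Finset.sum_congr rfl fun i _ => ?_
    ring
  rw [h5] at h1
  rw [le_div_iff₀ (by positivity)]
  set S := ∑ i, (∑ r, ∑ c, (b i).1 (Sum.inl r) (Sum.inr c) * W r c) ^ 2 with hS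
  set T := ∑ r, ∑ c, W r c ^ 2 with hT
  have h6 : (n + k - 2 : ℝ) * (2 * (S * (2 * (n + k - 2)))) ≤ (n + k - 2 : ℝ) * (2 * T) := by
    calc (n + k - 2 : ℝ) * (2 * (S * (2 * (n + k - 2)))) = 4 * (n + k - 2 : ℝ) ^ 2 * S := by
          ring
      _ ≤ _ := h1
  have h7 := le_of_mul_le_mul_left h6 hM
  linarith

/-- the `n × k` matrix with column `c` equal to `v` -/
private def SoIdx_W (v : Fin n → ℝ) (c : Fin k) : Matrix (Fin n) (Fin k) ℝ :=
  of fun u d => if d = c then v u else 0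

private theorem SoIdx_W_pair (Y : Fin n → Fin k → ℝ) (v : Fin n → ℝ) (c : Fin k) :
    ∑ u, ∑ d, Y u d * SoIdx_W v c u d = ∑ u, v u * Y u c := by
  unfold SoIdx_W
  simp only [Matrix.of_apply, mul_ite, mul_zero, Finset.sum_ite_eq', Finset.mem_univ, if_true]
  exact Finset.sum_congr rfl fun u _ => mul_comm _ _

private theorem SoIdx_W_sq (v : Fin n → ℝ) (c : Fin k) :
    ∑ u, ∑ d, SoIdx_W v c u d ^ 2 = ∑ u, v u ^ 2 := by
  unfold SoIdx_W
  simp only [Matrix.of_apply, ite_pow, ne_eq, OfNat.ofNat_ne_zero, not_false_eq_true,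
    zero_pow, Finset.sum_ite_eq', Finset.mem_univ, if_true]

private theorem SoIdx_lie (hM : (0 : ℝ) < n + k - 2) {x y : so (Fin n ⊕ Fin k) ℝ}
    (hx : x ∈ upper n k) (hy : Orth (lower n k) (upper n k) y) :
    Qf _ ⁅x, y⁆ ⁅x, y⁆ = (2 * (n + k - 2) : ℝ) *
      ∑ r, ∑ c, (∑ u, x.1 (Sum.inl r) (Sum.inl u) * y.1 (Sum.inl u) (Sum.inr c)) ^ 2 := by
  obtain ⟨hy1, hy2⟩ := off_diag hM hy
  rw [Qf_so, card_nk, sum4, SoIdx_flip]
  have h2 : ∀ r c, (⁅x, y⁆ : so (Fin n ⊕ Fin k) ℝ).1 (Sum.inl r) (Sum.inr c) =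
      ∑ u, x.1 (Sum.inl r) (Sum.inl u) * y.1 (Sum.inl u) (Sum.inr c) := by
    intro r c
    rw [so_lie, Matrix.sub_apply, Matrix.mul_apply, Matrix.mul_apply, Fintype.sum_sum_type,
      Fintype.sum_sum_type]
    simp only [upper_col hx, hy2, mul_zero, zero_mul,
      Finset.sum_const_zero, add_zero, sub_zero]
  have h4 : ∀ r s, (⁅x, y⁆ : so (Fin n ⊕ Fin k) ℝ).1 (Sum.inl r) (Sum.inl s) = 0 := by
    intro r s
    rw [so_lie, Matrix.sub_apply, Matrix.mul_apply, Matrix.mul_apply, Fintype.sum_sum_type,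
      Fintype.sum_sum_type]
    simp only [upper_col hx, upper_row hx, hy2, mul_zero, zero_mul,
      Finset.sum_const_zero, add_zero, sub_zero]
  have h5 : ∀ p q, (⁅x, y⁆ : so (Fin n ⊕ Fin k) ℝ).1 (Sum.inr p) (Sum.inr q) = 0 := by
    intro p q
    rw [so_lie, Matrix.sub_apply, Matrix.mul_apply, Matrix.mul_apply, Fintype.sum_sum_type,
      Fintype.sum_sum_type]
    simp only [upper_col hx, upper_row hx, hy1, mul_zero, zero_mul,
      Finset.sum_const_zero, add_zero, sub_zero]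
  simp only [h4, h5, mul_zero, Finset.sum_const_zero, zero_add, add_zero, h2]
  have h6 : ∀ r c, (∑ u, x.1 (Sum.inl r) (Sum.inl u) * y.1 (Sum.inl u) (Sum.inr c)) ^ 2 =
      (∑ u, x.1 (Sum.inl r) (Sum.inl u) * y.1 (Sum.inl u) (Sum.inr c)) *
      (∑ u, x.1 (Sum.inl r) (Sum.inl u) * y.1 (Sum.inl u) (Sum.inr c)) := fun r c => sq _
  simp only [h6]
  ring

theorem so_indexLE (h3 : 3 ≤ n + k) : IndexLE (lower n k) (upper n k) (k / (n + k - 2)) := by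
  intro m b hb hbo x hx
  have hM : (0 : ℝ) < n + k - 2 := by
    have : (3 : ℝ) ≤ n + k := by exact_mod_cast h3
    linarith
  have ho : ∀ i j, Qf _ (b i) (b j) = if i = j then 1 else 0 := by
    intro i j
    rw [Qf_apply, hbo]
    split_ifs <;> norm_num
  change ∑ i, Qf _ ⁅x, b i⁆ ⁅x, b i⁆ ≤ (k / (n + k - 2) : ℝ) * Qf _ x x
  set V : Fin n → Fin n → ℝ := fun r u => x.1 (Sum.inl r) (Sum.inl u) with hV
  have h1 : ∀ i, Qf _ ⁅x, b i⁆ ⁅x, b i⁆ = (2 * (n + k - 2) : ℝ) *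
      ∑ r, ∑ c, (∑ u, ∑ d, (b i).1 (Sum.inl u) (Sum.inr d) * SoIdx_W (V r) c u d) ^ 2 := by
    intro i
    rw [SoIdx_lie hM hx (hb i)]
    congr 1
    refine Finset.sum_congr rfl fun r _ => Finset.sum_congr rfl fun c _ => ?_
    rw [SoIdx_W_pair (fun u d => (b i).1 (Sum.inl u) (Sum.inr d)) (V r) c]
  simp only [h1]
  rw [← Finset.mul_sum, Finset.sum_comm]
  have h6 : ∑ r, ∑ i, ∑ c, (∑ u, ∑ d, (b i).1 (Sum.inl u) (Sum.inr d) *
      SoIdx_W (V r) c u d) ^ 2 ≤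
      ∑ r, ∑ c : Fin k, (∑ u, ∑ d, SoIdx_W (V r) c u d ^ 2) / (2 * (n + k - 2) : ℝ) := by
    refine Finset.sum_le_sum fun r _ => ?_
    rw [Finset.sum_comm]
    exact Finset.sum_le_sum fun c _ => SoIdx_bessel h3 ho (SoIdx_W (V r) c)
  have h7 : Qf _ x x = (n + k - 2 : ℝ) * ∑ r, ∑ u, V r u ^ 2 := by
    rw [Qf_so, card_nk, sum4]
    congr 1
    simp only [upper_col hx, upper_row hx, mul_zero, Finset.sum_const_zero, add_zero]
    refine Finset.sum_congr rfl fun r _ => Finset.sum_congr rfl fun u _ => ?_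
    rw [sq]
  simp only [SoIdx_W_sq, Finset.sum_const, Finset.card_univ, Fintype.card_fin,
    nsmul_eq_mul] at h6
  have h8 : ∑ r : Fin n, (k : ℝ) * ((∑ u, V r u ^ 2) / (2 * (n + k - 2) : ℝ)) =
      k * (∑ r, ∑ u, V r u ^ 2) / (2 * (n + k - 2) : ℝ) := by
    rw [← Finset.mul_sum, ← Finset.sum_div, mul_div_assoc]
  rw [h8] at h6
  calc (2 * (n + k - 2) : ℝ) * _ ≤ (2 * (n + k - 2) : ℝ) *
        (k * (∑ r, ∑ u, V r u ^ 2) / (2 * (n + k - 2) : ℝ)) :=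
        mul_le_mul_of_nonneg_left h6 (by linarith)
    _ = _ := by
        rw [h7]
        field_simp

end Pool.Agent.EinT
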