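import Pool.Agent.EinT.So

/-!
# The Casimir operator of a subalgebra of `so(k)` without fixed vectors is bounded below

An orthonormal basis `y_i` of `h` for the inner product `∑ a b, y a b * y' a b` (e.g. `InnerProductSpace.Core` /
`EuclideanSpace` on the matrices and `stdOrthonormalBasis`, or Gram-Schmidt, or for `3 ≤ k` `exists_frame` of `EinS/Frame.lean`
for `so(k)` and scaling by `√(k - 2)`; then `k ≤ 2` by hand).  The function `v ↦ ∑ i, |y_i v|²` is continuous and positive on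
the unit sphere of `ℝ^k` (`hfix`: if it vanishes, all `y_i v = 0`, so `u v = 0` for all `u ∈ h`), compactness gives `c > 0`
with `c |v|² ≤ ∑ i, |y_i v|²` (homogeneity); replace `c` by `min c 1`.  (`k = 0`: trivial.)
-/

namespace Pool.Agent.EinT

open Matrix Pool.Agent.EStab Pool.Agent.EinS LieAlgebra.Orthogonal

variable {k : ℕ}

/-- the entries of a matrix of `h` as a vector -/
private noncomputable def SoLam_vec (h : LieSubalgebra ℝ (so (Fin k) ℝ)) :
    h →ₗ[ℝ] EuclideanSpace ℝ (Fin k × Fin k) where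
  toFun u := WithLp.toLp 2 fun ab => u.1.1 ab.1 ab.2
  map_add' _ _ := rfl
  map_smul' _ _ := rfl

private theorem SoLam_inner (h : LieSubalgebra ℝ (so (Fin k) ℝ)) (u v : h) :
    inner ℝ (SoLam_vec h u) (SoLam_vec h v) = ∑ a, ∑ b, u.1.1 a b * v.1.1 a b := by
  rw [PiLp.inner_apply, Fintype.sum_prod_type]
  refine Finset.sum_congr rfl fun a _ => Finset.sum_congr rfl fun b _ => ?_
  show v.1.1 a b * u.1.1 a b = _
  ring

private theorem SoLam_inj (h : LieSubalgebra ℝ (so (Fin k) ℝ)) :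
    Function.Injective (SoLam_vec h) := by
  intro u v huv
  refine Subtype.ext (Subtype.ext ?_)
  ext a b
  exact congrArg (fun w : EuclideanSpace ℝ (Fin k × Fin k) => w (a, b)) huv

private theorem SoLam_basis (h : LieSubalgebra ℝ (so (Fin k) ℝ)) :
    ∃ (m : ℕ) (y : Fin m → h),
      (∀ i j, ∑ a, ∑ b, (y i).1.1 a b * (y j).1.1 a b = if i = j then 1 else 0) ∧
      ∀ u : h, ∃ c : Fin m → ℝ, u = ∑ i, c i • y i := by
  classical
  let W := LinearMap.range (SoLam_vec h)
  let b := stdOrthonormalBasis ℝ W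
  have hb : ∀ i, ∃ u : h, SoLam_vec h u = (b i : EuclideanSpace ℝ (Fin k × Fin k)) :=
    fun i => LinearMap.mem_range.1 (b i).2
  choose y hy using hb
  refine ⟨_, y, fun i j => ?_, fun u => ?_⟩
  · rw [← SoLam_inner, hy, hy]
    have h1 := (orthonormal_iff_ite.1 b.orthonormal) i j
    exact h1
  · refine ⟨fun i => b.repr ⟨SoLam_vec h u, LinearMap.mem_range_self _ u⟩ i, ?_⟩
    apply SoLam_inj h
    rw [map_sum]
    have h1 := b.sum_repr ⟨SoLam_vec h u, LinearMap.mem_range_self _ u⟩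
    have h2 := congrArg (fun w : W => (w : EuclideanSpace ℝ (Fin k × Fin k))) h1
    dsimp only at h2
    refine h2.symm.trans ?_
    rw [Submodule.coe_sum]
    refine Finset.sum_congr rfl fun i _ => ?_
    rw [map_smul, hy]
    rfl

private theorem SoLam_dot_nonneg {m : ℕ} (v : Fin m → ℝ) : 0 ≤ v ⬝ᵥ v :=
  Finset.sum_nonneg fun i _ => mul_self_nonneg (v i)

/-- the value of the Casimir operator -/
private noncomputable def SoLam_F {m : ℕ} (y : Fin m → Matrix (Fin k) (Fin k) ℝ)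
    (v : Fin k → ℝ) : ℝ := ∑ i, (y i *ᵥ v) ⬝ᵥ (y i *ᵥ v)

private theorem SoLam_cont {m : ℕ} (y : Fin m → Matrix (Fin k) (Fin k) ℝ) :
    Continuous (SoLam_F y) := by
  unfold SoLam_F
  refine continuous_finsetSum _ fun i _ => ?_
  have h1 : Continuous fun v : Fin k → ℝ => y i *ᵥ v := Continuous.matrix_mulVec continuous_const continuous_id
  exact Continuous.dotProduct h1 h1

private theorem SoLam_smul {m : ℕ} (y : Fin m → Matrix (Fin k) (Fin k) ℝ) (t : ℝ)
    (v : Fin k → ℝ) : SoLam_F y (t • v) = t ^ 2 * SoLam_F y v := by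
  unfold SoLam_F
  rw [Finset.mul_sum]
  refine Finset.sum_congr rfl fun i _ => ?_
  rw [Matrix.mulVec_smul, smul_dotProduct, dotProduct_smul, smul_eq_mul, smul_eq_mul]
  ring

private theorem SoLam_nonneg {m : ℕ} (y : Fin m → Matrix (Fin k) (Fin k) ℝ)
    (v : Fin k → ℝ) : 0 ≤ SoLam_F y v :=
  Finset.sum_nonneg fun i _ => SoLam_dot_nonneg _

private theorem SoLam_min {m : ℕ} (y : Fin m → Matrix (Fin k) (Fin k) ℝ)
    (hy : ∀ v, (∀ i, y i *ᵥ v = 0) → v = 0) :
    ∃ c : ℝ, 0 < c ∧ ∀ v, c * (v ⬝ᵥ v) ≤ SoLam_F y v := by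
  let S : Set (Fin k → ℝ) := {v | v ⬝ᵥ v = 1}
  have hdc : Continuous fun v : Fin k → ℝ => v ⬝ᵥ v := Continuous.dotProduct continuous_id continuous_id
  have hSc : IsClosed S := isClosed_eq hdc continuous_const
  have hSb : Bornology.IsBounded S := by
    refine (Metric.isBounded_iff_subset_closedBall 0).2 ⟨1, fun v hv => ?_⟩
    rw [mem_closedBall_zero_iff, pi_norm_le_iff_of_nonneg zero_le_one]
    intro i
    have h1 : v i * v i ≤ v ⬝ᵥ v :=
      Finset.single_le_sum (f := fun i => v i * v i) (fun j _ => mul_self_nonneg (v j))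
        (Finset.mem_univ i)
    have h2 : v ⬝ᵥ v = 1 := hv
    rw [Real.norm_eq_abs]
    exact abs_le_one_iff_mul_self_le_one.2 (by linarith)
  have hS : IsCompact S := Metric.isCompact_of_isClosed_isBounded hSc hSb
  have hscale : ∀ v : Fin k → ℝ, v ≠ 0 → 0 < v ⬝ᵥ v := by
    intro v hv
    refine lt_of_le_of_ne (SoLam_dot_nonneg v) ?_
    intro h
    exact hv (dotProduct_self_eq_zero.1 h.symm)
  rcases S.eq_empty_or_nonempty with hE | hN
  · refine ⟨1, one_pos, fun v => ?_⟩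
    by_cases hv : v = 0
    · subst hv
      rw [dotProduct_zero, mul_zero]
      exact SoLam_nonneg y 0
    · exfalso
      have h1 := hscale v hv
      have h2 : (Real.sqrt (v ⬝ᵥ v))⁻¹ • v ∈ S := by
        show ((Real.sqrt (v ⬝ᵥ v))⁻¹ • v) ⬝ᵥ ((Real.sqrt (v ⬝ᵥ v))⁻¹ • v) = 1
        rw [smul_dotProduct, dotProduct_smul, smul_eq_mul, smul_eq_mul, ← mul_assoc, ← mul_inv,
          Real.mul_self_sqrt h1.le, inv_mul_cancel₀ h1.ne']
      rw [hE] at h2
      exact h2
  · obtain ⟨v₀, hv₀, hmin⟩ := hS.exists_isMinOn hN (SoLam_cont y).continuousOn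
    have hpos : 0 < SoLam_F y v₀ := by
      refine lt_of_le_of_ne (SoLam_nonneg y v₀) ?_
      intro h0
      have h1 : ∀ i, y i *ᵥ v₀ = 0 := by
        intro i
        have h2 := (Finset.sum_eq_zero_iff_of_nonneg (fun i _ =>
          SoLam_dot_nonneg (y i *ᵥ v₀))).1 h0.symm i (Finset.mem_univ i)
        exact dotProduct_self_eq_zero.1 h2
      have h3 := hy v₀ h1
      have h4 : v₀ ⬝ᵥ v₀ = 1 := hv₀
      rw [h3, dotProduct_zero] at h4
      exact zero_ne_one h4
    refine ⟨SoLam_F y v₀, hpos, fun v => ?_⟩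
    by_cases hv : v = 0
    · subst hv
      rw [dotProduct_zero, mul_zero]
      exact SoLam_nonneg y 0
    · have h1 := hscale v hv
      have h2 : (Real.sqrt (v ⬝ᵥ v))⁻¹ • v ∈ S := by
        show ((Real.sqrt (v ⬝ᵥ v))⁻¹ • v) ⬝ᵥ ((Real.sqrt (v ⬝ᵥ v))⁻¹ • v) = 1
        rw [smul_dotProduct, dotProduct_smul, smul_eq_mul, smul_eq_mul, ← mul_assoc, ← mul_inv,
          Real.mul_self_sqrt h1.le, inv_mul_cancel₀ h1.ne']
      have h3 : SoLam_F y v₀ ≤ SoLam_F y ((Real.sqrt (v ⬝ᵥ v))⁻¹ • v) := hmin h2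
      rw [SoLam_smul, inv_pow, Real.sq_sqrt h1.le, inv_mul_eq_div, le_div_iff₀ h1] at h3
      exact h3

theorem exists_lam {h : LieSubalgebra ℝ (so (Fin k) ℝ)}
    (hfix : ∀ v : Fin k → ℝ, (∀ u ∈ h, u.1 *ᵥ v = 0) → v = 0) :
    ∃ c : ℝ, 0 < c ∧ c ≤ 1 ∧ StdCasimirGE h c := by
  obtain ⟨m, y, hy1, hy2⟩ := SoLam_basis h
  obtain ⟨c, hc, hc'⟩ := SoLam_min (fun i => (y i).1.1) (by
    intro v hv
    refine hfix v fun u hu => ?_
    obtain ⟨d, hd⟩ := hy2 ⟨u, hu⟩
    have h1 : u.1 = ∑ i, d i • (y i).1.1 := by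
      have h2 := congrArg (fun w : h => w.1.1) hd
      dsimp only at h2
      rw [h2]
      have h3 : ∀ s : Finset (Fin m), (∑ i ∈ s, d i • y i : h).1.1 =
          ∑ i ∈ s, d i • (y i).1.1 := by
        classical
        intro s
        induction s using Finset.induction_on with
        | empty => rfl
        | insert a s ha ih =>
          rw [Finset.sum_insert ha, Finset.sum_insert ha, ← ih]
          rfl
      exact h3 Finset.univ
    rw [h1, Matrix.sum_mulVec]
    refine Finset.sum_eq_zero fun i _ => ?_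
    rw [Matrix.smul_mulVec, hv i, smul_zero])
  refine ⟨min c 1, lt_min hc one_pos, min_le_right _ _, m, fun i => (y i).1, fun i => (y i).2,
    hy1, fun v => ?_⟩
  refine le_trans ?_ (hc' v)
  exact mul_le_mul_of_nonneg_right (min_le_left _ _) (SoLam_dot_nonneg v)

end Pool.Agent.EinT
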