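import Pool.Agent.EinT.Main
import Pool.Agent.EinT.SoIdx
import Pool.Agent.EinT.SoGE
import Pool.Agent.EinT.SoLam

/-!
# The final theorems
-/

namespace Pool.Agent.EinT

open Matrix Pool.Agent.EStab Pool.Agent.EinS LieAlgebra.Orthogonal

/-- `SO(n + k)/H` for `H ⊆ SO(k)` whose Casimir operator on `ℝ^k` is at least `c`, explicit bound. -/
theorem einstein_so_explicit {n k : ℕ} (h3 : 3 ≤ n + k) (h : LieSubalgebra ℝ (so (Fin k) ℝ))
    {c : ℝ} (hc0 : 0 < c) (hck : c ≤ k) (hc : StdCasimirGE h c)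
    (hn : 90000 * (k : ℝ) ^ 3 ≤ c ^ 2 * (n + k - 2)) :
    HasEinsteinMetric (so (Fin n ⊕ Fin k) ℝ) (emb n h).toSubmodule
      (pairAuts (lower n k) (upper n k) (emb n h)) := by
  have hM : (0 : ℝ) < n + k - 2 := by
    have : (3 : ℝ) ≤ n + k := by exact_mod_cast h3
    linarith
  have hg : CompactSemisimple (so (Fin n ⊕ Fin k) ℝ) := so_compact' (by
    rw [Fintype.card_sum, Fintype.card_fin, Fintype.card_fin]
    exact h3)
  refine einstein_iso hg (so_symPair hM) (so_casimirLE h3) (so_indexLE h3) (emb_le n h)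
    (so_casimirGE h3 hc) (div_pos hc0 hM) ?_ ?_
  · gcongr
  · rw [div_pow, div_pow, ← mul_div_assoc, div_le_div_iff₀ (by positivity) (by positivity)]
    nlinarith [pow_pos hM 2]

private theorem Fin_zero {n : ℕ} (hn : 3 ≤ n) (h : LieSubalgebra ℝ (so (Fin 0) ℝ)) :
    HasEinsteinMetric (so (Fin n ⊕ Fin 0) ℝ) (emb n h).toSubmodule
      (pairAuts (lower n 0) (upper n 0) (emb n h)) := by
  have h3 : 3 ≤ n + 0 := hn
  have hM : (0 : ℝ) < n + (0 : ℕ) - 2 := by
    have : (3 : ℝ) ≤ n := by exact_mod_cast hn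
    rw [Nat.cast_zero]
    linarith
  have hg : CompactSemisimple (so (Fin n ⊕ Fin 0) ℝ) := so_compact' (by
    rw [Fintype.card_sum, Fintype.card_fin, Fintype.card_fin]
    exact h3)
  have h1 := so_casimirLE (n := n) (k := 0) h3
  have h2 := so_indexLE (n := n) (k := 0) h3
  have e0 : ((0 : ℕ) : ℝ) / (n + (0 : ℕ) - 2) ≤ 1 / 90000 := by
    rw [Nat.cast_zero, zero_div]
    norm_num
  refine einstein_iso hg (so_symPair hM) (e := 1 / 90000) (t := 1 / 90000) ?_ ?_ (emb_le n h)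
    ?_ (by norm_num) le_rfl (by norm_num)
  · intro m a ha hab
    obtain ⟨h4, h5⟩ := h1 m a ha hab
    exact ⟨fun x hx => (h4 x hx).trans (mul_le_mul_of_nonneg_right e0 (Qf_nonneg hg x)),
      fun x hx => (h5 x hx).trans (mul_le_mul_of_nonneg_right e0 (Qf_nonneg hg x))⟩
  · intro m b hb hab x hx
    exact (h2 m b hb hab x hx).trans (mul_le_mul_of_nonneg_right e0 (Qf_nonneg hg x))
  · refine ⟨0, fun i => i.elim0, fun i => i.elim0, fun i => i.elim0, fun x hx => ?_⟩
    obtain ⟨-, h4⟩ := off_diag hM hx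
    have h6 : x = 0 := by
      apply Subtype.ext
      ext i j
      rcases i with i | i
      · rcases j with j | j
        · exact h4 i j
        · exact j.elim0
      · exact i.elim0
    rw [h6]
    simp

/-- `SO(n + k)/H` for all `H ⊆ SO(k)` without fixed vectors and all large `n`. -/
theorem einstein_so_large (k : ℕ) (h : LieSubalgebra ℝ (so (Fin k) ℝ))
    (hfix : ∀ v : Fin k → ℝ, (∀ u ∈ h, u.1 *ᵥ v = 0) → v = 0) :
    ∃ n₀ : ℕ, ∀ n ≥ n₀, HasEinsteinMetric (so (Fin n ⊕ Fin k) ℝ) (emb n h).toSubmodule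
      (pairAuts (lower n k) (upper n k) (emb n h)) := by
  rcases Nat.eq_zero_or_pos k with hk | hk
  · subst hk
    exact ⟨3, fun n hn => Fin_zero hn h⟩
  · obtain ⟨c, hc0, hc1, hc⟩ := exists_lam hfix
    have hk1 : (1 : ℝ) ≤ k := by exact_mod_cast hk
    obtain ⟨n₀, hn₀⟩ := exists_nat_ge (90000 * (k : ℝ) ^ 3 / c ^ 2)
    refine ⟨n₀ + 3, fun n hn => ?_⟩
    have hn1 : (n₀ : ℝ) + 3 ≤ n := by exact_mod_cast hn
    refine einstein_so_explicit (by omega) h hc0 (hc1.trans hk1) hc ?_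
    rw [div_le_iff₀ (by positivity)] at hn₀
    have hc2 : 0 < c ^ 2 := by positivity
    nlinarith

end Pool.Agent.EinT
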