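import Pool.Agent.EinT.BndB
import Pool.Agent.EinT.BndPC
import Pool.Agent.EinT.Com

/-!
# The fixed point

As `exists_fixed` in `EinS/Fix.lean`: Brouwer's theorem (`Pool.Lib.brouwer_fixed_point_convex`) on the set of
triples `(B, P, C)` with the three bounds, `B * M z = M z * B`, `C * R z = R z * C` and invariant under all `Sym3`.
Nonempty: `((1 + a) • 1, 1, 1)` (`btw_smul_one`).  Invariance of the maps: `Phi1_inv`, `Phi2_inv`, `TT_inv`, `UU_inv`,
`conj_inv`; commutation: `comm_PhB`, `comm_PhC` (`Btw.det_ne`).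
-/

namespace Pool.Agent.EinT

open Matrix Pool.Agent.EinS

variable {q p r : Type*} [Fintype q] [DecidableEq q] [Fintype p] [DecidableEq p] [Fintype r]
  [DecidableEq r]

/-- The invariant triples of matrices in the box. -/
private def Fix_Box (N : q → Matrix p p ℝ) (S : q → Matrix q q ℝ) (M : r → Matrix p p ℝ)
    (R : r → Matrix r r ℝ) (s a : ℝ) :
    Set (Matrix p p ℝ × (Matrix q q ℝ × Matrix r r ℝ)) :=
  {z | Btw (1 + a) (1 + 3 * s) z.1 ∧ Btw (1 - 15 * s) (1 + 15 * s) z.2.1 ∧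
    Btw (1 - 12 * s ^ 3) (1 + 12 * s ^ 3) z.2.2 ∧ (∀ x, z.1 * M x = M x * z.1) ∧
    (∀ x, z.2.2 * R x = R x * z.2.2) ∧
    ∀ u v w, Sym3 N S M R u v w → v * z.1 * vᵀ = z.1 ∧ u * z.2.1 * uᵀ = z.2.1 ∧
      w * z.2.2 * wᵀ = z.2.2}

private theorem Fix_num {s a : ℝ} (h0 : 0 < a) (h1 : a ≤ s) (h2 : 300 * s ≤ 1) :
    0 < s ∧ 0 < 1 - 15 * s ∧ 0 < 1 - 12 * s ^ 3 ∧ 1 + 3 * s ≤ 2 ∧ 1 + 15 * s ≤ 2 ∧
      1 + 12 * s ^ 3 ≤ 2 ∧ 0 < s ^ 3 := by
  have hs : 0 < s := lt_of_lt_of_le h0 h1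
  have hs1 : s ≤ 1 := by linarith
  have h3 : s ^ 3 ≤ s := by
    have h4 : s ^ 2 ≤ 1 := pow_le_one₀ hs.le hs1
    calc s ^ 3 = s * s ^ 2 := by ring
      _ ≤ s * 1 := mul_le_mul_of_nonneg_left h4 hs.le
      _ = s := mul_one s
  have h5 : 0 < s ^ 3 := pow_pos hs 3
  refine ⟨hs, by linarith, by linarith, by linarith, by linarith, by linarith, h5⟩

private theorem Fix_PhB_inv {N : q → Matrix p p ℝ} {S : q → Matrix q q ℝ} {M : r → Matrix p p ℝ}
    {R : r → Matrix r r ℝ} {u : Matrix q q ℝ} {v : Matrix p p ℝ} {w : Matrix r r ℝ}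
    (h : Sym3 N S M R u v w) {B : Matrix p p ℝ} {P : Matrix q q ℝ} {C : Matrix r r ℝ}
    (hB : v * B * vᵀ = B) (hP : u * P * uᵀ = P) (hC : w * C * wᵀ = C) :
    v * PhB N M B P C * vᵀ = PhB N M B P C := by
  have hv' : vᵀ * v = 1 := mul_eq_one_comm.1 h.sym.v1
  unfold PhB
  rw [Matrix.mul_smul, Matrix.smul_mul, Matrix.mul_sub, Matrix.sub_mul,
    Phi1_inv h.sym hB hP, TT_inv hv' h.hM hC (conj_inv h.sym.v1 hB)]

private theorem Fix_PhP_inv {N : q → Matrix p p ℝ} {S : q → Matrix q q ℝ} {M : r → Matrix p p ℝ}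
    {R : r → Matrix r r ℝ} {u : Matrix q q ℝ} {v : Matrix p p ℝ} {w : Matrix r r ℝ}
    (h : Sym3 N S M R u v w) {B : Matrix p p ℝ} {P : Matrix q q ℝ}
    (hB : v * B * vᵀ = B) (hP : u * P * uᵀ = P) :
    u * PhP N S B P * uᵀ = PhP N S B P := by
  unfold PhP
  rw [Matrix.mul_smul, Matrix.smul_mul, Phi2_inv h.sym hB hP]

private theorem Fix_PhC_inv {N : q → Matrix p p ℝ} {S : q → Matrix q q ℝ} {M : r → Matrix p p ℝ}
    {R : r → Matrix r r ℝ} {u : Matrix q q ℝ} {v : Matrix p p ℝ} {w : Matrix r r ℝ}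
    (h : Sym3 N S M R u v w) {B : Matrix p p ℝ} {C : Matrix r r ℝ}
    (hB : v * B * vᵀ = B) (hC : w * C * wᵀ = C) :
    w * PhC M R B C * wᵀ = PhC M R B C := by
  have hw' : wᵀ * w = 1 := mul_eq_one_comm.1 h.w1
  have hI := conj_inv h.sym.v1 hB
  have h1 : w * (1 : Matrix r r ℝ) * wᵀ = 1 := by rw [Matrix.mul_one, h.w1]
  have hC' : w * C = C * w := by
    calc w * C = w * C * (wᵀ * w) := by rw [hw', Matrix.mul_one]
      _ = (w * C * wᵀ) * w := by simp only [Matrix.mul_assoc]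
      _ = C * w := by rw [hC]
  have hC'' : C * wᵀ = wᵀ * C := by
    calc C * wᵀ = (wᵀ * w) * C * wᵀ := by rw [hw', Matrix.one_mul]
      _ = wᵀ * (w * C * wᵀ) := by simp only [Matrix.mul_assoc]
      _ = wᵀ * C := by rw [hC]
  unfold PhC
  rw [Matrix.mul_add, Matrix.add_mul, UU_inv h.w1 h.w1 h.hR h1 h1]
  congr 1
  calc w * (C * UU M B⁻¹ B⁻¹ * C) * wᵀ = (w * C) * UU M B⁻¹ B⁻¹ * (C * wᵀ) := by
        simp only [Matrix.mul_assoc]
    _ = C * (w * UU M B⁻¹ B⁻¹ * wᵀ) * C := by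
        rw [hC', hC'']
        simp only [Matrix.mul_assoc]
    _ = C * UU M B⁻¹ B⁻¹ * C := by rw [UU_inv h.sym.v1 h.w1 h.hM hI hI]

private theorem Fix_isCompact {N : q → Matrix p p ℝ} {S : q → Matrix q q ℝ}
    {M : r → Matrix p p ℝ} {R : r → Matrix r r ℝ} {s a : ℝ} (h0 : 0 < a) (h1 : a ≤ s)
    (h2 : 300 * s ≤ 1) : IsCompact (Fix_Box N S M R s a) := by
  obtain ⟨hs, n1, n2, n3, n4, n5, n6⟩ := Fix_num h0 h1 h2
  have hK : IsCompact {z : Matrix p p ℝ × (Matrix q q ℝ × Matrix r r ℝ) |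
      (∀ i j, z.1 i j ∈ Set.Icc (-2 : ℝ) 2) ∧ ((∀ i j, z.2.1 i j ∈ Set.Icc (-2 : ℝ) 2) ∧
        ∀ i j, z.2.2 i j ∈ Set.Icc (-2 : ℝ) 2)} :=
    (isCompact_entries p).prod ((isCompact_entries q).prod (isCompact_entries r))
  refine hK.of_isClosed_subset ?_ ?_
  · have h3 : Fix_Box N S M R s a = (Prod.fst ⁻¹' {A | Btw (1 + a) (1 + 3 * s) A}) ∩
        (((fun z => z.2.1) ⁻¹' {A | Btw (1 - 15 * s) (1 + 15 * s) A}) ∩
        (((fun z => z.2.2) ⁻¹' {A | Btw (1 - 12 * s ^ 3) (1 + 12 * s ^ 3) A}) ∩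
        ((⋂ x : r, {z | z.1 * M x = M x * z.1}) ∩
        ((⋂ x : r, {z | z.2.2 * R x = R x * z.2.2}) ∩
        ⋂ u : Matrix q q ℝ, ⋂ v : Matrix p p ℝ, ⋂ w : Matrix r r ℝ, ⋂ _ : Sym3 N S M R u v w,
          ({z : Matrix p p ℝ × (Matrix q q ℝ × Matrix r r ℝ) | v * z.1 * vᵀ = z.1} ∩
            ({z | u * z.2.1 * uᵀ = z.2.1} ∩ {z | w * z.2.2 * wᵀ = z.2.2})))))) := by
      ext z
      simp only [Fix_Box, Set.mem_setOf_eq, Set.mem_inter_iff, Set.mem_preimage, Set.mem_iInter]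
    have c1 : Continuous fun z : Matrix p p ℝ × (Matrix q q ℝ × Matrix r r ℝ) => z.1 :=
      continuous_fst
    have c2 : Continuous fun z : Matrix p p ℝ × (Matrix q q ℝ × Matrix r r ℝ) => z.2.1 :=
      continuous_fst.comp continuous_snd
    have c3 : Continuous fun z : Matrix p p ℝ × (Matrix q q ℝ × Matrix r r ℝ) => z.2.2 :=
      continuous_snd.comp continuous_snd
    rw [h3]
    refine IsClosed.inter ((isClosed_btw _ _).preimage c1)
      (IsClosed.inter ((isClosed_btw _ _).preimage c2)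
      (IsClosed.inter ((isClosed_btw _ _).preimage c3)
      (IsClosed.inter (isClosed_iInter fun x => ?_)
      (IsClosed.inter (isClosed_iInter fun x => ?_)
      (isClosed_iInter fun u => isClosed_iInter fun v => isClosed_iInter fun w =>
        isClosed_iInter fun _ => ?_)))))
    · exact isClosed_eq (Continuous.matrix_mul c1 continuous_const)
        (Continuous.matrix_mul continuous_const c1)
    · exact isClosed_eq (Continuous.matrix_mul c3 continuous_const)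
        (Continuous.matrix_mul continuous_const c3)
    · refine IsClosed.inter (isClosed_eq ?_ c1) (IsClosed.inter (isClosed_eq ?_ c2)
        (isClosed_eq ?_ c3))
      · exact Continuous.matrix_mul (Continuous.matrix_mul continuous_const c1)
          continuous_const
      · exact Continuous.matrix_mul (Continuous.matrix_mul continuous_const c2)
          continuous_const
      · exact Continuous.matrix_mul (Continuous.matrix_mul continuous_const c3)
          continuous_const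
  · rintro z ⟨h3, h4, h5, -⟩
    refine ⟨fun i j => ?_, fun i j => ?_, fun i j => ?_⟩
    · have := h3.entry (by linarith) (by linarith) i j
      rw [abs_le] at this
      constructor <;> linarith
    · have := h4.entry n1.le (by linarith) i j
      rw [abs_le] at this
      constructor <;> linarith
    · have := h5.entry n2.le (by linarith) i j
      rw [abs_le] at this
      constructor <;> linarith

theorem exists_fixed3 {N : q → Matrix p p ℝ} {S : q → Matrix q q ℝ} {M : r → Matrix p p ℝ}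
    {R : r → Matrix r r ℝ} {s a : ℝ} (h : Dat N S M R s a) :
    ∃ (B : Matrix p p ℝ) (P : Matrix q q ℝ) (C : Matrix r r ℝ), Btw (1 + a) (1 + 3 * s) B ∧
      Btw (1 - 15 * s) (1 + 15 * s) P ∧ Btw (1 - 12 * s ^ 3) (1 + 12 * s ^ 3) C ∧
      (∀ z, B * M z = M z * B) ∧ (∀ z, C * R z = R z * C) ∧
      (∀ u v w, Sym3 N S M R u v w → v * B * vᵀ = B ∧ u * P * uᵀ = P ∧ w * C * wᵀ = C) ∧
      PhB N M B P C = B ∧ PhP N S B P = P ∧ PhC M R B C = C := by
  obtain ⟨hs, n1, n2, n3, n4, n5, n6⟩ := Fix_num h.a0 h.as h.s1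
  have ha1 : (0 : ℝ) < 1 + a := by linarith [h.a0]
  have hconv : Convex ℝ (Fix_Box N S M R s a) := by
    rintro z ⟨z1, z2, z3, z4, z5, z6⟩ w ⟨w1, w2, w3, w4, w5, w6⟩ c d hc hd hcd
    refine ⟨z1.convex w1 hc hd hcd, z2.convex w2 hc hd hcd, z3.convex w3 hc hd hcd,
      fun x => ?_, fun x => ?_, fun u v y huv => ⟨?_, ?_, ?_⟩⟩
    · change (c • z.1 + d • w.1) * M x = M x * (c • z.1 + d • w.1)
      rw [Matrix.mul_add, Matrix.add_mul, Matrix.mul_smul, Matrix.mul_smul, Matrix.smul_mul,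
        Matrix.smul_mul, z4, w4]
    · change (c • z.2.2 + d • w.2.2) * R x = R x * (c • z.2.2 + d • w.2.2)
      rw [Matrix.mul_add, Matrix.add_mul, Matrix.mul_smul, Matrix.mul_smul, Matrix.smul_mul,
        Matrix.smul_mul, z5, w5]
    · change v * (c • z.1 + d • w.1) * vᵀ = c • z.1 + d • w.1
      rw [Matrix.mul_add, Matrix.add_mul, Matrix.mul_smul, Matrix.mul_smul, Matrix.smul_mul,
        Matrix.smul_mul, (z6 u v y huv).1, (w6 u v y huv).1]
    · change u * (c • z.2.1 + d • w.2.1) * uᵀ = c • z.2.1 + d • w.2.1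
      rw [Matrix.mul_add, Matrix.add_mul, Matrix.mul_smul, Matrix.mul_smul, Matrix.smul_mul,
        Matrix.smul_mul, (z6 u v y huv).2.1, (w6 u v y huv).2.1]
    · change y * (c • z.2.2 + d • w.2.2) * yᵀ = c • z.2.2 + d • w.2.2
      rw [Matrix.mul_add, Matrix.add_mul, Matrix.mul_smul, Matrix.mul_smul, Matrix.smul_mul,
        Matrix.smul_mul, (z6 u v y huv).2.2, (w6 u v y huv).2.2]
  have hne : (Fix_Box N S M R s a).Nonempty := by
    refine ⟨((1 + a) • 1, ((1 : ℝ) • 1, (1 : ℝ) • 1)),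
      btw_smul_one le_rfl (by linarith [h.as]),
      btw_smul_one (by linarith) (by linarith), btw_smul_one (by linarith) (by linarith),
      fun x => ?_, fun x => ?_, fun u v w huv => ⟨?_, ?_, ?_⟩⟩
    · change ((1 + a) • (1 : Matrix p p ℝ)) * M x = M x * ((1 + a) • 1)
      rw [Matrix.mul_smul, Matrix.smul_mul, Matrix.mul_one, Matrix.one_mul]
    · change ((1 : ℝ) • (1 : Matrix r r ℝ)) * R x = R x * ((1 : ℝ) • 1)
      rw [Matrix.mul_smul, Matrix.smul_mul, Matrix.mul_one, Matrix.one_mul]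
    · change v * ((1 + a) • 1) * vᵀ = (1 + a) • 1
      rw [Matrix.mul_smul, Matrix.smul_mul, Matrix.mul_one, huv.sym.v1]
    · change u * ((1 : ℝ) • 1) * uᵀ = (1 : ℝ) • 1
      rw [Matrix.mul_smul, Matrix.smul_mul, Matrix.mul_one, huv.sym.u1]
    · change w * ((1 : ℝ) • 1) * wᵀ = (1 : ℝ) • 1
      rw [Matrix.mul_smul, Matrix.smul_mul, Matrix.mul_one, huv.w1]
  have hB : ContinuousOn (fun z : Matrix p p ℝ × (Matrix q q ℝ × Matrix r r ℝ) => z.1)
      (Fix_Box N S M R s a) := continuous_fst.continuousOn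
  have hP : ContinuousOn (fun z : Matrix p p ℝ × (Matrix q q ℝ × Matrix r r ℝ) => z.2.1)
      (Fix_Box N S M R s a) := (continuous_fst.comp continuous_snd).continuousOn
  have hC : ContinuousOn (fun z : Matrix p p ℝ × (Matrix q q ℝ × Matrix r r ℝ) => z.2.2)
      (Fix_Box N S M R s a) := (continuous_snd.comp continuous_snd).continuousOn
  have hR : ContinuousOn (fun z : Matrix p p ℝ × (Matrix q q ℝ × Matrix r r ℝ) => z.1⁻¹)
      (Fix_Box N S M R s a) :=
    (continuousOn_inv (a := 1 + a) (b := 1 + 3 * s) ha1).comp hB fun z hz => hz.1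
  have hD : ContinuousOn (fun z : Matrix p p ℝ × (Matrix q q ℝ × Matrix r r ℝ) => z.2.1⁻¹)
      (Fix_Box N S M R s a) :=
    (continuousOn_inv (a := 1 - 15 * s) (b := 1 + 15 * s) n1).comp hP fun z hz => hz.2.1
  have h1 : ContinuousOn (fun z : Matrix p p ℝ × (Matrix q q ℝ × Matrix r r ℝ) =>
      PhB N M z.1 z.2.1 z.2.2) (Fix_Box N S M R s a) := by
    unfold PhB Phi1
    refine ContinuousOn.const_smul (ContinuousOn.sub ?_ (continuousOn_TT M hC hR)) (2 : ℝ)
    exact ((continuousOn_const.sub (continuousOn_TT N hD hR)).sub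
      (continuousOn_TT N hP hB)).add
      (continuousOn_mul' (continuousOn_mul' hB (continuousOn_TT N hP hR)) hB)
  have h2 : ContinuousOn (fun z : Matrix p p ℝ × (Matrix q q ℝ × Matrix r r ℝ) =>
      PhP N S z.1 z.2.1) (Fix_Box N S M R s a) := by
    unfold PhP Phi2
    have c1 : ContinuousOn (fun z : Matrix p p ℝ × (Matrix q q ℝ × Matrix r r ℝ) =>
        (1 / 2 : ℝ) • UU N z.1⁻¹ z.1⁻¹) (Fix_Box N S M R s a) :=
      ContinuousOn.const_smul (continuousOn_UU N hR hR) (1 / 2 : ℝ)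
    have c2 : ContinuousOn (fun z : Matrix p p ℝ × (Matrix q q ℝ × Matrix r r ℝ) =>
        (1 / 2 : ℝ) • UU S z.2.1 z.2.1) (Fix_Box N S M R s a) :=
      ContinuousOn.const_smul (continuousOn_UU S hP hP) (1 / 2 : ℝ)
    exact ContinuousOn.const_smul
      ((c1.add (continuousOn_mul' (continuousOn_mul' hP ((continuousOn_const.sub
        (continuousOn_UU N hB hR)).sub (continuousOn_UU S hD hP))) hP)).add c2) (2 : ℝ)
  have h3 : ContinuousOn (fun z : Matrix p p ℝ × (Matrix q q ℝ × Matrix r r ℝ) =>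
      PhC M R z.1 z.2.2) (Fix_Box N S M R s a) := by
    unfold PhC
    exact continuousOn_const.add
      (continuousOn_mul' (continuousOn_mul' hC (continuousOn_UU M hR hR)) hC)
  obtain ⟨z, ⟨z1, z2, z3, z4, z5, z6⟩, hz⟩ := Pool.Lib.brouwer_fixed_point_convex
    (Fix_isCompact h.a0 h.as h.s1) hconv hne
    (f := fun z => (PhB N M z.1 z.2.1 z.2.2, (PhP N S z.1 z.2.1, PhC M R z.1 z.2.2)))
    (h1.prodMk (h2.prodMk h3)) (fun z hz => by
      obtain ⟨z1, z2, z3, z4, z5, z6⟩ := hz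
      have hdet : IsUnit z.1.det := isUnit_iff_ne_zero.2 (z1.det_ne ha1)
      exact ⟨PhB_btw h z1 z2 z3, PhP_btw h z1 z2, PhC_btw h z1 z3,
        fun x => comm_PhB h hdet z4 z5 x, fun x => comm_PhC h hdet z4 z5 x,
        fun u v w huv => ⟨Fix_PhB_inv huv (z6 u v w huv).1 (z6 u v w huv).2.1
            (z6 u v w huv).2.2,
          Fix_PhP_inv huv (z6 u v w huv).1 (z6 u v w huv).2.1,
          Fix_PhC_inv huv (z6 u v w huv).1 (z6 u v w huv).2.2⟩⟩)
  exact ⟨z.1, z.2.1, z.2.2, z1, z2, z3, z4, z5, z6, congrArg Prod.fst hz,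
    congrArg (fun y => y.2.1) hz, congrArg (fun y => y.2.2) hz⟩

end Pool.Agent.EinT
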