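import Pool.Agent.EinT.Pair

/-!
# The frame of the complement of `h`, automorphisms

Copy and adapt `Setup.structure`, `Setup.m_eq`, `Setup.fm`, `Setup.CF_eq`, `Setup.sym`, `Setup.mat_em` of `EinS/Pair.lean`,
`EinS/Inv.lean`.  Here `perp h = (k ∩ h^⊥) ⊕ l ⊕ p`; `⟪k, l⟫ = 0`, `[k, l] = 0`, `[p, p] ⊥ p`.
-/

namespace Pool.Agent.EinT

open Matrix Pool.Agent.EStab Pool.Agent.EinS

variable {L : Type*} [LieRing L] [LieAlgebra ℝ L] {k l h : LieSubalgebra ℝ L}
  {nh nl nq np : ℕ} {eh : Fin nh → L} {el : Fin nl → L} {a : Fin nq → L} {f : Fin np → L}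

private theorem Frm_eq (st : Setup3 k l h eh el a f) :
    ((k.toSubmodule ⊓ perp h.toSubmodule) ⊔ l.toSubmodule) ⊔
      perp (k.toSubmodule ⊔ l.toSubmodule) = perp h.toSubmodule := by
  apply le_antisymm
  · refine sup_le (sup_le inf_le_right ?_) ?_
    · intro x hx y hy
      rw [Qf_symm]
      exact st.orth_kl (st.le hy) hx
    · intro x hx y hy
      exact hx y (Submodule.mem_sup_left (st.le hy))
  · intro x hx
    have h1 := st.full.exp x Submodule.mem_top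
    rw [Fintype.sum_sum_type, Fintype.sum_sum_type, Fintype.sum_sum_type] at h1
    simp only [Sum.elim_inl, Sum.elim_inr] at h1
    have h2 : ∑ e, Qf L x (eh e) • eh e = 0 := by
      refine Finset.sum_eq_zero fun e _ => ?_
      rw [hx _ (st.fh.mem e), zero_smul]
    rw [h2, zero_add] at h1
    rw [h1]
    refine Submodule.add_mem_sup (Submodule.add_mem_sup ?_ ?_) ?_
    · exact Submodule.sum_mem _ fun i _ => Submodule.smul_mem _ _ (st.fq.mem i)
    · exact Submodule.sum_mem _ fun i _ => Submodule.smul_mem _ _ (st.fl.mem i)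
    · exact Submodule.sum_mem _ fun i _ => Submodule.smul_mem _ _ (st.fp.mem i)

theorem Setup3.frame [Module.Finite ℝ L] (st : Setup3 k l h eh el a f) :
    IsFrame (perp h.toSubmodule) (em3 a el f) := by
  rw [← Frm_eq st]
  refine (st.fq.sum st.fl fun x hx y hy => st.orth_kl hx.1 hy).sum st.fp fun x hx y hy => ?_
  obtain ⟨u, hu, v, hv, rfl⟩ := Submodule.mem_sup.1 hx
  rw [map_add, LinearMap.add_apply, st.orth_kp hu.1 hy, st.orth_lp hv hy, add_zero]

private theorem Frm_structure (st : Setup3 k l h eh el a f)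
    (x y z : (Fin nq ⊕ Fin nl) ⊕ Fin np) :
    Qf L ⁅em3 a el f x, em3 a el f y⁆ (em3 a el f z) =
      CC (Sum.elim (NN' a f) (NN' el f)) (SR (SS' a) (SS' el)) x y z := by
  rcases x with (s | s) | i <;> rcases y with (t | t) | j <;> rcases z with (r | r) | m
  -- `x = a s`
  · rfl
  · change Qf L ⁅a s, a t⁆ (el r) = 0
    exact st.orth_kl (k.lie_mem (st.mem_k s) (st.mem_k t)) (st.mem_l r)
  · change Qf L ⁅a s, a t⁆ (f m) = 0
    exact st.orth_kp (k.lie_mem (st.mem_k s) (st.mem_k t)) (st.fp.mem m)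
  · change Qf L ⁅a s, el t⁆ (a r) = 0
    rw [st.pair.comm _ (st.mem_k s) _ (st.mem_l t), map_zero, LinearMap.zero_apply]
  · change Qf L ⁅a s, el t⁆ (el r) = 0
    rw [st.pair.comm _ (st.mem_k s) _ (st.mem_l t), map_zero, LinearMap.zero_apply]
  · change Qf L ⁅a s, el t⁆ (f m) = 0
    rw [st.pair.comm _ (st.mem_k s) _ (st.mem_l t), map_zero, LinearMap.zero_apply]
  · change Qf L ⁅a s, f j⁆ (a r) = 0
    rw [Qf_symm]
    exact st.orth_kp (st.mem_k r) (st.lie_kp (st.mem_k s) (st.fp.mem j))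
  · change Qf L ⁅a s, f j⁆ (el r) = 0
    rw [Qf_symm]
    exact st.orth_lp (st.mem_l r) (st.lie_kp (st.mem_k s) (st.fp.mem j))
  · rfl
  -- `x = el s`
  · change Qf L ⁅el s, a t⁆ (a r) = 0
    rw [st.lie_lk (st.mem_l s) (st.mem_k t), map_zero, LinearMap.zero_apply]
  · change Qf L ⁅el s, a t⁆ (el r) = 0
    rw [st.lie_lk (st.mem_l s) (st.mem_k t), map_zero, LinearMap.zero_apply]
  · change Qf L ⁅el s, a t⁆ (f m) = 0
    rw [st.lie_lk (st.mem_l s) (st.mem_k t), map_zero, LinearMap.zero_apply]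
  · change Qf L ⁅el s, el t⁆ (a r) = 0
    rw [Qf_symm]
    exact st.orth_kl (st.mem_k r) (l.lie_mem (st.mem_l s) (st.mem_l t))
  · rfl
  · change Qf L ⁅el s, el t⁆ (f m) = 0
    exact st.orth_lp (l.lie_mem (st.mem_l s) (st.mem_l t)) (st.fp.mem m)
  · change Qf L ⁅el s, f j⁆ (a r) = 0
    rw [Qf_symm]
    exact st.orth_kp (st.mem_k r) (st.lie_lp (st.mem_l s) (st.fp.mem j))
  · change Qf L ⁅el s, f j⁆ (el r) = 0
    rw [Qf_symm]
    exact st.orth_lp (st.mem_l r) (st.lie_lp (st.mem_l s) (st.fp.mem j))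
  · rfl
  -- `x = f i`
  · change Qf L ⁅f i, a t⁆ (a r) = 0
    rw [← lie_skew, map_neg, LinearMap.neg_apply, Qf_symm,
      st.orth_kp (st.mem_k r) (st.lie_kp (st.mem_k t) (st.fp.mem i)), neg_zero]
  · change Qf L ⁅f i, a t⁆ (el r) = 0
    rw [← lie_skew, map_neg, LinearMap.neg_apply, Qf_symm,
      st.orth_lp (st.mem_l r) (st.lie_kp (st.mem_k t) (st.fp.mem i)), neg_zero]
  · change Qf L ⁅f i, a t⁆ (f m) = -Qf L ⁅a t, f i⁆ (f m)
    rw [← lie_skew, map_neg, LinearMap.neg_apply]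
  · change Qf L ⁅f i, el t⁆ (a r) = 0
    rw [← lie_skew, map_neg, LinearMap.neg_apply, Qf_symm,
      st.orth_kp (st.mem_k r) (st.lie_lp (st.mem_l t) (st.fp.mem i)), neg_zero]
  · change Qf L ⁅f i, el t⁆ (el r) = 0
    rw [← lie_skew, map_neg, LinearMap.neg_apply, Qf_symm,
      st.orth_lp (st.mem_l r) (st.lie_lp (st.mem_l t) (st.fp.mem i)), neg_zero]
  · change Qf L ⁅f i, el t⁆ (f m) = -Qf L ⁅el t, f i⁆ (f m)
    rw [← lie_skew, map_neg, LinearMap.neg_apply]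
  · change Qf L ⁅f i, f j⁆ (a r) = Qf L ⁅a r, f i⁆ (f j)
    rw [Qf_symm, ← Qf_lie]
  · change Qf L ⁅f i, f j⁆ (el r) = Qf L ⁅el r, f i⁆ (f j)
    rw [Qf_symm, ← Qf_lie]
  · change Qf L ⁅f i, f j⁆ (f m) = 0
    rw [Qf_apply, st.pair.symm _ _ _ (orth_iff.2 (st.fp.mem i)) (orth_iff.2 (st.fp.mem j))
      (orth_iff.2 (st.fp.mem m)), neg_zero]

theorem Setup3.CF_eq (st : Setup3 k l h eh el a f) :
    CF (em3 a el f) = CC (Sum.elim (NN' a f) (NN' el f)) (SR (SS' a) (SS' el)) := by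
  funext x
  ext y z
  exact Frm_structure st x y z

theorem Setup3.sym (st : Setup3 k l h eh el a f) {δ : L ≃ₗ⁅ℝ⁆ L} (hk : Pres δ k.toSubmodule)
    (hl : Pres δ l.toSubmodule) (hh : Pres δ h.toSubmodule) :
    Sym3 (NN' a f) (SS' a) (NN' el f) (SS' el) (mat δ a) (mat δ f) (mat δ el) := by
  have hq : Pres δ (k.toSubmodule ⊓ EinS.perp h.toSubmodule) := hk.inf hh.perp
  have hp : Pres δ (EinS.perp (k.toSubmodule ⊔ l.toSubmodule)) := (hk.sup hl).perp
  refine ⟨⟨mat_orth st.fq hq, mat_orth st.fp hp, fun s => ?_, fun s => ?_⟩,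
    mat_orth st.fl hl, fun z => ?_, fun z => ?_⟩
  · change mat δ f * adm f (a s) * (mat δ f)ᵀ = _
    rw [adm_equiv st.fp hp, apply_frame st.fq hq, adm_sum]
    rfl
  · change mat δ a * adm a (a s) * (mat δ a)ᵀ = _
    rw [adm_equiv st.fq hq, apply_frame st.fq hq, adm_sum]
    rfl
  · change mat δ f * adm f (el z) * (mat δ f)ᵀ = _
    rw [adm_equiv st.fp hp, apply_frame st.fl hl, adm_sum]
    rfl
  · change mat δ el * adm el (el z) * (mat δ el)ᵀ = _
    rw [adm_equiv st.fl hl, apply_frame st.fl hl, adm_sum]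
    rfl

theorem Setup3.mat_eq (st : Setup3 k l h eh el a f) {δ : L ≃ₗ⁅ℝ⁆ L}
    (hk : Pres δ k.toSubmodule) (hl : Pres δ l.toSubmodule) (hh : Pres δ h.toSubmodule) :
    mat δ (em3 a el f) = fromBlocks (fromBlocks (mat δ a) 0 0 (mat δ el)) 0 0 (mat δ f) := by
  have hp : Pres δ (EinS.perp (k.toSubmodule ⊔ l.toSubmodule)) := (hk.sup hl).perp
  have _hq : Pres δ (k.toSubmodule ⊓ EinS.perp h.toSubmodule) := hk.inf hh.perp
  ext x y
  rcases x with (s | s) | i <;> rcases y with (t | t) | j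
  · rfl
  · change Qf L (δ (el t)) (a s) = 0
    rw [Qf_symm]
    exact st.orth_kl (st.mem_k s) (hl.1 _ (st.mem_l t))
  · change Qf L (δ (f j)) (a s) = 0
    rw [Qf_symm]
    exact st.orth_kp (st.mem_k s) (hp.1 _ (st.fp.mem j))
  · change Qf L (δ (a t)) (el s) = 0
    exact st.orth_kl (hk.1 _ (st.mem_k t)) (st.mem_l s)
  · rfl
  · change Qf L (δ (f j)) (el s) = 0
    rw [Qf_symm]
    exact st.orth_lp (st.mem_l s) (hp.1 _ (st.fp.mem j))
  · change Qf L (δ (a t)) (f i) = 0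
    exact st.orth_kp (hk.1 _ (st.mem_k t)) (st.fp.mem i)
  · change Qf L (δ (el t)) (f i) = 0
    exact st.orth_lp (hl.1 _ (st.mem_l t)) (st.fp.mem i)
  · rfl

end Pool.Agent.EinT
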