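import Pool.Agent.EinS.Main

/-!
# From the matrix of a metric to `HasEinsteinMetric`

This is the common last part of `EinS.einstein_pair` (`EinS/Main.lean`) and of `small_isotropy` (`SmIso/Asm.lean`): copy it.
-/

namespace Pool.Agent.EinT

open Matrix Pool.Agent.EStab Pool.Agent.EinS

variable {L : Type*} [LieRing L] [LieAlgebra ℝ L]

theorem hasEinstein [Module.Finite ℝ L] (hg : CompactSemisimple L) {W : Submodule ℝ L}
    (hW : ∀ x ∈ W, ∀ y ∈ W, ⁅x, y⁆ ∈ W) {ι : Type*} [Fintype ι] [DecidableEq ι] {e : ι → L}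
    (he : IsFrame (perp W) e) {G Gi : Matrix ι ι ℝ} (hGs : G.IsSymm)
    (hG0 : ∀ x : ι → ℝ, 0 ≤ x ⬝ᵥ (G *ᵥ x)) (hGG : G * Gi = 1) {Γ : Set (L →ₗ[ℝ] L)}
    (hΓ : ∀ γ ∈ Γ, ∃ δ : L ≃ₗ⁅ℝ⁆ L, (∀ x, γ x = δ x) ∧ Pres δ W ∧
      mat δ e * G * (mat δ e)ᵀ = G) {c : ℝ} (hc : 0 < c) (hRic : RicM (CF e) G Gi = c • G) :
    HasEinsteinMetric L W Γ := by
  classical
  have hGd : G.det ≠ 0 := by
    intro h0
    have h1 := congrArg Matrix.det hGG
    rw [Matrix.det_mul, h0, zero_mul, Matrix.det_one] at h1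
    exact one_ne_zero h1.symm
  obtain ⟨E, hE⟩ := exists_orthonormal hGs hG0 hGd
  have hEd : E.det ≠ 0 := by
    intro h0
    have h1 := congrArg Matrix.det hE
    rw [Matrix.det_mul, h0, mul_zero, Matrix.det_one] at h1
    exact one_ne_zero h1.symm
  have hEE : E * E⁻¹ = 1 := Matrix.mul_nonsing_inv _ (isUnit_iff_ne_zero.2 hEd)
  refine ⟨perp W, prj e, bet e G, Fintype.card ι, fun i => XE e E ((Fintype.equivFin ι).symm i), c,
    ?_, ?_, ?_, ?_, ?_, ?_, ?_, ?_, ?_, hc, ?_⟩
  · -- complement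
    obtain ⟨n, w, hw⟩ := exists_frame hg W
    constructor
    · rw [Submodule.disjoint_def]
      intro x hx hx'
      exact Qf_eq_zero hg (hx' x hx)
    · rw [codisjoint_iff, eq_top_iff]
      intro x _
      have h3 : x = (∑ i, Qf L x (w i) • w i) + (x - ∑ i, Qf L x (w i) • w i) := by abel
      rw [h3]
      exact Submodule.add_mem_sup (frame_mem hw _) (hw.sub_mem_perp x)
  · intro y hy
    rw [prj_apply]
    refine Finset.sum_eq_zero fun x _ => ?_
    rw [Qf_symm, he.mem x y hy, zero_smul]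
  · intro x hx
    exact (he.exp x hx).symm
  · intro y hy x hx z hz
    rw [Qf_lie', hx _ (hW y hy z hz), neg_zero]
  · intro γ hγΓ x hx
    obtain ⟨δ, hγ, hWδ, -⟩ := hΓ γ hγΓ
    rw [hγ]
    exact hWδ.perp.1 x hx
  · intro γ hγΓ x hx y hy
    obtain ⟨δ, hγ, hWδ, hMG⟩ := hΓ γ hγΓ
    have hWp : Pres δ (perp W) := hWδ.perp
    rw [hγ, hγ, bet_apply, bet_apply, co_equiv he hWp, co_equiv he hWp]
    have hM := mat_orth he hWp
    have hM' : (mat δ e)ᵀ * mat δ e = 1 := mul_eq_one_comm.1 hM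
    have hMG' : (mat δ e)ᵀ * (G * mat δ e) = G := by
      calc (mat δ e)ᵀ * (G * mat δ e)
          = (mat δ e)ᵀ * (mat δ e * G * (mat δ e)ᵀ * mat δ e) := by rw [hMG]
        _ = ((mat δ e)ᵀ * mat δ e) * G * ((mat δ e)ᵀ * mat δ e) := by
            simp only [Matrix.mul_assoc]
        _ = G := by rw [hM', Matrix.one_mul, Matrix.mul_one]
    have h5 : ∀ a b : ι → ℝ, (mat δ e *ᵥ a) ⬝ᵥ (G *ᵥ (mat δ e *ᵥ b)) = a ⬝ᵥ (G *ᵥ b) := by
      intro a b
      rw [Matrix.mulVec_mulVec]
      have h6 : (mat δ e *ᵥ a) ⬝ᵥ ((G * mat δ e) *ᵥ b) =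
          a ⬝ᵥ ((mat δ e)ᵀ *ᵥ ((G * mat δ e) *ᵥ b)) := by
        rw [Matrix.dotProduct_mulVec a, ← Matrix.mulVec_transpose, Matrix.transpose_transpose]
      rw [h6, Matrix.mulVec_mulVec, hMG']
    exact h5 _ _
  · intro x y
    exact bet_symm e hGs x y
  · apply le_antisymm
    · rw [Submodule.span_le]
      rintro x ⟨i, rfl⟩
      exact Submodule.sum_mem _ fun y _ => Submodule.smul_mem _ _ (he.mem y)
    · intro x hx
      rw [he.exp x hx]
      refine Submodule.sum_mem _ fun y _ => Submodule.smul_mem _ _ ?_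
      have h1 : e y = ∑ i, E⁻¹ i y • XE e E i := by
        have h2 : ∀ i, XE e E i = ∑ z, E z i • e z := fun i => rfl
        simp only [h2, Finset.smul_sum, smul_smul]
        rw [Finset.sum_comm]
        have h3 : ∀ z, ∑ i, (E⁻¹ i y * E z i) • e z = (E * E⁻¹) z y • e z := by
          intro z
          rw [← Finset.sum_smul, Matrix.mul_apply]
          congr 1
          refine Finset.sum_congr rfl fun i _ => ?_
          rw [mul_comm]
        simp only [h3, hEE, Matrix.one_apply, ite_smul, one_smul, zero_smul]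
        simp
      rw [h1]
      refine Submodule.sum_mem _ fun i _ => Submodule.smul_mem _ _ (Submodule.subset_span ?_)
      exact ⟨Fintype.equivFin ι i, by simp⟩
  · intro i j
    have hX : ∀ i, co e (XE e E i) = fun z => E z i := fun i => co_comb he fun z => E z i
    have h1 : ∀ i j, bet e G (XE e E i) (XE e E j) = (Eᵀ * G * E) i j := by
      intro i j
      rw [bet_apply, hX, hX, Matrix.mul_assoc, Matrix.mul_apply]
      unfold dotProduct
      refine Finset.sum_congr rfl fun z _ => ?_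
      rw [Matrix.transpose_apply, Matrix.mul_apply]
      rfl
    rw [h1, hE, Matrix.one_apply]
    simp only [EmbeddingLike.apply_eq_iff_eq]
  · intro x hx
    rw [ricci_eval (Fintype.equivFin ι).symm he hE hGs hGG hx, hRic,
      Matrix.smul_mulVec, dotProduct_smul, smul_eq_mul, bet_apply]

end Pool.Agent.EinT
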