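import Pool.Agent.EinT.Com

/-!
# The Einstein equation

`UU_CC` (in `EinS/Ric.lean`) for the families `N' = Sum.elim N M`, `SR S R`:
`UU (CC N' S') (fromBlocks A 0 0 E) (fromBlocks A' 0 0 E') = fromBlocks (UU S' A A' + UU N' E E') 0 0 (TT N' A' E + TT N' A E')`.
`TT N' (fromBlocks X 0 0 Y) E = TT N X E + TT M Y E`;
`UU (SR S R) (fromBlocks X 0 0 Y) (fromBlocks X' 0 0 Y') = fromBlocks (UU S X X') 0 0 (UU R Y Y')`;
`UU N' E E' = fromBlocks (UU N E E') 0 0 (UU M E E')` if `E`, `E'` commute with the `M z` (`trace_zero` with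
`X = E' * N x * E`, which commutes with the `M z`; the other off-diagonal block is its transpose).
* `p` block of `RicM`: `1/2 - 1/2 (TT N P B + TT M C⁻¹ B + TT N P⁻¹ B⁻¹ + TT M C B⁻¹) + 1/2 B (TT N P B⁻¹ + TT M C⁻¹ B⁻¹) B`;
  `B (TT M C⁻¹ B⁻¹) B = TT M C⁻¹ B` since `B` commutes with the `M z`, so it is
  `1/2 (Phi1 N B P - TT M C B⁻¹) = (1/4) PhB = (1/4) B`.
* `q` block: as in `RicM_eq` in `EinS/Ric.lean`, `P⁻¹ (PhP) P⁻¹ = P⁻¹`.
* `r` block: `1/2 - 1/2 (UU R C C⁻¹ + UU M B B⁻¹) + 1/4 C (UU R C⁻¹ C⁻¹ + UU M B⁻¹ B⁻¹) C`;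
  `UU R C C⁻¹ = UU R 1 1`, `UU M B B⁻¹ = UU M 1 1` (commutation), their sum is `1` (`trR`);
  `C (UU R C⁻¹ C⁻¹) C = UU R 1 1` by `lc_comm`.  So it is `(1/4) PhC = (1/4) C`.
-/

namespace Pool.Agent.EinT

open Matrix Pool.Agent.EinS

variable {q p r : Type*} [Fintype q] [DecidableEq q] [Fintype p] [DecidableEq p] [Fintype r]
  [DecidableEq r]

omit [DecidableEq q] [DecidableEq p] [DecidableEq r] in
private theorem Ric_TT (N : q → Matrix p p ℝ) (M : r → Matrix p p ℝ) (X : Matrix q q ℝ)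
    (Y : Matrix r r ℝ) (E : Matrix p p ℝ) :
    TT (Sum.elim N M) (fromBlocks X 0 0 Y) E = TT N X E + TT M Y E := by
  unfold TT
  simp only [Fintype.sum_sum_type, Sum.elim_inl, Sum.elim_inr, fromBlocks_apply₁₁,
    fromBlocks_apply₁₂, fromBlocks_apply₂₁, fromBlocks_apply₂₂, Matrix.zero_apply, zero_smul,
    Finset.sum_const_zero, add_zero, zero_add]

private theorem Ric_UU (S : q → Matrix q q ℝ) (R : r → Matrix r r ℝ) (X X' : Matrix q q ℝ)
    (Y Y' : Matrix r r ℝ) :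
    UU (SR S R) (fromBlocks X 0 0 Y) (fromBlocks X' 0 0 Y') =
      fromBlocks (UU S X X') 0 0 (UU R Y Y') := by
  ext x y
  change trace (SR S R x * fromBlocks X 0 0 Y * (SR S R y)ᵀ * fromBlocks X' 0 0 Y') = _
  rcases x with a | i <;> rcases y with b | j
  · simp only [SR, Sum.elim_inl, fromBlocks_transpose, fromBlocks_multiply, Matrix.mul_zero,
      Matrix.zero_mul, add_zero, Matrix.transpose_zero, trace_fb,
      fromBlocks_apply₁₁, Matrix.trace_zero]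
    rfl
  · simp only [SR, Sum.elim_inl, Sum.elim_inr, fromBlocks_transpose, fromBlocks_multiply,
      Matrix.mul_zero, Matrix.zero_mul, add_zero, Matrix.transpose_zero, trace_fb,
      fromBlocks_apply₁₂, Matrix.trace_zero, Matrix.zero_apply]
  · simp only [SR, Sum.elim_inl, Sum.elim_inr, fromBlocks_transpose, fromBlocks_multiply,
      Matrix.mul_zero, Matrix.zero_mul, add_zero, Matrix.transpose_zero, trace_fb,
      fromBlocks_apply₂₁, Matrix.trace_zero, Matrix.zero_apply]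
  · simp only [SR, Sum.elim_inr, fromBlocks_transpose, fromBlocks_multiply, Matrix.mul_zero,
      Matrix.zero_mul, add_zero, zero_add, Matrix.transpose_zero, trace_fb,
      fromBlocks_apply₂₂, Matrix.trace_zero]
    rfl

private theorem Ric_UUN {N : q → Matrix p p ℝ} {S : q → Matrix q q ℝ} {M : r → Matrix p p ℝ}
    {R : r → Matrix r r ℝ} {s a : ℝ} (h : Dat N S M R s a) {E E' : Matrix p p ℝ}
    (sE : E.IsSymm) (sE' : E'.IsSymm) (cE : ∀ z, E * M z = M z * E)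
    (cE' : ∀ z, E' * M z = M z * E') :
    UU (Sum.elim N M) E E' = fromBlocks (UU N E E') 0 0 (UU M E E') := by
  have key : ∀ (F F' : Matrix p p ℝ), (∀ z, F * M z = M z * F) → (∀ z, F' * M z = M z * F') →
      ∀ (x : q) (z : r), trace (N x * F * (M z)ᵀ * F') = 0 := by
    intro F F' cF cF' x z
    have h1 : ∀ w, (F' * (N x * F)) * M w = M w * (F' * (N x * F)) := by
      intro w
      rw [Matrix.mul_assoc, Matrix.mul_assoc, cF w, ← Matrix.mul_assoc (N x), h.comm x w,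
        Matrix.mul_assoc (M w), ← Matrix.mul_assoc F', cF' w, Matrix.mul_assoc (M w)]
    have h2 := trace_zero h h1 z
    rw [← h2, Matrix.trace_mul_comm]
    simp only [Matrix.mul_assoc]
  ext x y
  change trace (Sum.elim N M x * E * (Sum.elim N M y)ᵀ * E') = _
  rcases x with x | x <;> rcases y with y | y
  · rfl
  · rw [fromBlocks_apply₁₂, Matrix.zero_apply]
    exact key E E' cE cE' x y
  · rw [fromBlocks_apply₂₁, Matrix.zero_apply, ← Matrix.trace_transpose]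
    rw [← key E E' cE cE' y x, Matrix.transpose_mul, Matrix.transpose_mul, Matrix.transpose_mul,
      Matrix.transpose_transpose, sE.eq, sE'.eq, Matrix.trace_mul_comm]
    simp only [Matrix.mul_assoc]
    rfl
  · rfl

omit [Fintype r] [DecidableEq r] in
private theorem Ric_UU_inv {m : Type*} [Fintype m] [DecidableEq m] {M : r → Matrix m m ℝ}
    {E E' : Matrix m m ℝ}
    (cE : ∀ z, E * M z = M z * E) (hE : E * E' = 1) : UU M E E' = UU M 1 1 := by
  ext x y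
  change trace (M x * E * (M y)ᵀ * E') = trace (M x * 1 * (M y)ᵀ * 1)
  rw [Matrix.mul_one, Matrix.mul_one, ← cE x, Matrix.mul_assoc, Matrix.mul_assoc,
    Matrix.trace_mul_comm, Matrix.mul_assoc, Matrix.mul_assoc, mul_eq_one_comm.1 hE,
    Matrix.mul_one]

omit [DecidableEq r] in
private theorem Ric_lc_col {R : r → Matrix r r ℝ} {C K : Matrix r r ℝ} (hC : C.IsSymm) :
    C * UU R K K * C = UU (fun x => ∑ y, C x y • R y) K K := by
  ext x y
  rw [Matrix.mul_apply]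
  have h0 : UU (fun x => ∑ y, C x y • R y) K K x y =
      trace ((∑ z, C x z • R z) * K * (∑ w, C y w • R w)ᵀ * K) := rfl
  have h1 : ∀ z w, trace ((C x z • R z) * K * (C y w • R w)ᵀ * K) =
      C x z * UU R K K z w * C w y := by
    intro z w
    rw [Matrix.transpose_smul, Matrix.smul_mul, Matrix.smul_mul, Matrix.smul_mul, Matrix.mul_smul,
      Matrix.smul_mul, Matrix.trace_smul, Matrix.trace_smul, smul_eq_mul, smul_eq_mul,
      hC.apply w y]
    have h3 : UU R K K z w = trace (R z * K * (R w)ᵀ * K) := rfl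
    rw [h3]
    ring
  have h2 : ∀ w, (C * UU R K K) x w * C w y = ∑ z, C x z * UU R K K z w * C w y := by
    intro w
    rw [Matrix.mul_apply, Finset.sum_mul]
  rw [Finset.sum_congr rfl fun w _ => h2 w, Finset.sum_comm, h0, Matrix.transpose_sum,
    Matrix.sum_mul, Matrix.sum_mul, Matrix.sum_mul, Matrix.trace_sum]
  refine Finset.sum_congr rfl fun z _ => ?_
  rw [Matrix.mul_sum, Matrix.sum_mul, Matrix.trace_sum]
  exact Finset.sum_congr rfl fun w _ => (h1 z w).symm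

omit [DecidableEq q] in
private theorem Ric_rC {N : q → Matrix p p ℝ} {S : q → Matrix q q ℝ} {M : r → Matrix p p ℝ}
    {R : r → Matrix r r ℝ} {s a : ℝ} (h : Dat N S M R s a) {C : Matrix r r ℝ} (hC : C.IsSymm)
    (hd : C * C⁻¹ = 1) (cC : ∀ z, C * R z = R z * C) :
    C * UU R C⁻¹ C⁻¹ * C = UU R 1 1 := by
  rw [Ric_lc_col hC]
  have hd' : C⁻¹ * C = 1 := mul_eq_one_comm.1 hd
  have h1 : (fun x => ∑ y, C x y • R y) = fun x => C * R x :=
    funext fun x => lc_comm h.anR h.anR' hC cC x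
  rw [h1]
  ext x y
  change trace (C * R x * C⁻¹ * (C * R y)ᵀ * C⁻¹) = trace (R x * 1 * (R y)ᵀ * 1)
  rw [Matrix.mul_one, Matrix.mul_one, Matrix.transpose_mul, hC.eq, cC x, Matrix.mul_assoc (R x),
    hd, Matrix.mul_one, ← Matrix.mul_assoc, Matrix.mul_assoc _ C, hd, Matrix.mul_one]

omit [DecidableEq r] in
private theorem Ric_BMB {M : r → Matrix p p ℝ} (anM : ∀ z, (M z)ᵀ = -M z) {B : Matrix p p ℝ}
    (K : Matrix r r ℝ) (hd : B * B⁻¹ = 1) (cB : ∀ z, B * M z = M z * B) :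
    B * TT M K B⁻¹ * B = TT M K B := by
  unfold TT
  rw [Matrix.mul_sum, Matrix.sum_mul]
  refine Finset.sum_congr rfl fun x _ => ?_
  rw [Matrix.mul_sum, Matrix.sum_mul]
  refine Finset.sum_congr rfl fun y _ => ?_
  rw [Matrix.mul_smul, Matrix.smul_mul]
  congr 1
  have h1 : (M y)ᵀ * B = B * (M y)ᵀ := by
    rw [anM y, Matrix.neg_mul, Matrix.mul_neg, cB y]
  calc B * (M x * B⁻¹ * (M y)ᵀ) * B = B * M x * B⁻¹ * ((M y)ᵀ * B) := by
        simp only [Matrix.mul_assoc]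
    _ = M x * (B * B⁻¹) * (B * (M y)ᵀ) := by
        rw [cB x, h1]
        simp only [Matrix.mul_assoc]
    _ = M x * B * (M y)ᵀ := by
        rw [hd, Matrix.mul_one]
        simp only [Matrix.mul_assoc]

theorem RicM3 {N : q → Matrix p p ℝ} {S : q → Matrix q q ℝ} {M : r → Matrix p p ℝ}
    {R : r → Matrix r r ℝ} {s a : ℝ} (h : Dat N S M R s a) {B : Matrix p p ℝ}
    {P : Matrix q q ℝ} {C : Matrix r r ℝ} (hB : Btw (1 + a) (1 + 3 * s) B)
    (hP : Btw (1 - 15 * s) (1 + 15 * s) P) (hC : Btw (1 - 12 * s ^ 3) (1 + 12 * s ^ 3) C)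
    (cB : ∀ z, B * M z = M z * B) (cC : ∀ z, C * R z = R z * C) (e1 : PhB N M B P C = B)
    (e2 : PhP N S B P = P) (e3 : PhC M R B C = C) :
    RicM (CC (Sum.elim N M) (SR S R)) (GG B P C) (GI B P C) = (1 / 4 : ℝ) • GG B P C := by
  have ha := h.a0
  have has := h.as
  have hs1 := h.s1
  have hs0 : 0 < s := lt_of_lt_of_le ha has
  have hs3 : s ^ 3 ≤ s := by
    have : s ^ 2 ≤ 1 := by nlinarith
    nlinarith
  have hB0 : (0 : ℝ) < 1 + a := by linarith
  have hB1 : (0 : ℝ) < 1 + 3 * s := by linarith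
  have hP0 : (0 : ℝ) < 1 - 15 * s := by linarith
  have hP1 : (0 : ℝ) < 1 + 15 * s := by linarith
  have hC0 : (0 : ℝ) < 1 - 12 * s ^ 3 := by linarith
  have hC1 : (0 : ℝ) < 1 + 12 * s ^ 3 := by positivity
  have hBi := hB.inv hB0 hB1
  have hPi := hP.inv hP0 hP1
  have hCi := hC.inv hC0 hC1
  have uB := isUnit_iff_ne_zero.2 (hB.det_ne hB0)
  have uP := isUnit_iff_ne_zero.2 (hP.det_ne hP0)
  have uC := isUnit_iff_ne_zero.2 (hC.det_ne hC0)
  have dB : B * B⁻¹ = 1 := Matrix.mul_nonsing_inv _ uB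
  have dP : P * P⁻¹ = 1 := Matrix.mul_nonsing_inv _ uP
  have dP' : P⁻¹ * P = 1 := Matrix.nonsing_inv_mul _ uP
  have dC : C * C⁻¹ = 1 := Matrix.mul_nonsing_inv _ uC
  have cBi : ∀ z, B⁻¹ * M z = M z * B⁻¹ := fun z => comm_inv (cB z) uB
  have sA : (fromBlocks P 0 0 C⁻¹ : Matrix (q ⊕ r) (q ⊕ r) ℝ).IsSymm := by
    unfold Matrix.IsSymm
    rw [fromBlocks_transpose, hP.symm.eq, hCi.symm.eq, Matrix.transpose_zero,
      Matrix.transpose_zero]
  have k1 : UU (CC (Sum.elim N M) (SR S R)) (GG B P C) (GI B P C) =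
      fromBlocks (fromBlocks (UU S P⁻¹ P + UU N B B⁻¹) 0 0 (UU R C C⁻¹ + UU M B B⁻¹)) 0 0
        (TT N P B + TT M C⁻¹ B + (TT N P⁻¹ B⁻¹ + TT M C B⁻¹)) := by
    unfold GG GI
    rw [UU_CC _ _ _ _ _ _ sA hBi.symm, Ric_UU, Ric_UUN h hB.symm hBi.symm cB cBi, Ric_TT, Ric_TT,
      fromBlocks_add, add_zero, add_zero]
  have k2 : UU (CC (Sum.elim N M) (SR S R)) (GI B P C) (GI B P C) =
      fromBlocks (fromBlocks (UU S P P + UU N B⁻¹ B⁻¹) 0 0 (UU R C⁻¹ C⁻¹ + UU M B⁻¹ B⁻¹)) 0 0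
        (TT N P B⁻¹ + TT M C⁻¹ B⁻¹ + (TT N P B⁻¹ + TT M C⁻¹ B⁻¹)) := by
    unfold GI
    rw [UU_CC _ _ _ _ _ _ sA hBi.symm, Ric_UU, Ric_UUN h hBi.symm hBi.symm cBi cBi, Ric_TT,
      fromBlocks_add, add_zero, add_zero]
  have f1 : (1 / 2 : ℝ) • (1 : Matrix q q ℝ) - (1 / 2 : ℝ) • (UU S P⁻¹ P + UU N B B⁻¹) +
      (1 / 4 : ℝ) • (P⁻¹ * (UU S P P + UU N B⁻¹ B⁻¹) * P⁻¹) = (1 / 4 : ℝ) • P⁻¹ := by
    have e4 : P⁻¹ = (2 : ℝ) • ((1 / 2 : ℝ) • (P⁻¹ * UU N B⁻¹ B⁻¹ * P⁻¹) +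
        (1 - UU N B B⁻¹ - UU S P⁻¹ P) + (1 / 2 : ℝ) • (P⁻¹ * UU S P P * P⁻¹)) := by
      calc P⁻¹ = P⁻¹ * P * P⁻¹ := by rw [dP', Matrix.one_mul]
        _ = P⁻¹ * PhP N S B P * P⁻¹ := by rw [e2]
        _ = _ := by
          unfold PhP Phi2
          rw [Matrix.mul_smul, Matrix.smul_mul, Matrix.mul_add, Matrix.mul_add, Matrix.add_mul,
            Matrix.add_mul, Matrix.mul_smul, Matrix.mul_smul, Matrix.smul_mul, Matrix.smul_mul]
          congr 3
          calc P⁻¹ * (P * (1 - UU N B B⁻¹ - UU S P⁻¹ P) * P) * P⁻¹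
              = (P⁻¹ * P) * (1 - UU N B B⁻¹ - UU S P⁻¹ P) * (P * P⁻¹) := by
                simp only [Matrix.mul_assoc]
            _ = _ := by rw [dP', dP, Matrix.one_mul, Matrix.mul_one]
    conv_rhs => rw [e4]
    rw [Matrix.mul_add, Matrix.add_mul]
    module
  have f2 : (1 / 2 : ℝ) • (1 : Matrix r r ℝ) - (1 / 2 : ℝ) • (UU R C C⁻¹ + UU M B B⁻¹) +
      (1 / 4 : ℝ) • (C * (UU R C⁻¹ C⁻¹ + UU M B⁻¹ B⁻¹) * C) = (1 / 4 : ℝ) • C := by
    conv_rhs => rw [← e3]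
    unfold PhC
    rw [Ric_UU_inv cC dC, Ric_UU_inv cB dB, h.trR, sub_self, zero_add, Matrix.mul_add,
      Matrix.add_mul, Ric_rC h hC.symm dC cC]
  have f3 : (1 / 2 : ℝ) • (1 : Matrix p p ℝ) - (1 / 2 : ℝ) •
      (TT N P B + TT M C⁻¹ B + (TT N P⁻¹ B⁻¹ + TT M C B⁻¹)) +
      (1 / 4 : ℝ) • (B * (TT N P B⁻¹ + TT M C⁻¹ B⁻¹ + (TT N P B⁻¹ + TT M C⁻¹ B⁻¹)) * B) =
      (1 / 4 : ℝ) • B := by
    conv_rhs => rw [← e1]
    unfold PhB Phi1
    rw [Matrix.mul_add, Matrix.mul_add, Matrix.add_mul, Matrix.add_mul, Ric_BMB h.anM _ dB cB]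
    module
  unfold RicM
  rw [k1, k2]
  unfold GG
  rw [fromBlocks_multiply, fromBlocks_multiply, ← fromBlocks_one, ← fromBlocks_one]
  simp only [Matrix.mul_zero, Matrix.zero_mul, add_zero, zero_add, fromBlocks_multiply,
    fromBlocks_smul, smul_zero]
  ext x y
  rcases x with (x | x) | x <;> rcases y with (y | y) | y
  · have := congrFun (congrFun f1 x) y
    simpa using this
  · simp
  · simp
  · simp
  · have := congrFun (congrFun f2 x) y
    simpa using this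
  · simp
  · simp
  · simp
  · have := congrFun (congrFun f3 x) y
    simpa using this

end Pool.Agent.EinT
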