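import Pool.Agent.EinT.Fix
import Pool.Agent.EinT.Ric
import Pool.Agent.EinT.Met
import Pool.Agent.EinT.Frm

/-!
# The general theorem
-/

namespace Pool.Agent.EinT

open Matrix Pool.Agent.EStab Pool.Agent.EinS

variable {L : Type*} [LieRing L] [LieAlgebra ℝ L]

theorem einstein_iso [Module.Finite ℝ L] (hg : CompactSemisimple L) {k l h : LieSubalgebra ℝ L}
    (hs : SymPair k l) {e t : ℝ} (hc : CasimirLE k l e e) (hi : IndexLE k l e) (hk : h ≤ k)
    (hh : CasimirGE k l h t) (ht : 0 < t) (hte : t ≤ e) (het : 90000 * e ^ 3 ≤ t ^ 2) :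
    HasEinsteinMetric L h.toSubmodule (pairAuts k l h) := by
  classical
  have he : 0 < e := lt_of_lt_of_le ht hte
  set s := Real.sqrt e with hsd
  set a := Real.sqrt t with had
  have hs2 : s ^ 2 = e := Real.sq_sqrt he.le
  have ha2 : a ^ 2 = t := Real.sq_sqrt ht.le
  have hs0 : 0 < s := Real.sqrt_pos.2 he
  have ha0 : 0 < a := Real.sqrt_pos.2 ht
  have has : a ≤ s := Real.sqrt_le_sqrt hte
  have hsa : 300 * s ^ 3 ≤ a ^ 2 := by
    rw [ha2]
    refine le_of_sq_le_sq ?_ ht.le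
    have : (300 * s ^ 3) ^ 2 = 90000 * e ^ 3 := by
      rw [← hs2]
      ring
    rw [this]
    exact het
  have hs1 : 300 * s ≤ 1 := by
    have h1 : 300 * s ^ 3 ≤ s ^ 2 := by
      rw [hs2]
      exact hsa.trans (by rw [ha2]; exact hte)
    have h2 : s ^ 2 * (300 * s) ≤ s ^ 2 * 1 := by
      calc s ^ 2 * (300 * s) = 300 * s ^ 3 := by ring
        _ ≤ s ^ 2 := h1
        _ = s ^ 2 * 1 := by ring
    exact le_of_mul_le_mul_left h2 (by positivity)
  rw [← hs2] at hc hi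
  rw [← ha2] at hh
  obtain ⟨nh, nl, nq, np, eh, el, b, f, st⟩ := exists_setup3 hg hs hk
  have hd := st.dat ha0 has hs1 hsa hc hi hh
  obtain ⟨B, P, C, hB, hP, hC, cB, cC, hinv, e1, e2, e3⟩ := exists_fixed3 hd
  have hs3 : 12 * s ^ 3 ≤ 1 / 2 := by
    have h1 : s ≤ 1 / 300 := by linarith
    have h2 : s ^ 3 ≤ (1 / 300) ^ 3 := pow_le_pow_left₀ hs0.le h1 3
    norm_num at h2 ⊢
    linarith
  have hPl : (0 : ℝ) < 1 - 15 * s := by linarith
  have hCl : (0 : ℝ) < 1 - 12 * s ^ 3 := by linarith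
  have hBl : (0 : ℝ) < 1 + a := by linarith
  have hPd : P.det ≠ 0 := hP.det_ne hPl
  have hBd : B.det ≠ 0 := hB.det_ne hBl
  have hCd : C.det ≠ 0 := hC.det_ne hCl
  have hPi := hP.inv hPl (by linarith)
  have hGs : (GG B P C).IsSymm := by
    rw [GG, Matrix.IsSymm, Matrix.fromBlocks_transpose, Matrix.fromBlocks_transpose, hPi.symm.eq,
      hB.symm.eq, hC.symm.eq]
    simp only [Matrix.transpose_zero]
  have hGG : GG B P C * GI B P C = 1 := by
    rw [GG, GI, Matrix.fromBlocks_multiply, Matrix.fromBlocks_multiply,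
      Matrix.nonsing_inv_mul _ (isUnit_iff_ne_zero.2 hPd),
      Matrix.mul_nonsing_inv _ (isUnit_iff_ne_zero.2 hBd),
      Matrix.mul_nonsing_inv _ (isUnit_iff_ne_zero.2 hCd)]
    simp only [Matrix.mul_zero, Matrix.zero_mul, add_zero, zero_add, Matrix.fromBlocks_one]
  have hG0 : ∀ x, 0 ≤ x ⬝ᵥ (GG B P C *ᵥ x) := by
    intro x
    rw [GG, fromBlocks_quad, fromBlocks_quad]
    have h1 := hPi.lo ((x ∘ Sum.inl) ∘ Sum.inl)
    have h2 := hB.lo (x ∘ Sum.inr)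
    have h3 := hC.lo ((x ∘ Sum.inl) ∘ Sum.inr)
    have h4 := dot_self_nonneg ((x ∘ Sum.inl) ∘ Sum.inl)
    have h5 := dot_self_nonneg (x ∘ Sum.inr)
    have h6 := dot_self_nonneg ((x ∘ Sum.inl) ∘ Sum.inr)
    have h7 : 0 ≤ 1 / (1 + 15 * s) * (((x ∘ Sum.inl) ∘ Sum.inl) ⬝ᵥ ((x ∘ Sum.inl) ∘ Sum.inl)) := by
      positivity
    have h8 : 0 ≤ (1 + a) * ((x ∘ Sum.inr) ⬝ᵥ (x ∘ Sum.inr)) := mul_nonneg hBl.le h5
    have h9 : 0 ≤ (1 - 12 * s ^ 3) * (((x ∘ Sum.inl) ∘ Sum.inr) ⬝ᵥ ((x ∘ Sum.inl) ∘ Sum.inr)) :=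
      mul_nonneg hCl.le h6
    linarith
  refine hasEinstein hg (fun x hx y hy => h.lie_mem hx hy) st.frame hGs hG0 hGG ?_
    (c := 1 / 4) (by norm_num) ?_
  · rintro γ ⟨δ, h1, h2, h3, hγ⟩
    have p1 := pres_of_map h1
    have p2 := pres_of_map h2
    have p3 := pres_of_map h3
    refine ⟨δ, hγ, p3, ?_⟩
    have hsym := st.sym p1 p2 p3
    obtain ⟨i1, i2, i3⟩ := hinv _ _ _ hsym
    have i4 := conj_inv hsym.sym.u1 i2
    rw [st.mat_eq p1 p2 p3, GG]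
    simp only [Matrix.fromBlocks_transpose, Matrix.fromBlocks_multiply, Matrix.mul_zero,
      Matrix.zero_mul, add_zero, zero_add, Matrix.transpose_zero, i1, i3, i4]
  · rw [st.CF_eq]
    exact RicM3 hd hB hP hC cB cC e1 e2 e3

end Pool.Agent.EinT
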