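import Pool.Agent.EinT.Base

/-!
# The structure constants of a symmetric pair

As `EinS/Pair.lean` (`Setup`, `Setup.small`, `Setup.structure`) and `EinS/Inv.lean` (`Setup.sym`, `Setup.mat_em`, `Setup.fm`,
`Setup.CF_eq`): copy and adapt.  The frame of the complement of `h` is `em3 = Sum.elim (Sum.elim a el) f`.

* `comm`, `brM`, `brR`: Jacobi identity and Parseval: `(X Y) i j = ⟪[y, [x, f_i]], f_j⟫` if
  `X i j = ⟪[x, f_i], f_j⟫`, `Y i j = ⟪[y, f_i], f_j⟫` and `[x, f_i] ∈ p`.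
* `casM`, `casM'`: for `y ∈ p`: `Qf y y = ∑ |[y, .]|²` over the full frame (`IsFrame.killing`) of `h`, `q`, `l`, `p`;
  the sum over the frame of `p` is `∑_{f, z} ⟪[y, f], z⟫² = ∑_z |[z, y]|²` (`z` in the frame of `k ⊕ l`, as `[p, p] ⊆ k ⊕ l`);
  so `Qf y y = 2 (Cas_h + Cas_q + Cas_l)(y)`; `Cas_h ≤ Cas_k ≤ s²`, `Cas_h ≥ a²` (`CasimirGE`: the given family in `h`
  is orthonormal, so its sum is at most the sum over a frame of `h`: Bessel).
* `trR`: for `x, y ∈ l`: `Qf x y = ∑ ⟪[x, .], [y, .]⟫` over the full frame; the part of `k` is zero.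
-/

namespace Pool.Agent.EinT

open Matrix Pool.Agent.EStab Pool.Agent.EinS

variable {L : Type*} [LieRing L] [LieAlgebra ℝ L]

/-- The data: frames of `h`, `q = k ∩ h^⊥`, `l` and `p`. -/
structure Setup3 (k l h : LieSubalgebra ℝ L) {nh nl nq np : ℕ} (eh : Fin nh → L)
    (el : Fin nl → L) (a : Fin nq → L) (f : Fin np → L) : Prop where
  compact : CompactSemisimple L
  pair : SymPair k l
  le : h ≤ k
  fh : IsFrame h.toSubmodule eh
  fl : IsFrame l.toSubmodule el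
  fq : IsFrame (k.toSubmodule ⊓ perp h.toSubmodule) a
  fp : IsFrame (perp (k.toSubmodule ⊔ l.toSubmodule)) f

/-- The frame of the complement of `h`. -/
def em3 {nl nq np : ℕ} (a : Fin nq → L) (el : Fin nl → L) (f : Fin np → L) :
    (Fin nq ⊕ Fin nl) ⊕ Fin np → L :=
  Sum.elim (Sum.elim a el) f

theorem exists_setup3 [Module.Finite ℝ L] (hg : CompactSemisimple L) {k l : LieSubalgebra ℝ L}
    (hs : SymPair k l) {h : LieSubalgebra ℝ L} (hk : h ≤ k) :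
    ∃ (nh nl nq np : ℕ) (eh : Fin nh → L) (el : Fin nl → L) (a : Fin nq → L) (f : Fin np → L),
      Setup3 k l h eh el a f := by
  obtain ⟨nh, eh, h1⟩ := exists_frame hg h.toSubmodule
  obtain ⟨nl, el, h2⟩ := exists_frame hg l.toSubmodule
  obtain ⟨nq, a, h3⟩ := exists_frame hg (k.toSubmodule ⊓ perp h.toSubmodule)
  obtain ⟨np, f, h4⟩ := exists_frame hg (perp (k.toSubmodule ⊔ l.toSubmodule))
  exact ⟨nh, nl, nq, np, eh, el, a, f, hg, hs, hk, h1, h2, h3, h4⟩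

section

variable {k l h : LieSubalgebra ℝ L} {nh nl nq np : ℕ} {eh : Fin nh → L} {el : Fin nl → L}
  {a : Fin nq → L} {f : Fin np → L}

theorem Pair_prod {ι : Type*} [Fintype ι] [DecidableEq ι] {W : Submodule ℝ L} {e : ι → L}
    (he : IsFrame W e) (x y u v : L) (h1 : ⁅x, u⁆ ∈ W) :
    ∑ m, Qf L ⁅x, u⁆ (e m) * Qf L ⁅y, e m⁆ v = Qf L ⁅y, ⁅x, u⁆⁆ v := by
  rw [Qf_lie' y, he.parseval h1, ← Finset.sum_neg_distrib]
  refine Finset.sum_congr rfl fun m _ => ?_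
  rw [Qf_lie' y, Qf_symm (e m)]
  ring

theorem Pair_mul {ι : Type*} [Fintype ι] [DecidableEq ι] {W : Submodule ℝ L} {e : ι → L}
    (he : IsFrame W e) (x y : L) (h1 : ∀ i, ⁅x, e i⁆ ∈ W) :
    (of fun i j => Qf L ⁅x, e i⁆ (e j) : Matrix ι ι ℝ) * (of fun i j => Qf L ⁅y, e i⁆ (e j)) =
      of fun i j => Qf L ⁅y, ⁅x, e i⁆⁆ (e j) := by
  ext i j
  rw [Matrix.mul_apply]
  simp only [Matrix.of_apply]
  exact Pair_prod he x y (e i) (e j) (h1 i)

theorem Pair_anti {ι : Type*} (e : ι → L) (x : L) :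
    (of fun i j => Qf L ⁅x, e i⁆ (e j) : Matrix ι ι ℝ)ᵀ =
      -(of fun i j => Qf L ⁅x, e i⁆ (e j)) := by
  ext i j
  rw [Matrix.transpose_apply, Matrix.neg_apply, Matrix.of_apply, Matrix.of_apply, Qf_lie',
    Qf_symm]

/-- The commutator of two such matrices. -/
theorem Pair_brk {ι κ : Type*} [Fintype ι] [DecidableEq ι] [Fintype κ] [DecidableEq κ]
    {W U : Submodule ℝ L} {e : ι → L} {g : κ → L} (he : IsFrame W e) (hg : IsFrame U g)
    (x y : L) (h1 : ∀ i, ⁅x, e i⁆ ∈ W) (h2 : ∀ i, ⁅y, e i⁆ ∈ W) (h3 : ⁅x, y⁆ ∈ U) :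
    (of fun i j => Qf L ⁅x, e i⁆ (e j) : Matrix ι ι ℝ) * (of fun i j => Qf L ⁅y, e i⁆ (e j)) -
      (of fun i j => Qf L ⁅y, e i⁆ (e j) : Matrix ι ι ℝ) * (of fun i j => Qf L ⁅x, e i⁆ (e j)) =
      -∑ w, Qf L ⁅x, y⁆ (g w) • (of fun i j => Qf L ⁅g w, e i⁆ (e j) : Matrix ι ι ℝ) := by
  rw [Pair_mul he x y h1, Pair_mul he y x h2]
  ext i j
  rw [Matrix.sub_apply, Matrix.neg_apply, Matrix.sum_apply]
  simp only [Matrix.of_apply, Matrix.smul_apply, smul_eq_mul]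
  have h4 : ∑ w, Qf L ⁅x, y⁆ (g w) * Qf L ⁅g w, e i⁆ (e j) = Qf L ⁅⁅x, y⁆, e i⁆ (e j) := by
    conv_rhs => rw [hg.exp _ h3]
    rw [sum_lie, map_sum, LinearMap.sum_apply]
    refine Finset.sum_congr rfl fun w _ => ?_
    rw [smul_lie, map_smul, LinearMap.smul_apply, smul_eq_mul]
  rw [h4, lie_lie, map_sub, LinearMap.sub_apply]
  ring

theorem Pair_trace {ι κ : Type*} [Fintype ι] [Fintype κ] (M : Matrix ι κ ℝ) :
    trace (M * Mᵀ) = ∑ i, ∑ j, M i j ^ 2 := trace_mul_transpose' M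

theorem Setup3.orth_kl (st : Setup3 k l h eh el a f) {x y : L} (hx : x ∈ k) (hy : y ∈ l) :
    Qf L x y = 0 := by
  rw [Qf_apply, st.pair.orth x hx y hy, neg_zero]

theorem Setup3.orth_kp (_st : Setup3 k l h eh el a f) {x y : L} (hx : x ∈ k)
    (hy : y ∈ perp (k.toSubmodule ⊔ l.toSubmodule)) : Qf L x y = 0 := by
  rw [Qf_symm]
  exact hy x (Submodule.mem_sup_left hx)

theorem Setup3.orth_lp (_st : Setup3 k l h eh el a f) {x y : L} (hx : x ∈ l)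
    (hy : y ∈ perp (k.toSubmodule ⊔ l.toSubmodule)) : Qf L x y = 0 := by
  rw [Qf_symm]
  exact hy x (Submodule.mem_sup_right hx)

theorem Setup3.lie_lk (st : Setup3 k l h eh el a f) {x y : L} (hx : x ∈ l) (hy : y ∈ k) :
    ⁅x, y⁆ = 0 := by
  rw [← lie_skew, st.pair.comm y hy x hx, neg_zero]

theorem Setup3.lie_kp (st : Setup3 k l h eh el a f) {x y : L} (hx : x ∈ k)
    (hy : y ∈ perp (k.toSubmodule ⊔ l.toSubmodule)) :
    ⁅x, y⁆ ∈ perp (k.toSubmodule ⊔ l.toSubmodule) := by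
  intro z hz
  obtain ⟨u, hu, v, hv, rfl⟩ := Submodule.mem_sup.1 hz
  rw [Qf_lie', lie_add, st.pair.comm x hx v hv, add_zero, hy _ (Submodule.mem_sup_left ?_),
    neg_zero]
  exact k.lie_mem hx hu

theorem Setup3.lie_lp (st : Setup3 k l h eh el a f) {x y : L} (hx : x ∈ l)
    (hy : y ∈ perp (k.toSubmodule ⊔ l.toSubmodule)) :
    ⁅x, y⁆ ∈ perp (k.toSubmodule ⊔ l.toSubmodule) := by
  intro z hz
  obtain ⟨u, hu, v, hv, rfl⟩ := Submodule.mem_sup.1 hz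
  rw [Qf_lie', lie_add, st.lie_lk hx hu, zero_add, hy _ (Submodule.mem_sup_right ?_), neg_zero]
  exact l.lie_mem hx hv

theorem Setup3.mem_k (st : Setup3 k l h eh el a f) (s : Fin nq) : a s ∈ k := (st.fq.mem s).1

theorem Setup3.mem_h (st : Setup3 k l h eh el a f) (s : Fin nh) : eh s ∈ k :=
  st.le (st.fh.mem s)

theorem Setup3.mem_l (st : Setup3 k l h eh el a f) (s : Fin nl) : el s ∈ l := st.fl.mem s

/-- A frame of `k`. -/
theorem Setup3.fk (st : Setup3 k l h eh el a f) : IsFrame k.toSubmodule (Sum.elim eh a) := by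
  have h1 : IsFrame (h.toSubmodule ⊔ (k.toSubmodule ⊓ perp h.toSubmodule)) (Sum.elim eh a) :=
    st.fh.sum st.fq fun x hx y hy => by
      rw [Qf_symm]
      exact hy.2 x hx
  have h2 : h.toSubmodule ⊔ (k.toSubmodule ⊓ perp h.toSubmodule) = k.toSubmodule := by
    apply le_antisymm
    · exact sup_le (fun x hx => st.le hx) inf_le_left
    · intro x hx
      have h3 := st.fh.sub_mem_perp x
      have h4 : ∑ i, Qf L x (eh i) • eh i ∈ h.toSubmodule :=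
        Submodule.sum_mem _ fun i _ => h.toSubmodule.smul_mem _ (st.fh.mem i)
      have h5 : x = (∑ i, Qf L x (eh i) • eh i) + (x - ∑ i, Qf L x (eh i) • eh i) := by abel
      rw [h5]
      refine Submodule.add_mem_sup h4 ⟨?_, h3⟩
      exact k.toSubmodule.sub_mem hx (st.le h4)
  rw [h2] at h1
  exact h1

theorem Setup3.full (st : Setup3 k l h eh el a f) :
    IsFrame (⊤ : Submodule ℝ L) (Sum.elim (Sum.elim (Sum.elim eh a) el) f) :=
  (st.fk.sum st.fl fun _ hx _ hy => st.orth_kl hx hy).full st.fp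

/-- The Killing form of `L`. -/
theorem Setup3.kil (st : Setup3 k l h eh el a f) (x y : L) :
    Qf L x y = ((∑ e, Qf L ⁅x, eh e⁆ ⁅y, eh e⁆ + ∑ e, Qf L ⁅x, a e⁆ ⁅y, a e⁆) +
      ∑ e, Qf L ⁅x, el e⁆ ⁅y, el e⁆) + ∑ i, Qf L ⁅x, f i⁆ ⁅y, f i⁆ := by
  rw [st.full.killing x y, Fintype.sum_sum_type, Fintype.sum_sum_type, Fintype.sum_sum_type]
  simp only [Sum.elim_inl, Sum.elim_inr]

theorem Setup3.split (st : Setup3 k l h eh el a f) {x : L} (hx : x ∈ k) :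
    Qf L x x = (∑ e, Qf L ⁅x, eh e⁆ ⁅x, eh e⁆ + ∑ e, Qf L ⁅x, a e⁆ ⁅x, a e⁆) +
      ∑ i, Qf L ⁅x, f i⁆ ⁅x, f i⁆ := by
  rw [st.kil x x]
  have h1 : ∑ e, Qf L ⁅x, el e⁆ ⁅x, el e⁆ = 0 := by
    refine Finset.sum_eq_zero fun e _ => ?_
    rw [st.pair.comm x hx _ (st.fl.mem e), map_zero]
  rw [h1, add_zero]

theorem Setup3.trN (st : Setup3 k l h eh el a f) (x : Fin nq → ℝ) :
    trace (lc (NN' a f) x * (lc (NN' a f) x)ᵀ) =
      ∑ i, Qf L ⁅∑ s, x s • a s, f i⁆ ⁅∑ s, x s • a s, f i⁆ := by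
  rw [Pair_trace]
  refine Finset.sum_congr rfl fun i _ => ?_
  rw [st.fp.parseval (st.lie_kp (frame_mem st.fq x).1 (st.fp.mem i))]
  refine Finset.sum_congr rfl fun j _ => ?_
  rw [Setup.lcN_eq, sq]

theorem Setup3.trM (st : Setup3 k l h eh el a f) (x : Fin nl → ℝ) :
    trace (lc (NN' el f) x * (lc (NN' el f) x)ᵀ) =
      ∑ i, Qf L ⁅∑ s, x s • el s, f i⁆ ⁅∑ s, x s • el s, f i⁆ := by
  rw [Pair_trace]
  refine Finset.sum_congr rfl fun i _ => ?_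
  rw [st.fp.parseval (st.lie_lp (frame_mem st.fl x) (st.fp.mem i))]
  refine Finset.sum_congr rfl fun j _ => ?_
  rw [Setup.lcN_eq, sq]

theorem Setup3.rwN (st : Setup3 k l h eh el a f) (y : Fin np → ℝ) :
    trace (rw' (NN' a f) y * (rw' (NN' a f) y)ᵀ) =
      ∑ s, Qf L ⁅a s, ∑ i, y i • f i⁆ ⁅a s, ∑ i, y i • f i⁆ := by
  rw [Pair_trace]
  refine Finset.sum_congr rfl fun s _ => ?_
  rw [st.fp.parseval (st.lie_kp (st.mem_k s) (frame_mem st.fp y))]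
  refine Finset.sum_congr rfl fun j _ => ?_
  rw [Setup.rw_eq, sq]

theorem Setup3.rwM (st : Setup3 k l h eh el a f) (y : Fin np → ℝ) :
    trace (rw' (NN' el f) y * (rw' (NN' el f) y)ᵀ) =
      ∑ s, Qf L ⁅el s, ∑ i, y i • f i⁆ ⁅el s, ∑ i, y i • f i⁆ := by
  rw [Pair_trace]
  refine Finset.sum_congr rfl fun s _ => ?_
  rw [st.fp.parseval (st.lie_lp (st.mem_l s) (frame_mem st.fp y))]
  refine Finset.sum_congr rfl fun j _ => ?_
  rw [Setup.rw_eq, sq]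

/-- The sum over `p` of `|[y, f]|²` is the sum of the Casimir operators, for `y ∈ p`. -/
theorem Setup3.sum_p (st : Setup3 k l h eh el a f) {y : L}
    (hy : y ∈ perp (k.toSubmodule ⊔ l.toSubmodule)) :
    ∑ i, Qf L ⁅y, f i⁆ ⁅y, f i⁆ = (∑ e, Qf L ⁅eh e, y⁆ ⁅eh e, y⁆ + ∑ e, Qf L ⁅a e, y⁆ ⁅a e, y⁆) +
      ∑ e, Qf L ⁅el e, y⁆ ⁅el e, y⁆ := by
  have h0 : ∀ i, Qf L ⁅y, f i⁆ ⁅y, f i⁆ =
      ∑ z, Qf L ⁅y, f i⁆ (Sum.elim (Sum.elim (Sum.elim eh a) el) f z) ^ 2 := by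
    intro i
    rw [st.full.parseval Submodule.mem_top]
    refine Finset.sum_congr rfl fun z _ => ?_
    rw [sq]
  have h1 : ∀ i m, Qf L ⁅y, f i⁆ (f m) = 0 := by
    intro i m
    rw [Qf_apply, st.pair.symm _ _ _ (orth_iff.2 hy) (orth_iff.2 (st.fp.mem i))
      (orth_iff.2 (st.fp.mem m)), neg_zero]
  have h2 : ∀ i z, Qf L ⁅y, f i⁆ z = Qf L ⁅z, y⁆ (f i) := by
    intro i z
    rw [Qf_symm, ← Qf_lie]
  simp only [h0, Fintype.sum_sum_type, Sum.elim_inl, Sum.elim_inr, h1]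
  rw [show ∑ i : Fin np, (∑ x, Qf L ⁅y, f i⁆ (eh x) ^ 2 + ∑ x, Qf L ⁅y, f i⁆ (a x) ^ 2 +
      ∑ x, Qf L ⁅y, f i⁆ (el x) ^ 2 + ∑ _x : Fin np, (0 : ℝ) ^ 2) =
      ∑ i : Fin np, ∑ x, Qf L ⁅y, f i⁆ (eh x) ^ 2 + ∑ i : Fin np, ∑ x, Qf L ⁅y, f i⁆ (a x) ^ 2 +
      ∑ i : Fin np, ∑ x, Qf L ⁅y, f i⁆ (el x) ^ 2 by
    rw [← Finset.sum_add_distrib, ← Finset.sum_add_distrib]
    refine Finset.sum_congr rfl fun i _ => ?_
    simp]
  have h3 : ∀ {n : ℕ} (g : Fin n → L), (∀ z, ⁅g z, y⁆ ∈ perp (k.toSubmodule ⊔ l.toSubmodule)) →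
      ∑ i : Fin np, ∑ x, Qf L ⁅y, f i⁆ (g x) ^ 2 = ∑ x, Qf L ⁅g x, y⁆ ⁅g x, y⁆ := by
    intro n g hg
    rw [Finset.sum_comm]
    refine Finset.sum_congr rfl fun x _ => ?_
    rw [st.fp.parseval (hg x)]
    refine Finset.sum_congr rfl fun i _ => ?_
    rw [h2, sq]
  rw [h3 eh fun z => st.lie_kp (st.mem_h z) hy, h3 a fun z => st.lie_kp (st.mem_k z) hy,
    h3 el fun z => st.lie_lp (st.mem_l z) hy]

theorem Setup3.kil_p (st : Setup3 k l h eh el a f) {y : L}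
    (hy : y ∈ perp (k.toSubmodule ⊔ l.toSubmodule)) :
    Qf L y y = 2 * ((∑ e, Qf L ⁅eh e, y⁆ ⁅eh e, y⁆ + ∑ e, Qf L ⁅a e, y⁆ ⁅a e, y⁆) +
      ∑ e, Qf L ⁅el e, y⁆ ⁅el e, y⁆) := by
  have h1 := st.kil y y
  have h2 := st.sum_p hy
  have h3 : ∀ z : L, Qf L ⁅y, z⁆ ⁅y, z⁆ = Qf L ⁅z, y⁆ ⁅z, y⁆ := by
    intro z
    rw [← lie_skew z y, map_neg, map_neg, LinearMap.neg_apply, neg_neg]
  simp only [h3 (eh _), h3 (a _), h3 (el _)] at h1
  linarith

theorem Pair_kf {n : ℕ} {e : Fin n → L} (he : ∀ i j, Qf L (e i) (e j) = if i = j then 1 else 0)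
    (i j : Fin n) : killingForm ℝ L (e i) (e j) = if i = j then -1 else 0 := by
  have := he i j
  rw [Qf_apply] at this
  split_ifs at this ⊢ <;> linarith

/-- The Casimir operator of `k` in the frame of `k`. -/
theorem Setup3.cask (st : Setup3 k l h eh el a f) {s t : ℝ} (hc : CasimirLE k l s t) :
    (∀ x ∈ k, ∑ e, Qf L ⁅eh e, x⁆ ⁅eh e, x⁆ + ∑ e, Qf L ⁅a e, x⁆ ⁅a e, x⁆ ≤ s * Qf L x x) ∧
    ∀ x ∈ perp (k.toSubmodule ⊔ l.toSubmodule),
      ∑ e, Qf L ⁅eh e, x⁆ ⁅eh e, x⁆ + ∑ e, Qf L ⁅a e, x⁆ ⁅a e, x⁆ ≤ t * Qf L x x := by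
  have h1 := hc (nh + nq) (Sum.elim eh a ∘ finSumFinEquiv.symm) (fun i => st.fk.mem _)
    (Pair_kf fun i j => by
      rw [Function.comp_apply, Function.comp_apply, st.fk.orth]
      simp only [EmbeddingLike.apply_eq_iff_eq])
  have h2 : ∀ x : L, ∑ i, -killingForm ℝ L ⁅(Sum.elim eh a ∘ finSumFinEquiv.symm) i, x⁆
      ⁅(Sum.elim eh a ∘ finSumFinEquiv.symm) i, x⁆ =
      ∑ e, Qf L ⁅eh e, x⁆ ⁅eh e, x⁆ + ∑ e, Qf L ⁅a e, x⁆ ⁅a e, x⁆ := by
    intro x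
    have h3 := Equiv.sum_comp (finSumFinEquiv (m := nh) (n := nq)).symm
      (fun z => Qf L ⁅Sum.elim eh a z, x⁆ ⁅Sum.elim eh a z, x⁆)
    rw [Fintype.sum_sum_type] at h3
    simp only [Sum.elim_inl, Sum.elim_inr] at h3
    rw [← h3]
    rfl
  simp only [h2] at h1
  refine ⟨fun x hx => h1.1 x hx, fun x hx => h1.2 x (orth_iff.2 hx)⟩

/-- The Casimir operator of `h` in the frame of `h`. -/
theorem Setup3.cash (st : Setup3 k l h eh el a f) {t : ℝ} (hc : CasimirGE k l h t)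
    {x : L} (hx : x ∈ perp (k.toSubmodule ⊔ l.toSubmodule)) :
    t * Qf L x x ≤ ∑ e, Qf L ⁅eh e, x⁆ ⁅eh e, x⁆ := by
  obtain ⟨n, g, hg, ho, hge⟩ := hc
  have ho' : ∀ i j, Qf L (g i) (g j) = if i = j then 1 else 0 := by
    intro i j
    rw [Qf_apply, ho]
    split_ifs <;> norm_num
  refine le_trans (hge x (orth_iff.2 hx)) ?_
  have h2 : ∀ (i : Fin np) (z : L), Qf L ⁅z, x⁆ (f i) = Qf L ⁅x, f i⁆ z := by
    intro i z
    rw [Qf_symm ⁅x, f i⁆, ← Qf_lie]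
  have h3 : ∀ {m : ℕ} (e : Fin m → L), (∀ z, e z ∈ h) →
      ∑ z, Qf L ⁅e z, x⁆ ⁅e z, x⁆ = ∑ i, ∑ z, Qf L ⁅x, f i⁆ (e z) ^ 2 := by
    intro m e he
    rw [Finset.sum_comm]
    refine Finset.sum_congr rfl fun z _ => ?_
    rw [st.fp.parseval (st.lie_kp (st.le (he z)) hx)]
    refine Finset.sum_congr rfl fun i _ => ?_
    rw [h2, sq]
  change ∑ z, Qf L ⁅g z, x⁆ ⁅g z, x⁆ ≤ _
  rw [h3 g hg, h3 eh st.fh.mem]
  refine Finset.sum_le_sum fun i _ => ?_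
  set w := ⁅x, f i⁆ with hw
  set v := ∑ e, Qf L w (eh e) • eh e with hv
  have h4 : ∀ z, Qf L w (g z) = Qf L v (g z) := by
    intro z
    rw [Qf_symm, st.fh.parseval (hg z) w, hv, Qf_sum]
    refine Finset.sum_congr rfl fun e _ => ?_
    rw [Qf_symm (g z), mul_comm]
  have h5 : Qf L v v = ∑ e, Qf L w (eh e) ^ 2 := by
    conv_lhs =>
      enter [2]
      rw [hv]
    rw [Qf_sum']
    refine Finset.sum_congr rfl fun e _ => ?_
    rw [hv, st.fh.coord, sq]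
  simp only [h4]
  rw [← h5]
  exact bessel_fam st.compact ho' v

theorem Setup3.dat (st : Setup3 k l h eh el a f) {s b : ℝ} (hb : 0 < b) (hbs : b ≤ s)
    (hs : 300 * s ≤ 1) (hsb : 300 * s ^ 3 ≤ b ^ 2) (hc : CasimirLE k l (s ^ 2) (s ^ 2))
    (hi : IndexLE k l (s ^ 2)) (hh : CasimirGE k l h (b ^ 2)) :
    Dat (NN' a f) (SS' a) (NN' el f) (SS' el) s b := by
  have hck := st.cask hc
  have sw : ∀ y z : L, Qf L ⁅y, z⁆ ⁅y, z⁆ = Qf L ⁅z, y⁆ ⁅z, y⁆ := by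
    intro y z
    rw [← lie_skew z y, map_neg, map_neg, LinearMap.neg_apply, neg_neg]
  refine ⟨hb, hbs, hs, hsb, ?_, ?_, ?_, ?_, ?_, ?_, ?_, ?_, ?_, ?_, ?_, ?_, ?_, ?_⟩
  · intro x z
    have h1 := Pair_mul st.fp (a x) (el z) fun i =>
      st.lie_kp (st.mem_k x) (st.fp.mem i)
    have h2 := Pair_mul st.fp (el z) (a x) fun i =>
      st.lie_lp (st.mem_l z) (st.fp.mem i)
    refine h1.trans (Eq.trans ?_ h2.symm)
    ext i j
    rw [Matrix.of_apply, Matrix.of_apply, leibniz_lie (el z) (a x),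
      st.lie_lk (st.mem_l z) (st.mem_k x), zero_lie, zero_add]
  · intro z
    exact Pair_anti f (el z)
  · intro z
    exact Pair_anti el (el z)
  · intro x y z
    change Qf L ⁅el y, el x⁆ (el z) = -Qf L ⁅el x, el y⁆ (el z)
    rw [← lie_skew, map_neg, LinearMap.neg_apply]
  · intro x y
    exact Pair_brk st.fp st.fl (el x) (el y) (fun i => st.lie_lp (st.mem_l x) (st.fp.mem i))
      (fun i => st.lie_lp (st.mem_l y) (st.fp.mem i)) (l.lie_mem (st.mem_l x) (st.mem_l y))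
  · intro x y
    exact Pair_brk st.fl st.fl (el x) (el y) (fun i => l.lie_mem (st.mem_l x) (st.mem_l i))
      (fun i => l.lie_mem (st.mem_l y) (st.mem_l i)) (l.lie_mem (st.mem_l x) (st.mem_l y))
  · intro y
    rw [st.rwN y, ← frame_norm st.fp y]
    have h1 := hck.2 _ (frame_mem st.fp y)
    have h2 : 0 ≤ ∑ e, Qf L ⁅eh e, ∑ i, y i • f i⁆ ⁅eh e, ∑ i, y i • f i⁆ :=
      Finset.sum_nonneg fun e _ => Qf_nonneg st.compact _
    linarith
  · intro x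
    rw [st.trN x, ← frame_norm st.fq x, st.split (frame_mem st.fq x).1]
    have h1 : 0 ≤ ∑ e, Qf L ⁅∑ s, x s • a s, eh e⁆ ⁅∑ s, x s • a s, eh e⁆ :=
      Finset.sum_nonneg fun e _ => Qf_nonneg st.compact _
    have h2 : 0 ≤ ∑ e, Qf L ⁅∑ s, x s • a s, a e⁆ ⁅∑ s, x s • a s, a e⁆ :=
      Finset.sum_nonneg fun e _ => Qf_nonneg st.compact _
    linarith
  · intro x
    rw [st.trN x, ← frame_norm st.fq x]
    have h1 := st.split (frame_mem st.fq x).1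
    have h2 := hck.1 _ (frame_mem st.fq x).1
    simp only [sw (eh _), sw (a _)] at h2
    linarith
  · intro x
    rw [st.trN x, ← frame_norm st.fq x]
    set X := ∑ s, x s • a s with hX
    have hXk : X ∈ k := (frame_mem st.fq x).1
    have h1 := st.split hXk
    have h2 : trace (lc (SS' a) x * (lc (SS' a) x)ᵀ) ≤ ∑ s, Qf L ⁅X, a s⁆ ⁅X, a s⁆ := by
      rw [Pair_trace]
      refine Finset.sum_le_sum fun s _ => ?_
      have h3 := st.fq.bessel st.compact ⁅X, a s⁆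
      refine le_trans (le_of_eq ?_) h3
      refine Finset.sum_congr rfl fun r _ => ?_
      rw [Setup.lcS_eq, ← hX]
    have h4 : 0 ≤ ∑ e, Qf L ⁅X, eh e⁆ ⁅X, eh e⁆ :=
      Finset.sum_nonneg fun e _ => Qf_nonneg st.compact _
    linarith
  · intro y
    rw [st.rwN y, st.rwM y, ← frame_norm st.fp y]
    have hy := frame_mem st.fp y
    have h1 := st.kil_p hy
    have h2 : ∑ e, Qf L ⁅eh e, ∑ i, y i • f i⁆ ⁅eh e, ∑ i, y i • f i⁆ ≤
        s ^ 2 * Qf L (∑ i, y i • f i) (∑ i, y i • f i) :=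
      (hc nh eh st.mem_h (Pair_kf st.fh.orth)).2 _ (orth_iff.2 hy)
    linarith
  · intro y
    rw [st.rwN y, st.rwM y, ← frame_norm st.fp y]
    have hy := frame_mem st.fp y
    have h1 := st.kil_p hy
    have h2 := st.cash hh hy
    linarith
  · ext x y
    rw [Matrix.add_apply]
    have h1 : UU (SS' el) 1 1 x y = ∑ e, Qf L ⁅el x, el e⁆ ⁅el y, el e⁆ := by
      unfold UU
      rw [Matrix.of_apply, Matrix.mul_one, Matrix.mul_one]
      unfold Matrix.trace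
      refine Finset.sum_congr rfl fun e _ => ?_
      rw [Matrix.diag_apply, Matrix.mul_apply,
        st.fl.parseval (l.lie_mem (st.mem_l x) (st.mem_l e))]
      rfl
    have h2 : UU (NN' el f) 1 1 x y = ∑ i, Qf L ⁅el x, f i⁆ ⁅el y, f i⁆ := by
      unfold UU
      rw [Matrix.of_apply, Matrix.mul_one, Matrix.mul_one]
      unfold Matrix.trace
      refine Finset.sum_congr rfl fun i _ => ?_
      rw [Matrix.diag_apply, Matrix.mul_apply,
        st.fp.parseval (st.lie_lp (st.mem_l x) (st.fp.mem i))]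
      rfl
    have h3 := st.kil (el x) (el y)
    have h4 : ∑ e, Qf L ⁅el x, eh e⁆ ⁅el y, eh e⁆ = 0 :=
      Finset.sum_eq_zero fun e _ => by
        rw [st.lie_lk (st.mem_l x) (st.mem_h e), map_zero, LinearMap.zero_apply]
    have h5 : ∑ e, Qf L ⁅el x, a e⁆ ⁅el y, a e⁆ = 0 :=
      Finset.sum_eq_zero fun e _ => by
        rw [st.lie_lk (st.mem_l x) (st.mem_k e), map_zero, LinearMap.zero_apply]
    rw [h1, h2, Matrix.one_apply, ← st.fl.orth x y, h3, h4, h5]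
    ring
  · intro x
    rw [st.trM x, ← frame_norm st.fl x]
    exact hi np f (fun i => orth_iff.2 (st.fp.mem i)) (Pair_kf st.fp.orth) _ (frame_mem st.fl x)

end

end Pool.Agent.EinT
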