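import Pool.Agent.EinT.Defs
import Pool.Agent.EinS.SoCas

/-!
# The symmetric pair `so(n + k) ⊇ so(k) ⊕ so(n)`, subalgebras of `so(k)`

Library: `EinS/So.lean`, `EinS/SoCas.lean` (`lower n k = so(k)`, `upper n k = so(n)`, `off_diag`, `Qf_so`, `so_casimir_k`,
`so_casimir_p`, `so_bessel`).  `so_casimirLE`: `(k - 2)/(n + k - 2)` and `(k - 1)/(2 (n + k - 2))` are at most
`k/(n + k - 2)`.
-/

namespace Pool.Agent.EinT

open Matrix Pool.Agent.EStab Pool.Agent.EinS LieAlgebra.Orthogonal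

/-- The subalgebra `h` of `so(k)` as a subalgebra of `so(n + k)`. -/
def emb (n : ℕ) {k : ℕ} (h : LieSubalgebra ℝ (so (Fin k) ℝ)) :
    LieSubalgebra ℝ (so (Fin n ⊕ Fin k) ℝ) where
  carrier := {x | x ∈ lower n k ∧ ∃ y ∈ h, ∀ i j, x.1 (Sum.inr i) (Sum.inr j) = y.1 i j}
  add_mem' := by
    rintro x x' ⟨hx, y, hy, hxy⟩ ⟨hx', y', hy', hxy'⟩
    refine ⟨(lower n k).add_mem hx hx', y + y', h.add_mem hy hy', fun i j => ?_⟩
    change x.1 _ _ + x'.1 _ _ = y.1 _ _ + y'.1 _ _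
    rw [hxy, hxy']
  zero_mem' := ⟨(lower n k).zero_mem, 0, h.zero_mem, fun _ _ => rfl⟩
  smul_mem' := by
    rintro c x ⟨hx, y, hy, hxy⟩
    refine ⟨(lower n k).smul_mem c hx, c • y, h.smul_mem c hy, fun i j => ?_⟩
    change c * x.1 _ _ = c * y.1 _ _
    rw [hxy]
  lie_mem' := by
    rintro x x' ⟨hx, y, hy, hxy⟩ ⟨hx', y', hy', hxy'⟩
    refine ⟨(lower n k).lie_mem hx hx', ⁅y, y'⁆, h.lie_mem hy hy', fun i j => ?_⟩
    have h1 : (⁅y, y'⁆ : so (Fin k) ℝ).1 = y.1 * y'.1 - y'.1 * y.1 := rfl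
    rw [so_lie, h1, Matrix.sub_apply, Matrix.sub_apply, Matrix.mul_apply, Matrix.mul_apply,
      Matrix.mul_apply, Matrix.mul_apply, Fintype.sum_sum_type, Fintype.sum_sum_type]
    simp only [lower_col hx, lower_row hx', lower_col hx', lower_row hx, mul_zero,
      Finset.sum_const_zero, zero_add, hxy, hxy']

/-- The Casimir operator of `h` on `ℝ^k` (for the inner product `∑ a b, y a b * y' a b` on `so(k)`) is at least `c`. -/
def StdCasimirGE {k : ℕ} (h : LieSubalgebra ℝ (so (Fin k) ℝ)) (c : ℝ) : Prop :=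
  ∃ (m : ℕ) (y : Fin m → so (Fin k) ℝ), (∀ i, y i ∈ h) ∧
    (∀ i j, ∑ a, ∑ b, (y i).1 a b * (y j).1 a b = if i = j then 1 else 0) ∧
    ∀ v : Fin k → ℝ, c * (v ⬝ᵥ v) ≤ ∑ i, ((y i).1 *ᵥ v) ⬝ᵥ ((y i).1 *ᵥ v)

variable {n k : ℕ}

theorem emb_le (n : ℕ) {k : ℕ} (h : LieSubalgebra ℝ (so (Fin k) ℝ)) : emb n h ≤ lower n k :=
  fun _ hx => hx.1

theorem so_casimirLE (h3 : 3 ≤ n + k) :
    CasimirLE (lower n k) (upper n k) (k / (n + k - 2)) (k / (n + k - 2)) := by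
  intro m a ha ho
  have hM : (0 : ℝ) < n + k - 2 := by
    have : (3 : ℝ) ≤ n + k := by exact_mod_cast h3
    linarith
  have hk0 : (0 : ℝ) ≤ k := Nat.cast_nonneg k
  have hg : CompactSemisimple (so (Fin n ⊕ Fin k) ℝ) := so_compact' (by
    rw [Fintype.card_sum, Fintype.card_fin, Fintype.card_fin]
    exact h3)
  have ho' : ∀ i j, Qf _ (a i) (a j) = if i = j then 1 else 0 := by
    intro i j
    rw [Qf_apply, ho]
    split_ifs <;> norm_num
  refine ⟨fun x hx => ?_, fun x hx => ?_⟩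
  · refine le_trans (so_casimir_k h3 ha ho' hx) ?_
    refine mul_le_mul_of_nonneg_right ?_ (Qf_nonneg hg x)
    rw [div_le_iff₀ hM, div_mul_cancel₀ _ hM.ne']
    linarith
  · refine le_trans (so_casimir_p h3 ha ho' hx) ?_
    refine mul_le_mul_of_nonneg_right ?_ (Qf_nonneg hg x)
    rw [div_le_iff₀ (by linarith)]
    have h1 : (k : ℝ) / (n + k - 2) * (2 * (n + k - 2)) = 2 * k := by
      field_simp
    rw [h1]
    linarith

end Pool.Agent.EinT
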